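import Pool.Agent.H413.XT.Defs

/-!
# Contact of traits with the singular locus
-/

set_option autoImplicit false

open AlgebraicGeometry CategoryTheory Limits

namespace Pool.Agent.H413.XT

/-- The contact of the trait `ψ` with the set of singular points of `X` is at most `d`: some function
`s` on an open neighbourhood `U` of the trait, which vanishes at all singular points in `U`, has order
at most `d` on the trait. -/
def Con {X : Scheme.{0}} {R : Type} [CommRing R] [IsLocalRing R]
    (ψ : Spec (CommRingCat.of R) ⟶ X) (d : ℕ) : Prop :=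
  ∃ (U : X.Opens) (h : ⊤ ≤ ψ ⁻¹ᵁ U) (s : Γ(X, U)),
    (∀ x ∈ U, ¬ IsRegularLocalRing (X.presheaf.stalk x) → x ∉ X.basicOpen s) ∧
    (Scheme.ΓSpecIso (CommRingCat.of R)).hom ((ψ.appLE U ⊤ h) s) ∉
      IsLocalRing.maximalIdeal R ^ (d + 1)

end Pool.Agent.H413.XT
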