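import Pool.Agent.H413.BR.B55
import Pool.Graph.R_seed8.TH188.ARC.G9

/-!
# The union of the regular loci: definitions
-/

set_option autoImplicit false
set_option linter.unusedVariables false
set_option linter.unusedSectionVars false

open AlgebraicGeometry CategoryTheory Limits

namespace Pool.Agent.H413.XT

open Pool.Agent.TH188.ARC Pool.Agent.H918R2.Quad Pool.Agent.H968R2.Quad Pool.Agent.W559.GF
  Pool.Agent.W930.GF Pool.Agent.W191.GF

/-- All localizations of `A` at primes are regular. -/
def RegR {F : Type} [Field F] (A : Subring F) : Prop :=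
  ∀ (P : Ideal A) [P.IsPrime], IsRegularLocalRing (Localization.AtPrime P)

/-- `Spec A` is an open subscheme of `Z`, compatibly with `η`. -/
def Aff {F : Type} [Field F] {Z : Scheme.{0}} (η : Spec (CommRingCat.of F) ⟶ Z) (A : Subring F) :
    Prop :=
  ∃ j : Spec (CommRingCat.of A) ⟶ Z, IsOpenImmersion j ∧ io A ≫ j = η

/-- `Spec A` is an open subscheme of `Z` which contains `z`, compatibly with `η`. -/
def AffAt {F : Type} [Field F] {Z : Scheme.{0}} (η : Spec (CommRingCat.of F) ⟶ Z) (A : Subring F)
    (z : Z) : Prop :=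
  ∃ j : Spec (CommRingCat.of A) ⟶ Z, IsOpenImmersion j ∧ io A ≫ j = η ∧ z ∈ Set.range j

/-- `Spec A` has a morphism to `Z`, compatibly with `η`. -/
def Mp {F : Type} [Field F] {Z : Scheme.{0}} (η : Spec (CommRingCat.of F) ⟶ Z) (A : Subring F) :
    Prop :=
  ∃ j : Spec (CommRingCat.of A) ⟶ Z, io A ≫ j = η

/-- The stalk of `Z` at `z` is regular. -/
def RegAt (Z : Scheme.{0}) (z : Z) : Prop := IsRegularLocalRing (Z.presheaf.stalk z)

end Pool.Agent.H413.XT
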