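import Pool.Agent.H413.XT.X8
import Pool.Agent.H413.BR.B55

/-!
# LU1: uniform local uniformization (helper295 for helper413)
-/

set_option autoImplicit false
set_option linter.unusedVariables false
set_option linter.unusedSectionVars false

namespace Pool.Agent.H413.XT

open scoped Topology
open IsLocalRing Pool.Agent.TH188.QS Pool.Agent.TH188.ARC Pool.Agent.W418.LU2
  Pool.Agent.H918R2.Quad Pool.Agent.H413.BR

variable {k F : Type} [Field k] [Field F] [Algebra k F]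

/-- The chart `A[l / j : l ∈ J]` of the blowing up of `J`. -/
def blowAlg (A : Subalgebra k F) (J : Submodule k F) (j : F) : Subalgebra k F :=
  Algebra.adjoin k ((A : Set F) ∪ {t | ∃ l ∈ J, t = l / j})

/-- A finitely generated algebra is a chart. -/
theorem h295_chart (A : Subalgebra k F) (hA : A.FG) :
    ∃ M₀ : Submodule k F, M₀.FG ∧ (1 : F) ∈ M₀ ∧ chart k M₀ 1 = A := by
  classical
  obtain ⟨S, hS⟩ := hA
  refine ⟨Submodule.span k ((insert 1 S : Finset F) : Set F), ⟨_, rfl⟩,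
    Submodule.subset_span (by simp), ?_⟩
  apply le_antisymm
  · refine Algebra.adjoin_le ?_
    rintro y ⟨m, hm, rfl⟩
    rw [div_one]
    have h1 : Submodule.span k ((insert 1 S : Finset F) : Set F) ≤ Subalgebra.toSubmodule A := by
      rw [Submodule.span_le]
      intro x hx
      rw [Finset.coe_insert, Set.mem_insert_iff] at hx
      rcases hx with rfl | hx
      · exact A.one_mem
      · change x ∈ A
        rw [← hS]
        exact Algebra.subset_adjoin hx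
    exact h1 hm
  · rw [← hS]
    refine Algebra.adjoin_le ?_
    intro x hx
    exact Algebra.subset_adjoin ⟨x, Submodule.subset_span (by
      rw [Finset.coe_insert]; exact Set.mem_insert_of_mem _ hx), (div_one x).symm⟩

theorem h295_blow (M₀ J : Submodule k F) (h1 : (1 : F) ∈ M₀) {j : F} (hj : j ∈ J) (hj0 : j ≠ 0) :
    blowAlg (chart k M₀ 1) J j = chart k (M₀ * J) (1 * j) := by
  apply le_antisymm
  · refine Algebra.adjoin_le ?_
    rintro y (hy | ⟨l, hl, rfl⟩)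
    · have h2 : chart k M₀ 1 ≤ chart k (M₀ * J) (1 * j) := by
        refine Algebra.adjoin_le ?_
        rintro z ⟨m, hm, rfl⟩
        refine Algebra.subset_adjoin ⟨m * j, Submodule.mul_mem_mul hm hj, ?_⟩
        rw [mul_div_mul_right _ _ hj0]
      exact h2 hy
    · refine Algebra.subset_adjoin ⟨1 * l, Submodule.mul_mem_mul h1 hl, ?_⟩
      rw [one_mul, one_mul]
  · refine Algebra.adjoin_le ?_
    rintro y ⟨m, hm, rfl⟩
    change m / (1 * j) ∈ blowAlg (chart k M₀ 1) J j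
    refine Submodule.mul_induction_on hm ?_ ?_
    · intro a ha b hb
      have e : a * b / (1 * j) = (a / 1) * (b / j) := by
        rw [one_mul, div_one, mul_div_assoc]
      rw [e]
      refine Subalgebra.mul_mem _ ?_ ?_
      · exact Algebra.subset_adjoin (Or.inl (Algebra.subset_adjoin ⟨a, ha, rfl⟩))
      · exact Algebra.subset_adjoin (Or.inr ⟨b, hb, rfl⟩)
    · intro x y hx hy
      rw [add_div]
      exact Subalgebra.add_mem _ hx hy

/-- The valuation ring `W[1 / ϖ]`. -/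
theorem h295_eta (W : ValuationSubring F) (ϖ : F) (hϖ : ϖ ∈ W) :
    ∃ η : ValuationSubring F, ∀ z, z ∈ η ↔ ∃ n : ℕ, z * ϖ ^ n ∈ W := by
  have up : ∀ (z : F) (n m : ℕ), z * ϖ ^ n ∈ W → z * ϖ ^ (n + m) ∈ W := by
    intro z n m h
    rw [pow_add, ← mul_assoc]
    exact W.mul_mem _ _ h (pow_mem hϖ m)
  refine ⟨{ carrier := {z | ∃ n : ℕ, z * ϖ ^ n ∈ W}
            mul_mem' := ?_
            one_mem' := ⟨0, by rw [pow_zero, mul_one]; exact W.one_mem⟩
            add_mem' := ?_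
            zero_mem' := ⟨0, by rw [zero_mul]; exact W.zero_mem⟩
            neg_mem' := ?_
            mem_or_inv_mem' := ?_ }, fun z => Iff.rfl⟩
  · rintro a b ⟨n, hn⟩ ⟨m, hm⟩
    refine ⟨n + m, ?_⟩
    have e : a * b * ϖ ^ (n + m) = (a * ϖ ^ n) * (b * ϖ ^ m) := by rw [pow_add]; ring
    rw [e]
    exact W.mul_mem _ _ hn hm
  · rintro a b ⟨n, hn⟩ ⟨m, hm⟩
    refine ⟨n + m, ?_⟩
    rw [add_mul]
    refine W.add_mem _ _ (up a n m hn) ?_
    rw [add_comm n m]
    exact up b m n hm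
  · rintro a ⟨n, hn⟩
    refine ⟨n, ?_⟩
    rw [neg_mul]
    exact W.neg_mem _ hn
  · intro a
    rcases W.mem_or_inv_mem a with h | h
    · exact Or.inl ⟨0, by rw [pow_zero, mul_one]; exact h⟩
    · exact Or.inr ⟨0, by rw [pow_zero, mul_one]; exact h⟩

/-- LU1. -/
theorem h413_lu_uniform (A : Subalgebra k F) (hA : A.FG) (f : F) (hf : f ∈ A) (hf0 : f ≠ 0)
    (hreg : ∀ (P : Ideal A) [P.IsPrime], (⟨f, hf⟩ : A) ∉ P →
      IsRegularLocalRing (Localization.AtPrime P)) (d : ℕ) :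
    ∃ J : Submodule k F, J.FG ∧
      (∀ (P : Ideal A) [P.IsPrime], IsRegularLocalRing (Localization.AtPrime P) →
        ∃ j ∈ J, j ≠ 0 ∧ ∀ l ∈ J, ∃ a s : A, s ∉ P ∧ l * (s : F) = j * (a : F)) ∧
      ∀ (W : ValuationSubring F) (ϖ : F), (∀ a ∈ A, a ∈ W) → ϖ ≠ 0 → W.valuation ϖ < 1 →
        (∀ z, W.valuation z < 1 → z / ϖ ∈ W) → ϖ ^ d / f ∈ W →
        ∃ j ∈ J, j ≠ 0 ∧ (∀ l ∈ J, l / j ∈ W) ∧
          ∀ (P : Ideal (blowAlg A J j)) [P.IsPrime],
            (∀ b : blowAlg A J j, b ∈ P ↔ W.valuation (b : F) < 1) →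
            IsRegularLocalRing (Localization.AtPrime P) := by
  classical
  obtain ⟨M₀, hM₀, h1M, hAeq⟩ := h295_chart A hA
  subst hAeq
  have hHJ : HJ k := hj_field
  have hSR : SR k F := sr_hj hHJ
  have hne : ∃ g ∈ M₀, g ≠ 0 := ⟨1, h1M, one_ne_zero⟩
  obtain ⟨D, N, hNfin, hN, hforms⟩ := h413_exists_forms hHJ hSR hM₀ hne
  -- a power of `f` is in the ideal of the forms
  obtain ⟨T, hT⟩ : ∃ T : Set (chart k M₀ 1), T = {b : chart k M₀ 1 | ∃ n ∈ N, (b : F) = n / 1 ^ D} := ⟨_, rfl⟩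
  have hrad : (⟨f, hf⟩ : chart k M₀ 1) ∈ (Ideal.span T).radical := by
    rw [Ideal.radical_eq_sInf, Ideal.mem_sInf]
    rintro P ⟨hTP, hP⟩
    by_contra hfP
    obtain ⟨n, hn, h⟩ := (hforms 1 h1M one_ne_zero P).2 (hreg P hfP)
    have hmem : n / 1 ^ D ∈ chart k M₀ 1 := pow_div_mem one_ne_zero D n (hN hn)
    refine h hmem (hTP (Ideal.subset_span ?_))
    rw [hT]
    exact ⟨n, hn, rfl⟩
  obtain ⟨e, he⟩ := hrad
  have key : ∀ (V : ValuationSubring F) (c : F), (∀ a ∈ chart k M₀ 1, a ∈ V) → c ≠ 0 →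
      c / f ^ e ∈ V → ∃ n ∈ N, n ≠ 0 ∧ (n / 1 ^ D)⁻¹ * c ∈ V := by
    intro V c hV hc hcV
    by_contra hcon
    push Not at hcon
    have hvc : (0 : V.ValueGroup) < V.valuation c := by
      rw [zero_lt_iff]
      exact (V.valuation.ne_zero_iff).2 hc
    have h1 : ∀ x ∈ Ideal.span T, V.valuation ((x : chart k M₀ 1) : F) < V.valuation c := by
      intro x hx
      refine Submodule.span_induction ?_ ?_ ?_ ?_ hx
      · intro y hy
        rw [hT] at hy
        obtain ⟨n, hn, hyn⟩ := hy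
        rw [hyn]
        by_cases hn0 : n = 0
        · rw [hn0, zero_div, map_zero]
          exact hvc
        · have h2 := hcon n hn hn0
          rw [← V.valuation_le_one_iff, not_le, map_mul, map_inv₀] at h2
          have h3 : V.valuation (n / 1 ^ D) ≠ 0 := by
            rw [one_pow, div_one]
            exact (V.valuation.ne_zero_iff).2 hn0
          have h4 : 0 < V.valuation (n / 1 ^ D) := zero_lt_iff.2 h3
          calc V.valuation (n / 1 ^ D) = V.valuation (n / 1 ^ D) * 1 := (mul_one _).symm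
            _ < V.valuation (n / 1 ^ D) * ((V.valuation (n / 1 ^ D))⁻¹ * V.valuation c) :=
              mul_lt_mul_of_pos_left h2 h4
            _ = V.valuation c := by rw [← mul_assoc, mul_inv_cancel₀ h3, one_mul]
      · rw [ZeroMemClass.coe_zero, map_zero]
        exact hvc
      · intro a b _ _ ha hb
        change V.valuation ((a : F) + (b : F)) < V.valuation c
        exact Valuation.map_add_lt _ ha hb
      · intro a b _ hb
        change V.valuation ((a : F) * (b : F)) < V.valuation c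
        rw [map_mul]
        have ha : V.valuation (a : F) ≤ 1 := (V.valuation_le_one_iff _).2 (hV _ a.2)
        calc V.valuation (a : F) * V.valuation (b : F) ≤ 1 * V.valuation (b : F) :=
              mul_le_mul_left ha _
          _ = V.valuation (b : F) := one_mul _
          _ < V.valuation c := hb
    have h2 := h1 _ he
    rw [← V.valuation_le_one_iff, map_div₀] at hcV
    have hfe : V.valuation (f ^ e) ≠ 0 := (V.valuation.ne_zero_iff).2 (pow_ne_zero _ hf0)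
    have h3 : V.valuation c ≤ V.valuation (f ^ e) := by
      rw [div_le_one₀ (zero_lt_iff.2 hfe)] at hcV
      exact hcV
    have h4 : (((⟨f, hf⟩ : chart k M₀ 1) ^ e : chart k M₀ 1) : F) = f ^ e := rfl
    rw [h4] at h2
    exact absurd h2 (not_lt.2 h3)
  -- the closed set
  obtain ⟨Z₀, hZ₀⟩ : ∃ Z₀ : Set (ZR k F), ∀ W, W ∈ Z₀ ↔ ∀ f ∈ N, ¬ Gn W.1 (M₀ ^ D) f :=
    ⟨{W | ∀ f ∈ N, ¬ Gn W.1 (M₀ ^ D) f}, fun W => Iff.rfl⟩
  have hnot : ∀ W : ZR k F, W ∉ Z₀ ↔ ∃ f ∈ N, Gn W.1 (M₀ ^ D) f := by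
    intro W
    rw [hZ₀]
    push Not
    rfl
  have hclosed : IsClosed[topM M₀] Z₀ := by
    have h1 : Z₀ᶜ = ⋃ f ∈ N, bas M₀ D f := by
      ext W
      rw [Set.mem_compl_iff, hnot, Set.mem_iUnion₂]
      constructor
      · rintro ⟨f, hf, h⟩
        exact ⟨f, hf, h⟩
      · rintro ⟨f, hf, h⟩
        exact ⟨f, hf, h⟩
    have h2 : IsOpen[topM M₀] Z₀ᶜ := by
      rw [h1]
      let _ := topM M₀
      exact isOpen_biUnion fun f _ => TopologicalSpace.isOpen_generateFrom_of_mem ⟨D, f, rfl⟩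
    let _ := topM M₀
    exact isOpen_compl_iff.1 h2
  -- the model is regular outside of the closed set
  have hRq : ∀ W : ZR k F, W ∉ Z₀ → Rq W M₀ := by
    intro W hW
    obtain ⟨f, hf, hgn⟩ := (hnot W).1 hW
    obtain ⟨g₀, hg₀, hg₀0⟩ := hne
    obtain ⟨g, hg, hg0, hgW⟩ := exists_gen_max W.2 hM₀ hg₀ hg₀0
    have hG : Gn W.1 M₀ g := ⟨hg, hg0, hgW⟩
    refine ⟨_, Gn.LR hG, br55_reg_lo hG.le fun P hP hPW => ?_⟩
    refine (hforms g hg hg0 P).1 ⟨f, hf, fun h hcon => ?_⟩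
    rw [hPW] at hcon
    have h0 : f / g ^ D ≠ 0 := div_ne_zero hgn.2.1 (pow_ne_zero _ hg0)
    refine (val_lt_iff h0).1 hcon ?_
    rw [inv_div]
    exact hgn.2.2 _ (Submodule.pow_mem_pow _ hg _)
  have hCZ0 : CZ M₀ Z₀ M₀ := ⟨hM₀, hne, Dom.refl M₀, fun W _ Q hQ => hQ⟩
  have hC0 : ∀ (W : ZR k F) (ϖ : F), Ct M₀ N D W.1 ϖ 0 → W ∉ Z₀ := by
    rintro W ϖ ⟨f, hf, hf0, g, hg, h⟩
    rw [pow_zero, mul_one] at h
    exact (hnot W).2 ⟨f, hf, br55_gn (hN hf) hf0 hg.2.1 hg.le h⟩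
  obtain ⟨K, hK, hKM, hKiso, hKreg⟩ := seq_gen hHJ hSR (cl_CZ hclosed) hCZ0
    (fun M h => h.2.2.2) hclosed hRq (fun d W ϖ => Ct M₀ N D W.1 ϖ d) hC0
    (fun M hM _ d => lev_CZ hM₀ hne hNfin hN hZ₀ hRq hM d)
  have hJ := br55_prod hK (d * e)
  refine ⟨∏ i ∈ Finset.range (d * e), K i, hJ.1, ?_, ?_⟩
  · intro P hP hPreg
    have h1 : ∀ (n : ℕ) (W : ZR k F) (Q : Subring F), LR W.1 M₀ Q → IsRegularLocalRing Q →
        LR W.1 (BR.Mo M₀ K n) Q := by
      intro n W Q hQ hr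
      induction n with
      | zero =>
        unfold BR.Mo
        rw [Finset.prod_range_zero, mul_one]
        exact hQ
      | succ n ih => exact hKiso n W Q ih hr
    exact principal_of_LR hM₀ hne hJ.1 hJ.2 (fun W Q h2 h3 => h1 (d * e) W Q h2 h3) h1M
      one_ne_zero P hPreg
  · intro W ϖ hAW hϖ0 hϖ1 hϖ hfW
    have hϖW : ϖ ∈ W := (W.valuation_le_one_iff _).1 hϖ1.le
    have hW : ∀ o, algebraMap k F o ∈ W := fun o => hAW _ ((chart k M₀ 1).algebraMap_mem o)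
    obtain ⟨η, hη⟩ := h295_eta W ϖ hϖW
    have hWη : W ≤ η := fun z hz => (hη z).2 ⟨0, by rw [pow_zero, mul_one]; exact hz⟩
    have hgW : Gn W M₀ (1 : F) := ⟨h1M, one_ne_zero, fun m hm =>
      hAW _ (Algebra.subset_adjoin ⟨m, hm, rfl⟩)⟩
    have hgη : Gn η M₀ (1 : F) := ⟨h1M, one_ne_zero, fun m hm => hWη (hgW.2.2 m hm)⟩
    have hfη : f⁻¹ ∈ η := (hη _).2 ⟨d, by rw [mul_comm, ← div_eq_mul_inv]; exact hfW⟩
    -- contact
    have hCt : Ct M₀ N D W ϖ (d * e) := by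
      obtain ⟨n, hn, hn0, h⟩ := key W (ϖ ^ (d * e)) hAW (pow_ne_zero _ hϖ0) (by
        rw [pow_mul, ← div_pow]
        exact pow_mem hfW e)
      exact ⟨n, hn, hn0, 1, hgW, h⟩
    have hηZ : (⟨η, fun o => hWη (hW o)⟩ : ZR k F) ∉ Z₀ := by
      obtain ⟨n, hn, hn0, h⟩ := key η 1 (fun a ha => hWη (hAW a ha)) one_ne_zero (by
        rw [one_div, ← inv_pow]
        exact pow_mem hfη e)
      rw [mul_one] at h
      exact (hnot _).2 ⟨n, hn, br55_gn (hN hn) hn0 one_ne_zero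
        (Gn.le (W := (⟨η, fun o => hWη (hW o)⟩ : ZR k F)) hgη) h⟩
    obtain ⟨Q, hQ, hQreg⟩ := hKreg (d * e) ⟨W, hW⟩ ⟨η, fun o => hWη (hW o)⟩ ϖ hWη hηZ hϖ0 hϖW
      (fun Q₀ hQ₀ z hzQ hzW => by rw [← div_eq_mul_inv]; exact hϖ z hzW) hCt
    obtain ⟨j₀, hj₀, hj₀0⟩ := hJ.2
    obtain ⟨j, hj, hj0, hjW⟩ := exists_gen_max hW hJ.1 hj₀ hj₀0
    have hgj : Gn W (M₀ * ∏ i ∈ Finset.range (d * e), K i) (1 * j) :=
      h413_Gn_mul hgW ⟨hj, hj0, hjW⟩
    have hQeq := LR.unique hW hgj.LR hQ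
    refine ⟨j, hj, hj0, hjW, fun P hP hPW => ?_⟩
    have hB := h295_blow M₀ (∏ i ∈ Finset.range (d * e), K i) h1M hj hj0
    have hlo : IsRegularLocalRing (lo W.toSubring
        (blowAlg (chart k M₀ 1) (∏ i ∈ Finset.range (d * e), K i) j).toSubring) := by
      rw [hB, hQeq]
      exact hQreg
    have hle : (blowAlg (chart k M₀ 1) (∏ i ∈ Finset.range (d * e), K i) j).toSubring ≤
        W.toSubring := by
      rw [hB]
      exact Gn.le (W := (⟨W, hW⟩ : ZR k F)) hgj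
    obtain ⟨P', hP', hP'V, hreg'⟩ := regular_centre' hle hlo
    have h2 : P' = P := by
      ext b
      rw [hP'V, hPW]
    subst h2
    exact hreg'

end Pool.Agent.H413.XT
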