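import Mathlib

set_option autoImplicit false

open AlgebraicGeometry CategoryTheory Limits

namespace Pool.Agent.H413.XT

theorem nr1_ring {R : Type} [CommRing R] [IsDomain R] (φ : ℤ →+* R)
    (h : Function.Injective φ) : φ.Flat := by
  obtain rfl : φ = algebraMap ℤ R := RingHom.ext_int _ _
  rw [RingHom.flat_algebraMap_iff]
  have : Module.IsTorsionFree ℤ R := Module.isTorsionFree_iff_algebraMap_injective.2 h
  infer_instance

theorem nr1_flat_ring {R : CommRingCat.{0}} [IsDomain R] (φ : CommRingCat.of ℤ ⟶ R)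
    (h : IsDominant (Spec.map φ)) : φ.hom.Flat := by
  have h1 : DenseRange (PrimeSpectrum.comap φ.hom) := h.denseRange
  rw [PrimeSpectrum.denseRange_comap_iff_ker_le_nilRadical, nilradical_eq_zero] at h1
  have hinj : Function.Injective φ.hom := (RingHom.injective_iff_ker_eq_bot _).2 (le_bot_iff.1 h1)
  exact nr1_ring (R := R) φ.hom hinj

theorem nr1_dom {Y T : Scheme.{0}} [IsIntegral Y] (f : T ⟶ Y) [IsOpenImmersion f] [Nonempty T] :
    IsDominant f := by
  refine ⟨?_⟩
  have h1 : IsOpen (Set.range f) := f.isOpenEmbedding.isOpen_range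
  exact h1.dense (Set.range_nonempty f)

theorem h413_flat_of_dominant {Y : Scheme.{0}} [IsIntegral Y] (g : Y ⟶ Spec (CommRingCat.of ℤ))
    (h : IsDominant g) : Flat g := by
  rw [IsZariskiLocalAtSource.iff_of_openCover (P := @Flat) Y.affineCover]
  intro i
  rcases isEmpty_or_nonempty (Y.affineCover.X i) with he | hne
  · infer_instance
  have hT : IsIntegral (Y.affineCover.X i) := isIntegral_of_isOpenImmersion (Y.affineCover.f i)
  have hd : IsDominant (Y.affineCover.f i) := nr1_dom _
  obtain ⟨φ, hφ⟩ := Spec.map_surjective ((Y.affineCover.X i).isoSpec.inv ≫ Y.affineCover.f i ≫ g)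
  rw [← MorphismProperty.cancel_left_of_respectsIso @Flat (Y.affineCover.X i).isoSpec.inv, ← hφ,
    Flat.SpecMap_iff]
  apply nr1_flat_ring
  rw [hφ]
  infer_instance

end Pool.Agent.H413.XT
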