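import Pool.Agent.H413.XT.Defs

/-!
# XT10: the charts for products of generators cover (helper350, for helper413)
-/

set_option autoImplicit false
set_option linter.unusedVariables false
set_option linter.unusedSectionVars false

open AlgebraicGeometry CategoryTheory Limits

namespace Pool.Agent.H413.XT

open Pool.Agent.TH188.ARC Pool.Agent.H918R2.Quad Pool.Agent.H968R2.Quad Pool.Agent.W559.GF
  Pool.Agent.W930.GF Pool.Agent.W191.GF

section mod

open scoped Topology Pointwise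
open IsLocalRing Pool.Agent.TH188.QS Pool.Agent.W418.LU2 Pool.Agent.H413.BR

variable {O F : Type} [CommRing O] [Field F] [Algebra O F]

theorem h413_charts_cover {M₀ J : Submodule O F} (hM₀ : M₀.FG) (hJ : J.FG)
    (hM₀ne : ∃ g ∈ M₀, g ≠ 0) (hJne : ∃ g ∈ J, g ≠ 0) (z : model (M₀ * J)) :
    ∃ g ∈ M₀, g ≠ 0 ∧ ∃ j ∈ J, j ≠ 0 ∧ ∃ hg : g * j ∈ M₀ * J, ∃ hg0 : g * j ≠ 0,
      AffAt (Pool.Agent.W398.GF.eta (M₀ * J) (g * j) hg hg0) (chart O (M₀ * J) (g * j)).toSubring
        z := by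
  by_contra hcon
  push Not at hcon
  have H : ∀ g ∈ M₀, ∀ j ∈ J, ∀ hgj : g * j ∈ M₀ * J, tElt (M₀ * J) (g * j) hgj ∈
      ProjectiveSpectrum.asHomogeneousIdeal (𝒜 := mPiece (M₀ * J)) z := by
    intro g hg j hj hgj
    by_cases h0 : g * j = 0
    · have e : tElt (M₀ * J) (g * j) hgj = 0 := by
        apply Subtype.ext
        simp [tElt, mMon, h0]
      rw [e]
      exact zero_mem _
    · by_contra h
      have hg0 : g ≠ 0 := left_ne_zero_of_mul h0
      have hj0 : j ≠ 0 := right_ne_zero_of_mul h0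
      obtain ⟨i, hi, hr, hη⟩ := Pool.Agent.W398.GF.isChart (M₀ * J) (g * j) hgj h0
      refine hcon g hg hg0 j hj hj0 hgj h0 ⟨i, hi, hη, ?_⟩
      have h1 : z ∈ Proj.basicOpen (mPiece (M₀ * J)) (tElt (M₀ * J) (g * j) hgj) := h
      rw [← hr] at h1
      exact h1
  apply not_all_mem (M₀ * J) z
  intro b hb
  have hb' : b ∈ Submodule.span O ((M₀ : Set F) * (J : Set F)) := by
    rw [← Submodule.mul_eq_span_mul_set]
    exact hb
  obtain ⟨_, h⟩ := Pool.Agent.W398.GF.tElt_mem_span (M₀ * J)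
    (q := (ProjectiveSpectrum.asHomogeneousIdeal (𝒜 := mPiece (M₀ * J)) z).toIdeal)
    (s := (M₀ : Set F) * (J : Set F)) (by
      rintro _ ⟨g, hg, j, hj, rfl⟩
      exact ⟨Submodule.mul_mem_mul hg hj, H g hg j hj _⟩) hb'
  exact h

end mod

end Pool.Agent.H413.XT

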