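import Pool.Agent.H413.XT.X6

/-!
# XT7: the regular locus of a chart is open (helper124 for helper413)
-/

set_option autoImplicit false
set_option linter.unusedVariables false
set_option linter.unusedSectionVars false

namespace Pool.Agent.H413.XT

open scoped Topology
open IsLocalRing Pool.Agent.TH188.QS Pool.Agent.TH188.ARC Pool.Agent.W418.LU2
  Pool.Agent.H918R2.Quad Pool.Agent.H413.BR

variable {O F : Type} [CommRing O] [Field F] [Algebra O F]

theorem h413_reg_open [IsNoetherianRing O] (hHJ : HJ O) (hSR : SR O F) {M : Submodule O F}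
    (hM : M.FG) {g : F} (hg : g ∈ M) (hg0 : g ≠ 0) (P : Ideal (chart O M g)) [P.IsPrime]
    (hP : IsRegularLocalRing (Localization.AtPrime P)) :
    ∃ s : chart O M g, s ∉ P ∧ ∀ (P' : Ideal (chart O M g)) [P'.IsPrime], s ∉ P' →
      IsRegularLocalRing (Localization.AtPrime P') := by
  have hGn : ∀ V : ValuationSubring F, (chart O M g).toSubring ≤ V.toSubring → Gn V M g :=
    fun V hBV => ⟨hg, hg0, fun m hm => hBV (Algebra.subset_adjoin ⟨m, hm, rfl⟩)⟩
  have hOV : ∀ V : ValuationSubring F, (chart O M g).toSubring ≤ V.toSubring →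
      ∀ o, algebraMap O F o ∈ V := fun V hBV o => hBV ((chart O M g).algebraMap_mem o)
  obtain ⟨V, hBV, hV⟩ := h94_val (chart O M g) P
  have hreg := h94_lo_regular hBV P hV hP
  have hcl := h413_sing_closed (O := O) (F := F) hHJ hSR hM ⟨g, hg, hg0⟩
  obtain ⟨W, hWV⟩ : ∃ W : ZR O F, W.1 = V := ⟨⟨V, hOV V hBV⟩, rfl⟩
  have hWR : Rq W M := by
    refine ⟨lo V.toSubring (chart O M g).toSubring, ?_, hreg⟩
    rw [hWV]
    exact (hGn V hBV).LR
  have hop : IsOpen[topM M] {W : ZR O F | ¬ Rq W M}ᶜ := by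
    let _ : TopologicalSpace (ZR O F) := topM M
    exact hcl.isOpen_compl
  have hWm : W ∈ {W : ZR O F | ¬ Rq W M}ᶜ := fun h => h hWR
  obtain ⟨k, f, hf, hWf, hsub⟩ := exists_bas (M := M) hop hWm
  have hf0 : f ≠ 0 := hWf.2.1
  have h0 : f / g ^ k ≠ 0 := div_ne_zero hf0 (pow_ne_zero _ hg0)
  refine ⟨⟨f / g ^ k, pow_div_mem hg0 k f hf⟩, ?_, ?_⟩
  · intro hs
    have h1 := (val_lt_iff h0).1 ((hV ⟨f / g ^ k, pow_div_mem hg0 k f hf⟩).1 hs)
    apply h1
    rw [← hWV]
    exact h413_gn_inv hg hWf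
  · intro P' hP' hs
    obtain ⟨V', hBV', hV'⟩ := h94_val (chart O M g) P'
    have h2 : (f / g ^ k)⁻¹ ∈ V' := by
      by_contra hcon
      exact hs ((hV' ⟨f / g ^ k, pow_div_mem hg0 k f hf⟩).2 ((val_lt_iff h0).2 hcon))
    have h3 : Gn V' (M ^ k) f := br55_gn hf hf0 hg0 hBV' h2
    have h4 : (⟨V', hOV V' hBV'⟩ : ZR O F) ∈ bas M k f := h3
    have h5 := hsub h4
    have h6 : Rq (⟨V', hOV V' hBV'⟩ : ZR O F) M := by
      by_contra hcon
      exact h5 hcon
    obtain ⟨Q, hQ, hQr⟩ := h6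
    have h7 : Q = lo V'.toSubring (chart O M g).toSubring :=
      LR.unique (hOV V' hBV') hQ (hGn V' hBV').LR
    rw [h7] at hQr
    obtain ⟨P'', hP'', hV'', hr⟩ := regular_centre' hBV' hQr
    have h8 : P'' = P' := by
      ext b
      rw [hV'', hV']
    subst h8
    exact hr

end Pool.Agent.H413.XT
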