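import Pool.Agent.H413.XT.Defs

/-!
# XT9: a basic open subset of a chart (helper424)
-/

set_option autoImplicit false
set_option linter.unusedVariables false
set_option linter.unusedSectionVars false

open AlgebraicGeometry CategoryTheory Limits

namespace Pool.Agent.H413.XT

open Pool.Agent.TH188.ARC Pool.Agent.H918R2.Quad Pool.Agent.H968R2.Quad Pool.Agent.W559.GF
  Pool.Agent.W930.GF Pool.Agent.W191.GF

section

variable {F : Type} [Field F]

/-- the subring generated by `B` and `s⁻¹` -/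
lemma xt9_le (B : Subring F) (s : F) : B ≤ Subring.closure ((B : Set F) ∪ {s⁻¹}) :=
  fun x hx => Subring.subset_closure (Or.inl hx)

lemma xt9_surj (B : Subring F) {s : F} (hs : s ∈ B) (hs0 : s ≠ 0) {x : F}
    (hx : x ∈ Subring.closure ((B : Set F) ∪ {s⁻¹})) : ∃ n : ℕ, x * s ^ n ∈ B := by
  induction hx using Subring.closure_induction with
  | mem x hx =>
    rcases hx with hx | hx
    · exact ⟨0, by simpa using hx⟩
    · rw [Set.mem_singleton_iff] at hx
      subst hx
      exact ⟨1, by rw [pow_one, inv_mul_cancel₀ hs0]; exact B.one_mem⟩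
  | zero => exact ⟨0, by simp⟩
  | one => exact ⟨0, by simp⟩
  | add x y _ _ hx hy =>
    obtain ⟨n, hn⟩ := hx
    obtain ⟨m, hm⟩ := hy
    refine ⟨n + m, ?_⟩
    have e : (x + y) * s ^ (n + m) = (x * s ^ n) * s ^ m + (y * s ^ m) * s ^ n := by ring
    rw [e]
    exact B.add_mem (B.mul_mem hn (B.pow_mem hs m)) (B.mul_mem hm (B.pow_mem hs n))
  | neg x _ hx =>
    obtain ⟨n, hn⟩ := hx
    refine ⟨n, ?_⟩
    rw [neg_mul]
    exact B.neg_mem hn
  | mul x y _ _ hx hy =>
    obtain ⟨n, hn⟩ := hx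
    obtain ⟨m, hm⟩ := hy
    refine ⟨n + m, ?_⟩
    have e : x * y * s ^ (n + m) = (x * s ^ n) * (y * s ^ m) := by ring
    rw [e]
    exact B.mul_mem hn hm

lemma xt9_away (B : Subring F) {s : F} (hs : s ∈ B) (hs0 : s ≠ 0) :
    letI := (Subring.inclusion (xt9_le B s)).toAlgebra
    IsLocalization.Away (⟨s, hs⟩ : B) (Subring.closure ((B : Set F) ∪ {s⁻¹})) := by
  let := (Subring.inclusion (xt9_le B s)).toAlgebra
  have hinv : s⁻¹ ∈ Subring.closure ((B : Set F) ∪ {s⁻¹}) := Subring.subset_closure (Or.inr rfl)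
  have hval : ∀ b : B, ((algebraMap B (Subring.closure ((B : Set F) ∪ {s⁻¹})) b :
      Subring.closure ((B : Set F) ∪ {s⁻¹})) : F) = b := fun b => rfl
  refine (isLocalization_iff _ _).2 ⟨?_, ?_, ?_⟩
  · rintro ⟨_, n, rfl⟩
    have h1 : IsUnit (algebraMap B (Subring.closure ((B : Set F) ∪ {s⁻¹})) ⟨s, hs⟩) := by
      refine IsUnit.of_mul_eq_one (⟨s⁻¹, hinv⟩ : Subring.closure ((B : Set F) ∪ {s⁻¹})) ?_
      apply Subtype.ext
      show s * s⁻¹ = 1
      exact mul_inv_cancel₀ hs0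
    show IsUnit (algebraMap B (Subring.closure ((B : Set F) ∪ {s⁻¹})) (⟨s, hs⟩ ^ n))
    rw [map_pow]
    exact h1.pow n
  · rintro ⟨x, hx⟩
    obtain ⟨n, hn⟩ := xt9_surj B hs hs0 hx
    refine ⟨(⟨x * s ^ n, hn⟩, ⟨⟨s, hs⟩ ^ n, n, rfl⟩), ?_⟩
    apply Subtype.ext
    rfl
  · intro a b hab
    refine ⟨1, ?_⟩
    have h : (a : F) = b := by
      rw [← hval a, ← hval b, hab]
    rw [Subtype.ext h]

end

section mod

variable {O F : Type} [CommRing O] [Field F] [Algebra O F]

/-- **XT9.** -/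
theorem h413_basic_open {M : Submodule O F} {g₁ : F} (hg₁ : g₁ ∈ M) (hg₁0 : g₁ ≠ 0) {g : F}
    (hg : g ∈ M) (hg0 : g ≠ 0) {s : F} (hs : s ∈ chart O M g) (hs0 : s ≠ 0) :
    ∃ (jY : Spec (CommRingCat.of (chart O M g).toSubring) ⟶ model M)
      (j : Spec (CommRingCat.of
        (Subring.closure (((chart O M g).toSubring : Set F) ∪ {s⁻¹}))) ⟶ model M),
      IsOpenImmersion jY ∧ io _ ≫ jY = Pool.Agent.W398.GF.eta M g₁ hg₁ hg₁0 ∧
      IsOpenImmersion j ∧ io _ ≫ j = Pool.Agent.W398.GF.eta M g₁ hg₁ hg₁0 ∧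
      ∀ P : PrimeSpectrum (chart O M g).toSubring, (⟨s, hs⟩ : (chart O M g).toSubring) ∉ P.asIdeal →
        jY P ∈ Set.range j := by
  obtain ⟨jY, hjY, -, hη⟩ := Pool.Agent.W398.GF.isChart M g hg hg0
  have hs' : s ∈ (chart O M g).toSubring := hs
  let : Algebra (chart O M g).toSubring
      (Subring.closure (((chart O M g).toSubring : Set F) ∪ {s⁻¹})) :=
    (Subring.inclusion (xt9_le (chart O M g).toSubring s)).toAlgebra
  have hloc : IsLocalization.Away (⟨s, hs'⟩ : (chart O M g).toSubring)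
      (Subring.closure (((chart O M g).toSubring : Set F) ∪ {s⁻¹})) :=
    xt9_away (chart O M g).toSubring hs' hs0
  have hopen : IsOpenImmersion (Spec.map (CommRingCat.ofHom (algebraMap (chart O M g).toSubring
      (Subring.closure (((chart O M g).toSubring : Set F) ∪ {s⁻¹}))))) :=
    IsOpenImmersion.of_isLocalization (⟨s, hs'⟩ : (chart O M g).toSubring)
  have hη1 : io _ ≫ jY = Pool.Agent.W398.GF.eta M g₁ hg₁ hg₁0 := by
    rw [Pool.Agent.W398.GF.eta_eq M hg₁ hg hg₁0 hg0]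
    exact hη
  refine ⟨jY, Spec.map (CommRingCat.ofHom (algebraMap (chart O M g).toSubring
      (Subring.closure (((chart O M g).toSubring : Set F) ∪ {s⁻¹})))) ≫ jY, hjY, hη1,
    inferInstance, ?_, ?_⟩
  · rw [← hη1, ← Category.assoc]
    congr 1
    rw [← Spec.map_comp]
    rfl
  · intro P hP
    have h1 : P ∈ Set.range (PrimeSpectrum.comap (algebraMap (chart O M g).toSubring
        (Subring.closure (((chart O M g).toSubring : Set F) ∪ {s⁻¹})))) := by
      rw [PrimeSpectrum.localization_away_comap_range _ (⟨s, hs'⟩ : (chart O M g).toSubring)]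
      exact hP
    obtain ⟨Q, hQ⟩ := h1
    refine ⟨Q, ?_⟩
    rw [← hQ]
    rfl

end mod

end Pool.Agent.H413.XT
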