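import Pool.Agent.H413.XT.Defs
import Pool.Agent.H413.XT.X7
import Pool.Agent.H413.XT.X9
import Pool.Agent.H413.XT.X10

/-!
# XT11: the covering condition for the sequence of blowings up (helper376 for helper413)
-/

set_option autoImplicit false
set_option linter.unusedVariables false
set_option linter.unusedSectionVars false

open AlgebraicGeometry CategoryTheory Limits

namespace Pool.Agent.H413.XT

open Pool.Agent.TH188.ARC Pool.Agent.H918R2.Quad Pool.Agent.H968R2.Quad Pool.Agent.W559.GF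
  Pool.Agent.W930.GF Pool.Agent.W191.GF

section xt11

open scoped Topology
open IsLocalRing Pool.Agent.TH188.QS Pool.Agent.W418.LU2 Pool.Agent.H413.BR

section

variable {F : Type} [Field F]

lemma xt11_le (B : Subring F) (s : F) : B ≤ Subring.closure ((B : Set F) ∪ {s⁻¹}) :=
  fun x hx => Subring.subset_closure (Or.inl hx)

lemma xt11_surj (B : Subring F) {s : F} (hs : s ∈ B) (hs0 : s ≠ 0) {x : F}
    (hx : x ∈ Subring.closure ((B : Set F) ∪ {s⁻¹})) : ∃ n : ℕ, x * s ^ n ∈ B := by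
  induction hx using Subring.closure_induction with
  | mem x hx =>
    rcases hx with hx | hx
    · exact ⟨0, by simpa using hx⟩
    · rw [Set.mem_singleton_iff] at hx
      subst hx
      exact ⟨1, by rw [pow_one, inv_mul_cancel₀ hs0]; exact B.one_mem⟩
  | zero => exact ⟨0, by simp⟩
  | one => exact ⟨0, by simp⟩
  | add x y _ _ hx hy =>
    obtain ⟨n, hn⟩ := hx
    obtain ⟨m, hm⟩ := hy
    refine ⟨n + m, ?_⟩
    have e : (x + y) * s ^ (n + m) = (x * s ^ n) * s ^ m + (y * s ^ m) * s ^ n := by ring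
    rw [e]
    exact B.add_mem (B.mul_mem hn (B.pow_mem hs m)) (B.mul_mem hm (B.pow_mem hs n))
  | neg x _ hx =>
    obtain ⟨n, hn⟩ := hx
    refine ⟨n, ?_⟩
    rw [neg_mul]
    exact B.neg_mem hn
  | mul x y _ _ hx hy =>
    obtain ⟨n, hn⟩ := hx
    obtain ⟨m, hm⟩ := hy
    refine ⟨n + m, ?_⟩
    have e : x * y * s ^ (n + m) = (x * s ^ n) * (y * s ^ m) := by ring
    rw [e]
    exact B.mul_mem hn hm

lemma xt11_away (B : Subring F) {s : F} (hs : s ∈ B) (hs0 : s ≠ 0) :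
    letI := (Subring.inclusion (xt11_le B s)).toAlgebra
    IsLocalization.Away (⟨s, hs⟩ : B) (Subring.closure ((B : Set F) ∪ {s⁻¹})) := by
  let := (Subring.inclusion (xt11_le B s)).toAlgebra
  have hinv : s⁻¹ ∈ Subring.closure ((B : Set F) ∪ {s⁻¹}) := Subring.subset_closure (Or.inr rfl)
  have hval : ∀ b : B, ((algebraMap B (Subring.closure ((B : Set F) ∪ {s⁻¹})) b :
      Subring.closure ((B : Set F) ∪ {s⁻¹})) : F) = b := fun b => rfl
  refine (isLocalization_iff _ _).2 ⟨?_, ?_, ?_⟩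
  · rintro ⟨_, n, rfl⟩
    have h1 : IsUnit (algebraMap B (Subring.closure ((B : Set F) ∪ {s⁻¹})) ⟨s, hs⟩) := by
      refine IsUnit.of_mul_eq_one (⟨s⁻¹, hinv⟩ : Subring.closure ((B : Set F) ∪ {s⁻¹})) ?_
      apply Subtype.ext
      change s * s⁻¹ = 1
      exact mul_inv_cancel₀ hs0
    change IsUnit (algebraMap B (Subring.closure ((B : Set F) ∪ {s⁻¹})) (⟨s, hs⟩ ^ n))
    rw [map_pow]
    exact h1.pow n
  · rintro ⟨x, hx⟩
    obtain ⟨n, hn⟩ := xt11_surj B hs hs0 hx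
    refine ⟨(⟨x * s ^ n, hn⟩, ⟨⟨s, hs⟩ ^ n, n, rfl⟩), ?_⟩
    apply Subtype.ext
    rfl
  · intro a b hab
    refine ⟨1, ?_⟩
    have h : (a : F) = b := by
      rw [← hval a, ← hval b, hab]
    rw [Subtype.ext h]

/-- The localizations of `B[s⁻¹]`. -/
lemma xt11_regR {B : Subring F} {s : F} (hs : s ∈ B) (hs0 : s ≠ 0)
    (h : ∀ (P : Ideal B) [P.IsPrime], (⟨s, hs⟩ : B) ∉ P →
      IsRegularLocalRing (Localization.AtPrime P)) :
    RegR (Subring.closure ((B : Set F) ∪ {s⁻¹})) := by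
  intro Q hQ
  have hinv : s⁻¹ ∈ Subring.closure ((B : Set F) ∪ {s⁻¹}) := Subring.subset_closure (Or.inr rfl)
  let := (Subring.inclusion (xt11_le B s)).toAlgebra
  have hloc := xt11_away B hs hs0
  have hsQ : (⟨s, hs⟩ : B) ∉ Q.comap (algebraMap B (Subring.closure ((B : Set F) ∪ {s⁻¹}))) := by
    intro h1
    apply hQ.ne_top
    rw [Ideal.eq_top_iff_one]
    have h2 := Q.mul_mem_right (⟨s⁻¹, hinv⟩ : Subring.closure ((B : Set F) ∪ {s⁻¹})) h1
    have h3 : algebraMap B (Subring.closure ((B : Set F) ∪ {s⁻¹})) ⟨s, hs⟩ *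
        (⟨s⁻¹, hinv⟩ : Subring.closure ((B : Set F) ∪ {s⁻¹})) = 1 := by
      apply Subtype.ext
      change s * s⁻¹ = 1
      exact mul_inv_cancel₀ hs0
    rw [h3] at h2
    exact h2
  have h1 : IsLocalization.AtPrime (Localization.AtPrime Q)
      (Q.comap (algebraMap B (Subring.closure ((B : Set F) ∪ {s⁻¹})))) :=
    IsLocalization.isLocalization_isLocalization_atPrime_isLocalization
      (Submonoid.powers (⟨s, hs⟩ : B)) (Localization.AtPrime Q) Q
  have h2 := h (Q.comap (algebraMap B (Subring.closure ((B : Set F) ∪ {s⁻¹})))) hsQ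
  exact IsRegularLocalRing.of_ringEquiv (IsLocalization.algEquiv
    (Q.comap (algebraMap B (Subring.closure ((B : Set F) ∪ {s⁻¹})))).primeCompl
    (Localization.AtPrime (Q.comap (algebraMap B (Subring.closure ((B : Set F) ∪ {s⁻¹})))))
    (Localization.AtPrime Q)).toRingEquiv

end

/-- The localization of a chart at a point with regular stalk. -/
lemma xt11_reg_at {X : Scheme.{0}} {B : Type} [CommRing B] (j : Spec (CommRingCat.of B) ⟶ X)
    [IsOpenImmersion j] (x : PrimeSpectrum B) (hx : IsRegularLocalRing (X.presheaf.stalk (j x))) :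
    IsRegularLocalRing (Localization.AtPrime x.asIdeal) := by
  let R : CommRingCat.{0} := CommRingCat.of B
  let x' : PrimeSpectrum R := x
  let k : Algebra R ((Spec R).presheaf.stalk x') := StructureSheaf.stalkAlgebra R x'
  have h1 : IsLocalization.AtPrime ((Spec R).presheaf.stalk x') x'.asIdeal :=
    StructureSheaf.IsLocalization.to_stalk R x'
  have e := (asIso (j.stalkMap x')).commRingCatIsoToRingEquiv
  have h3 : IsRegularLocalRing ((Spec R).presheaf.stalk x') := IsRegularLocalRing.of_ringEquiv e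
  exact IsRegularLocalRing.of_ringEquiv
    (IsLocalization.algEquiv x'.asIdeal.primeCompl (Localization.AtPrime x'.asIdeal)
      ((Spec R).presheaf.stalk x')).symm.toRingEquiv

variable {O F : Type} [CommRing O] [Field F] [Algebra O F]

lemma xt11_sep (M : Submodule O F) : IsSeparated (modelMap M) := by
  have h1 : IsSeparated (Proj.toSpecZero (mPiece M)) := Proj.isSeparated (mPiece M)
  unfold modelMap
  exact MorphismProperty.comp_mem @IsSeparated _ _ h1 inferInstance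

/-- Morphisms to the model are determined by the generic point. -/
lemma xt11_unique {M : Submodule O F} (B : Subring F) (a b : Spec (CommRingCat.of B) ⟶ model M)
    (h : io B ≫ a = io B ≫ b) : a = b := by
  have hd : IsDominant (io B) := ⟨io_dense B⟩
  have hs := xt11_sep M
  refine ext_of_isDominant_of_isSeparated (modelMap M) ?_ (io B) h
  apply io_mono
  have h2 := congrArg (fun m => m ≫ modelMap M) h
  simp only [Category.assoc] at h2 ⊢
  exact h2

lemma xt11_Mo_succ (M₀ : Submodule O F) (K : ℕ → Submodule O F) (d : ℕ) :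
    Mo M₀ K (d + 1) = Mo M₀ K d * K d := by
  unfold Pool.Agent.H413.BR.Mo
  rw [Finset.prod_range_succ, mul_assoc]

lemma xt11_Mo_zero (M₀ : Submodule O F) (K : ℕ → Submodule O F) : Mo M₀ K 0 = M₀ := by
  unfold Pool.Agent.H413.BR.Mo
  rw [Finset.range_zero, Finset.prod_empty, mul_one]

lemma xt11_chart_le {M K : Submodule O F} {g l : F} (hl : l ∈ K) (hl0 : l ≠ 0) :
    chart O M g ≤ chart O (M * K) (g * l) := by
  refine Algebra.adjoin_le ?_
  rintro _ ⟨m, hm, rfl⟩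
  refine Algebra.subset_adjoin ⟨m * l, Submodule.mul_mem_mul hm hl, ?_⟩
  rw [mul_div_mul_right _ _ hl0]

/-- XT11. -/
theorem h413_tower_charts [IsNoetherianRing O] [IsDomain O] (hHJ : HJ O) (hSR : SR O F)
    {M₀ : Submodule O F} (hM₀ : M₀.FG) (hne : ∃ g ∈ M₀, g ≠ 0) {K : ℕ → Submodule O F}
    (hK : ∀ d, (K d).FG ∧ ∃ j ∈ K d, j ≠ 0)
    (hiso : ∀ (d : ℕ), ∀ g ∈ Mo M₀ K d, g ≠ 0 → ∀ (P : Ideal (chart O (Mo M₀ K d) g)) [P.IsPrime],
      IsRegularLocalRing (Localization.AtPrime P) → PrincipalAt (Mo M₀ K d) (K d) g P)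
    (g : ℕ → F) (hg : ∀ d, g d ∈ Mo M₀ K d) (hg0 : ∀ d, g d ≠ 0) (d : ℕ)
    (z : model (Mo M₀ K d)) (hz : RegAt _ z) :
    ∃ A : Subring F, RegR A ∧
      AffAt (Pool.Agent.W398.GF.eta (Mo M₀ K d) (g d) (hg d) (hg0 d)) A z ∧
      Aff (Pool.Agent.W398.GF.eta (Mo M₀ K (d + 1)) (g (d + 1)) (hg (d + 1)) (hg0 (d + 1))) A ∧
      Mp (Pool.Agent.W398.GF.eta (Mo M₀ K 0) (g 0) (hg 0) (hg0 0)) A := by
  classical
  obtain ⟨hJ, hJne⟩ := br55_prod hK d
  have hMFG : (Mo M₀ K d).FG := hM₀.mul hJ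
  have hcc : ∃ g₀ ∈ M₀, g₀ ≠ 0 ∧ ∃ j₀ ∈ ∏ i ∈ Finset.range d, K i, j₀ ≠ 0 ∧
      ∃ hγ : g₀ * j₀ ∈ Mo M₀ K d, ∃ hγ0 : g₀ * j₀ ≠ 0,
      AffAt (Pool.Agent.W398.GF.eta (Mo M₀ K d) (g₀ * j₀) hγ hγ0)
        (chart O (Mo M₀ K d) (g₀ * j₀)).toSubring z :=
    h413_charts_cover hM₀ hJ hne hJne z
  obtain ⟨g₀, hg₀, hg₀0, j₀, hj₀, hj₀0, hγ, hγ0, jB, hjB, hjBη, x, hx⟩ := hcc
  -- the prime of the chart
  let P : Ideal (chart O (Mo M₀ K d) (g₀ * j₀)) := x.asIdeal
  have hPp : P.IsPrime := x.isPrime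
  have hPreg : IsRegularLocalRing (Localization.AtPrime P) := by
    apply xt11_reg_at jB x
    rw [hx]
    exact hz
  obtain ⟨l, hl, hl0, hprin⟩ := hiso d (g₀ * j₀) hγ hγ0 P hPreg
  choose! a s hsP hxs using hprin
  obtain ⟨T, hT⟩ := (hK d).1
  have hTK : ∀ y ∈ T, y ∈ K d := fun y hy => by
    rw [← hT]
    exact Submodule.subset_span hy
  obtain ⟨s₁, hs₁⟩ : ∃ s₁, s₁ = ∏ y ∈ T, s y := ⟨_, rfl⟩
  have hs₁P : s₁ ∉ P := by
    rw [hs₁, hPp.prod_mem_iff]
    rintro ⟨y, hy, hyP⟩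
    exact hsP y (hTK y hy) hyP
  have hdiv : ∀ y ∈ K d, ∃ b ∈ chart O (Mo M₀ K d) (g₀ * j₀), y * (s₁ : F) = l * b := by
    intro y hy
    rw [← hT] at hy
    induction hy using Submodule.span_induction with
    | mem y hy =>
      refine ⟨(a y * ∏ y' ∈ T.erase y, s y' : chart O (Mo M₀ K d) (g₀ * j₀)), SetLike.coe_mem _, ?_⟩
      rw [hs₁, ← Finset.mul_prod_erase T s hy]
      push_cast
      rw [← mul_assoc, hxs y (hTK y hy), mul_assoc]
    | zero => exact ⟨0, zero_mem _, by rw [zero_mul, mul_zero]⟩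
    | add y y' _ _ h h' =>
      obtain ⟨b, hb, hyb⟩ := h
      obtain ⟨b', hb', hyb'⟩ := h'
      exact ⟨b + b', add_mem hb hb', by rw [add_mul, hyb, hyb', mul_add]⟩
    | smul r y _ h =>
      obtain ⟨b, hb, hyb⟩ := h
      refine ⟨r • b, Subalgebra.smul_mem _ hb r, ?_⟩
      rw [smul_mul_assoc, hyb, mul_smul_comm]
  obtain ⟨s₂, hs₂P, hs₂⟩ := h413_reg_open hHJ hSR hMFG hγ hγ0 P hPreg
  obtain ⟨sc, hsc⟩ : ∃ sc, sc = s₁ * s₂ := ⟨_, rfl⟩
  have hscP : sc ∉ P := by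
    rw [hsc]
    exact fun h => (hPp.mem_or_mem h).elim hs₁P hs₂P
  have hsc0 : (sc : F) ≠ 0 := by
    intro h
    apply hscP
    have : sc = 0 := Subtype.ext h
    rw [this]
    exact zero_mem _
  have hs₁0 : (s₁ : F) ≠ 0 := by
    intro h
    apply hs₁P
    have : s₁ = 0 := Subtype.ext h
    rw [this]
    exact zero_mem _
  have hs₂0 : (s₂ : F) ≠ 0 := by
    intro h
    apply hs₂P
    have : s₂ = 0 := Subtype.ext h
    rw [this]
    exact zero_mem _
  have hscv : (sc : F) = s₁ * s₂ := by rw [hsc]; rfl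
  obtain ⟨A, hA⟩ : ∃ A, A = Subring.closure
    (((chart O (Mo M₀ K d) (g₀ * j₀)).toSubring : Set F) ∪ {(sc : F)⁻¹}) := ⟨_, rfl⟩
  have hBA : (chart O (Mo M₀ K d) (g₀ * j₀)).toSubring ≤ A := by
    rw [hA]
    exact xt11_le _ _
  have hinvA : (sc : F)⁻¹ ∈ A := by
    rw [hA]
    exact Subring.subset_closure (Or.inr rfl)
  have hdivA : ∀ y ∈ K d, y / l ∈ A := by
    intro y hy
    obtain ⟨b, hb, hyb⟩ := hdiv y hy
    have h1 : y / l = b * s₂ * (sc : F)⁻¹ := by
      rw [hscv, div_eq_iff hl0]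
      have h2 : y = l * b / s₁ := by rw [← hyb, mul_div_cancel_right₀ _ hs₁0]
      rw [h2]
      field_simp
    rw [h1]
    exact A.mul_mem (A.mul_mem (hBA hb) (hBA s₂.2)) hinvA
  -- the next chart
  have hle1 : chart O (Mo M₀ K d) (g₀ * j₀) ≤ chart O (Mo M₀ K (d + 1)) (g₀ * j₀ * l) := by
    rw [xt11_Mo_succ]
    exact xt11_chart_le hl hl0
  have hle2 : (chart O (Mo M₀ K (d + 1)) (g₀ * j₀ * l)).toSubring ≤ A := by
    let A' : Subalgebra O F := { A with
      algebraMap_mem' := fun o => hBA ((chart O (Mo M₀ K d) (g₀ * j₀)).algebraMap_mem o) }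
    have h1 : chart O (Mo M₀ K (d + 1)) (g₀ * j₀ * l) ≤ A' := by
      refine Algebra.adjoin_le ?_
      rintro _ ⟨m, hm, rfl⟩
      rw [xt11_Mo_succ] at hm
      change m / (g₀ * j₀ * l) ∈ A
      induction hm using Submodule.mul_induction_on' with
      | mem_mul_mem m hm y hy =>
        have h2 : m * y / (g₀ * j₀ * l) = m / (g₀ * j₀) * (y / l) := by
          rw [mul_div_mul_comm]
        rw [h2]
        exact A.mul_mem (hBA (Algebra.subset_adjoin ⟨m, hm, rfl⟩)) (hdivA y hy)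
      | add m _ m' _ h h' =>
        rw [add_div]
        exact A.add_mem h h'
    exact h1
  have hAeq : A = Subring.closure
      (((chart O (Mo M₀ K (d + 1)) (g₀ * j₀ * l)).toSubring : Set F) ∪ {(sc : F)⁻¹}) := by
    apply le_antisymm
    · rw [hA]
      refine Subring.closure_mono (Set.union_subset_union_left _ ?_)
      exact hle1
    · rw [Subring.closure_le]
      rintro y (hy | hy)
      · exact hle2 hy
      · rw [Set.mem_singleton_iff] at hy
        rw [hy]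
        exact hinvA
  refine ⟨A, ?_, ?_, ?_, ?_⟩
  · rw [hA]
    refine xt11_regR (B := (chart O (Mo M₀ K d) (g₀ * j₀)).toSubring) sc.2 hsc0 ?_
    intro P' hP' hscP'
    let P'' : Ideal (chart O (Mo M₀ K d) (g₀ * j₀)) := P'
    have hP'' : P''.IsPrime := hP'
    refine hs₂ P'' fun h => hscP' ?_
    change sc ∈ P''
    rw [hsc]
    exact Ideal.mul_mem_left _ _ h
  · obtain ⟨jY, jA, hjY, hjYη, hjA, hjAη, hran⟩ := h413_basic_open (hg d) (hg0 d) hγ hγ0 sc.2 hsc0
    rw [hA]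
    refine ⟨jA, hjA, hjAη, ?_⟩
    have h1 : jY = jB := by
      apply xt11_unique
      rw [hjYη, hjBη]
      exact Pool.Agent.W398.GF.eta_eq _ _ _ _ _
    have h2 := hran x hscP
    rw [h1, hx] at h2
    exact h2
  · have hlγ : g₀ * j₀ * l ∈ Mo M₀ K (d + 1) := by
      rw [xt11_Mo_succ]
      exact Submodule.mul_mem_mul hγ hl
    obtain ⟨jY, jA, hjY, hjYη, hjA, hjAη, hran⟩ := h413_basic_open (hg (d + 1)) (hg0 (d + 1)) hlγ
      (mul_ne_zero hγ0 hl0) (hle1 sc.2) hsc0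
    rw [hAeq]
    exact ⟨jA, hjA, hjAη⟩
  · have hg₀' : g₀ ∈ Mo M₀ K 0 := by
      rw [xt11_Mo_zero]
      exact hg₀
    obtain ⟨j, hj, -, hη⟩ := Pool.Agent.W398.GF.isChart (Mo M₀ K 0) g₀ hg₀' hg₀0
    have hle0 : (chart O (Mo M₀ K 0) g₀).toSubring ≤ A := by
      refine le_trans ?_ hBA
      rw [xt11_Mo_zero]
      exact xt11_chart_le hj₀ hj₀0
    refine ⟨Spec.map (CommRingCat.ofHom (Subring.inclusion hle0)) ≫ j, ?_⟩
    rw [Pool.Agent.W398.GF.eta_eq (Mo M₀ K 0) (hg 0) hg₀' (hg0 0) hg₀0, ← hη, ← Category.assoc]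
    congr 1
    change Spec.map _ ≫ Spec.map _ = Spec.map _
    rw [← Spec.map_comp]
    rfl

end xt11

end Pool.Agent.H413.XT
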