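import Pool.Agent.H413.XT.X10

/-!
# XT13: the morphism from the blowing up (helper748, for helper413)
-/

set_option autoImplicit false
set_option linter.unusedVariables false
set_option linter.unusedSectionVars false

open AlgebraicGeometry CategoryTheory Limits

namespace Pool.Agent.H413.XT

open Pool.Agent.TH188.ARC Pool.Agent.H918R2.Quad Pool.Agent.H968R2.Quad Pool.Agent.W559.GF
  Pool.Agent.W930.GF Pool.Agent.W191.GF

section mod

variable {O F : Type} [CommRing O] [Field F] [Algebra O F]

theorem xt13_chart_le {M J : Submodule O F} {g j : F} (hj : j ∈ J) (hj0 : j ≠ 0) :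
    (chart O M g).toSubring ≤ (chart O (M * J) (g * j)).toSubring := by
  have h : chart O M g ≤ chart O (M * J) (g * j) := by
    apply Algebra.adjoin_le
    rintro y ⟨m, hm, rfl⟩
    have e : m / g = (m * j) / (g * j) := (mul_div_mul_right m g hj0).symm
    rw [e]
    exact Algebra.subset_adjoin ⟨m * j, Submodule.mul_mem_mul hm hj, rfl⟩
  exact fun x hx => h hx

theorem xt13_io {A B : Subring F} (h : A ≤ B) :
    io B ≫ Spec.map (CommRingCat.ofHom (Subring.inclusion h)) = io A := by
  unfold io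
  rw [← Spec.map_comp]
  rfl

theorem h413_blow_down (hinj : Function.Injective (algebraMap O F)) {M J : Submodule O F} (hM : M.FG)
    (hJ : J.FG) (hJne : ∃ j ∈ J, j ≠ 0) {g g' : F} (hg : g ∈ M) (hg0 : g ≠ 0) (hg' : g' ∈ M * J)
    (hg'0 : g' ≠ 0) :
    ∃ b : model (M * J) ⟶ model M, b ≫ modelMap M = modelMap (M * J) ∧
      Pool.Agent.W398.GF.eta (M * J) g' hg' hg'0 ≫ b = Pool.Agent.W398.GF.eta M g hg hg0 ∧
      IsProper b := by
  have hc := fun z => h413_charts_cover hM hJ ⟨g, hg, hg0⟩ hJne z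
  choose gz hgz hgz0 jz hjz hjz0 hgj hgj0 haff using hc
  have haff' : ∀ z : model (M * J), ∃ j : Spec (CommRingCat.of (chart O (M * J) (gz z * jz z)).toSubring) ⟶
      model (M * J), IsOpenImmersion j ∧
      io _ ≫ j = Pool.Agent.W398.GF.eta (M * J) (gz z * jz z) (hgj z) (hgj0 z) ∧ z ∈ Set.range j := haff
  choose j hj hjη hjz' using haff'
  have hchart : ∀ z : model (M * J), ∃ i : Spec (CommRingCat.of (chart O M (gz z)).toSubring) ⟶ model M,
      io _ ≫ i = Pool.Agent.W398.GF.eta M (gz z) (hgz z) (hgz0 z) := by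
    intro z
    obtain ⟨i, -, -, hη⟩ := Pool.Agent.W398.GF.isChart M (gz z) (hgz z) (hgz0 z)
    exact ⟨i, hη⟩
  choose i hi using hchart
  let j' : ∀ z : model (M * J), Spec (CommRingCat.of (chart O (M * J) (gz z * jz z)).toSubring) ⟶ model M :=
    fun z => Spec.map (CommRingCat.ofHom (Subring.inclusion (xt13_chart_le (hjz z) (hjz0 z)))) ≫ i z
  have hjη' : ∀ z, io (chart O (M * J) (gz z * jz z)).toSubring ≫ j z =
      Pool.Agent.W398.GF.eta (M * J) g' hg' hg'0 := by
    intro z
    rw [hjη z]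
    exact Pool.Agent.W398.GF.eta_eq (M * J) (hgj z) hg' (hgj0 z) hg'0
  have hj'η : ∀ z, io (chart O (M * J) (gz z * jz z)).toSubring ≫ j' z =
      Pool.Agent.W398.GF.eta M g hg hg0 := by
    intro z
    have h1 : io (chart O (M * J) (gz z * jz z)).toSubring ≫ j' z = io (chart O M (gz z)).toSubring ≫ i z := by
      rw [← xt13_io (xt13_chart_le (M := M) (g := gz z) (hjz z) (hjz0 z)), Category.assoc]
    rw [h1, hi z]
    exact Pool.Agent.W398.GF.eta_eq M (hgz z) hg (hgz0 z) hg0
  have hpM : IsProper (modelMap M) := modelMap_isProper M hinj hM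
  have hsep : IsSeparated (modelMap M) := inferInstance
  have hjj : ∀ z, j z ≫ modelMap (M * J) = j' z ≫ modelMap M := by
    intro z
    apply io_mono
    rw [← Category.assoc, ← Category.assoc, hjη' z, hj'η z, Pool.Agent.W398.GF.eta_modelMap,
      Pool.Agent.W398.GF.eta_modelMap]
  have hcov : ∀ z : model (M * J), ∃ t y, j t y = z := fun z => ⟨z, hjz' z⟩
  obtain ⟨b, hb⟩ := glue (modelMap (M * J)) (modelMap M)
    (fun z : model (M * J) => (chart O (M * J) (gz z * jz z)).toSubring)
    (Pool.Agent.W398.GF.eta (M * J) g' hg' hg'0) (Pool.Agent.W398.GF.eta M g hg hg0) j hj hcov hjη'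
    j' hj'η hjj
  have hbf : b ≫ modelMap M = modelMap (M * J) := by
    let 𝒰 : Scheme.OpenCover.{0} (model (M * J)) := Scheme.Cover.mkOfCovers (model (M * J))
      (fun z => Spec (CommRingCat.of (chart O (M * J) (gz z * jz z)).toSubring)) j hcov hj
    have h1 : ∀ t : model (M * J), j t ≫ b ≫ modelMap M = j t ≫ modelMap (M * J) := by
      intro t
      rw [← Category.assoc, hb, hjj]
    exact Scheme.Cover.hom_ext 𝒰 _ _ fun t => h1 t
  refine ⟨b, hbf, ?_, ?_⟩
  · let z₀ : model (M * J) := Pool.Agent.W398.GF.eta (M * J) g' hg' hg'0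
      (IsLocalRing.closedPoint F : PrimeSpectrum F)
    rw [← hjη' z₀, Category.assoc, hb, hj'η]
  · have h1 : IsProper (modelMap (M * J)) := modelMap_isProper (M * J) hinj (hM.mul hJ)
    have h2 : IsProper (b ≫ modelMap M) := by rw [hbf]; exact h1
    exact IsProper.of_comp b (modelMap M)

end mod

end Pool.Agent.H413.XT
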