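import Pool.Agent.H413.XT.QZ
import Pool.Agent.H413.XT.X11
import Pool.Agent.H413.XT.X13

set_option autoImplicit false
set_option maxHeartbeats 4000000

open AlgebraicGeometry CategoryTheory Limits

namespace Pool.Agent.H413.XT

open Pool.Agent.TH188.ARC Pool.Agent.H918R2.Quad Pool.Agent.H968R2.Quad Pool.Agent.W559.GF
  Pool.Agent.W930.GF Pool.Agent.W191.GF

namespace NR2

theorem QZ_pre : IsPreimmersion QZ := IsPreimmersion.of_isLocalization (nonZeroDivisors ℤ)

theorem QZ_flat : Flat QZ := by
  unfold QZ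
  rw [Flat.SpecMap_iff]
  show (algebraMap ℤ ℚ).Flat
  rw [RingHom.flat_algebraMap_iff]
  exact IsLocalization.flat ℚ (nonZeroDivisors ℤ)

theorem stalk_bij {X Y : Scheme.{0}} (m : X ⟶ Y) [Flat m] [IsPreimmersion m] (x : X) :
    Function.Bijective (m.stalkMap x).hom := by
  refine ⟨?_, m.stalkMap_surjective x⟩
  algebraize [(m.stalkMap x).hom]
  have : Module.FaithfullyFlat (Y.presheaf.stalk (m x)) (X.presheaf.stalk x) :=
    @Module.FaithfullyFlat.of_flat_of_isLocalHom _ _ _ _ _ _ _
      (Flat.stalkMap m x) (m.toLRSHom.prop x)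
  exact ‹RingHom.FaithfullyFlat _›.injective

theorem reg_iff {X Y : Scheme.{0}} (m : X ⟶ Y) [Flat m] [IsPreimmersion m] (x : X) :
    IsRegularLocalRing (Y.presheaf.stalk (m x)) ↔ IsRegularLocalRing (X.presheaf.stalk x) := by
  let e := RingEquiv.ofBijective (m.stalkMap x).hom (stalk_bij m x)
  exact ⟨fun _ => IsRegularLocalRing.of_ringEquiv e, fun _ => IsRegularLocalRing.of_ringEquiv e.symm⟩

end NR2

open NR2 in
theorem h413_chart_regular {X : Scheme.{0}} (f : X ⟶ Spec (CommRingCat.of ℚ)) {F : Type} [Field F]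
    [CharZero F] {M : Submodule ℤ F} {g : F} (hg : g ∈ M) (hg0 : g ≠ 0) (m : X ⟶ model M)
    (hm : IsPullback m f (modelMap M) QZ)
    (hreg : ∀ x : X, IsRegularLocalRing (X.presheaf.stalk x)) (P : Ideal (chart ℤ M g)) [P.IsPrime]
    (hP : ∀ t : ℕ, t ≠ 0 → (t : chart ℤ M g) ∉ P) :
    IsRegularLocalRing (Localization.AtPrime P) := by
  have i1 : Flat m := MorphismProperty.of_isPullback hm.flip QZ_flat
  have i2 : IsPreimmersion m := MorphismProperty.of_isPullback hm.flip QZ_pre
  obtain ⟨j, hj, -, -⟩ := Pool.Agent.W398.GF.isChart M g hg hg0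
  let e : (chart ℤ M g).toSubring ≃+* chart ℤ M g :=
    { toFun := fun x => ⟨x.1, x.2⟩
      invFun := fun x => ⟨x.1, x.2⟩
      left_inv := fun _ => rfl
      right_inv := fun _ => rfl
      map_mul' := fun _ _ => rfl
      map_add' := fun _ _ => rfl }
  let φ : CommRingCat.of (chart ℤ M g).toSubring ⟶ CommRingCat.of (chart ℤ M g) :=
    CommRingCat.ofHom (e : (chart ℤ M g).toSubring →+* chart ℤ M g)
  have hφ : IsIso φ := by
    have : φ = e.toCommRingCatIso.hom := rfl
    rw [this]
    infer_instance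
  have h3 : IsIso (Spec.map φ) := inferInstance
  let j' : Spec (CommRingCat.of (chart ℤ M g)) ⟶ model M := Spec.map φ ≫ j
  have hj' : IsOpenImmersion j' := inferInstance
  -- nonzero integers are units
  have hun : ∀ t : nonZeroDivisors ℤ, IsUnit (Int.castRingHom (Localization.AtPrime P) t) := by
    intro t
    have ht : (t : ℤ) ≠ 0 := nonZeroDivisors.coe_ne_zero t
    have h1 : (((t : ℤ)) : chart ℤ M g) ∉ P := by
      intro h
      apply hP (t : ℤ).natAbs (Int.natAbs_ne_zero.2 ht)
      rcases Int.natAbs_eq (t : ℤ) with h2 | h2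
      · rw [h2] at h
        rw [← Int.cast_natCast]
        exact h
      · rw [h2] at h
        rw [Int.cast_neg] at h
        rw [← Int.cast_natCast]
        exact neg_mem_iff.1 h
    have h2 := IsLocalization.map_units (Localization.AtPrime P) (M := P.primeCompl)
      ⟨(((t : ℤ)) : chart ℤ M g), h1⟩
    have h3 : algebraMap (chart ℤ M g) (Localization.AtPrime P) (((t : ℤ)) : chart ℤ M g) =
        Int.castRingHom (Localization.AtPrime P) t := by
      rw [map_intCast]
      rfl
    rw [← h3]
    exact h2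
  let ψ : ℚ →+* Localization.AtPrime P := IsLocalization.lift (M := nonZeroDivisors ℤ) hun
  let h : Spec (CommRingCat.of (Localization.AtPrime P)) ⟶ X :=
    hm.lift (Spec.map (CommRingCat.ofHom (algebraMap (chart ℤ M g) (Localization.AtPrime P))) ≫ j')
      (Spec.map (CommRingCat.ofHom ψ)) (specZIsTerminal.hom_ext _ _)
  have hh : h ≫ m =
      Spec.map (CommRingCat.ofHom (algebraMap (chart ℤ M g) (Localization.AtPrime P))) ≫ j' :=
    hm.lift_fst _ _ _
  let cp : Spec (CommRingCat.of (Localization.AtPrime P)) :=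
    IsLocalRing.closedPoint (Localization.AtPrime P)
  let p : Spec (CommRingCat.of (chart ℤ M g)) := (⟨P, inferInstance⟩ : PrimeSpectrum (chart ℤ M g))
  have hp : Spec.map (CommRingCat.ofHom (algebraMap (chart ℤ M g) (Localization.AtPrime P))) cp = p := by
    apply PrimeSpectrum.ext
    exact IsLocalization.AtPrime.under_maximalIdeal (Localization.AtPrime P) P
  have hpt : m (h cp) = j' p := by
    have := congrArg (fun k : Spec (CommRingCat.of (Localization.AtPrime P)) ⟶ model M => k cp) hh
    simp only [Scheme.Hom.comp_apply] at this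
    rw [this]
    exact congrArg j' hp
  have r1 : IsRegularLocalRing ((model M).presheaf.stalk (m (h cp))) :=
    (reg_iff m (h cp)).2 (hreg _)
  rw [hpt] at r1
  have r2 : IsRegularLocalRing ((Spec (CommRingCat.of (chart ℤ M g))).presheaf.stalk p) :=
    (reg_iff j' p).1 r1
  exact @IsRegularLocalRing.of_ringEquiv _ _ r2 _ _
    (StructureSheaf.stalkIso (chart ℤ M g) (⟨P, inferInstance⟩ : PrimeSpectrum (chart ℤ M g))).toRingEquiv.symm

end Pool.Agent.H413.XT
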