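import Pool.Agent.H413.XT.QZ

set_option autoImplicit false

open AlgebraicGeometry CategoryTheory Limits

namespace Pool.Agent.H413.XT

theorem h413_generic_fibre {X Y Y' : Scheme.{0}} (g : Y ⟶ Spec (CommRingCat.of ℤ)) (m₀ : X ⟶ Y)
    (f : X ⟶ Spec (CommRingCat.of ℚ)) (h : IsPullback m₀ f g QZ) (π : Y' ⟶ Y) (U : Y.Opens)
    (hU : IsIso (π ∣_ U)) (hXU : ∀ x, m₀ x ∈ U) :
    ∃ m : X ⟶ Y', m ≫ π = m₀ ∧ IsPullback m f (π ≫ g) QZ := by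
  have hrange : Set.range m₀ ⊆ Set.range U.ι := by
    rw [Scheme.Opens.range_ι]
    rintro _ ⟨x, rfl⟩
    exact hXU x
  obtain ⟨m₁, hm₁⟩ : ∃ m₁ : X ⟶ U.toScheme, m₁ ≫ U.ι = m₀ :=
    ⟨IsOpenImmersion.lift U.ι m₀ hrange, IsOpenImmersion.lift_fac _ _ _⟩
  have h1 : IsPullback (m₁ ≫ inv (π ∣_ U)) (𝟙 X) (π ∣_ U) m₁ :=
    IsPullback.of_vert_isIso ⟨by simp⟩
  have h2 : IsPullback (m₁ ≫ inv (π ∣_ U) ≫ (π ⁻¹ᵁ U).ι) (𝟙 X) π m₀ := by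
    have := h1.paste_horiz (isPullback_morphismRestrict π U).flip
    rwa [hm₁, Category.assoc] at this
  refine ⟨m₁ ≫ inv (π ∣_ U) ≫ (π ⁻¹ᵁ U).ι, ?_, ?_⟩
  · have := h2.w
    rwa [Category.id_comp] at this
  · have := h2.paste_vert h
    rwa [Category.id_comp] at this

end Pool.Agent.H413.XT
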