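import Pool.Agent.H413.XT.X12
import Pool.Agent.H413.XT.X13
import Pool.Agent.H413.XT.X11

/-!
# XT19: the union of the regular loci of the sequence of models (helper350, for helper413)
-/

set_option autoImplicit false
set_option linter.unusedVariables false
set_option linter.unusedSectionVars false

open AlgebraicGeometry CategoryTheory Limits

namespace Pool.Agent.H413.XT

open Pool.Agent.TH188.ARC Pool.Agent.H918R2.Quad Pool.Agent.H968R2.Quad Pool.Agent.W559.GF
  Pool.Agent.W930.GF Pool.Agent.W191.GF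

section mod

open scoped Topology
open IsLocalRing Pool.Agent.TH188.QS Pool.Agent.W418.LU2 Pool.Agent.H413.BR

variable {O F : Type} [CommRing O] [Field F] [Algebra O F]

/-- The sequence of submodules, which is `M` by definition for `d = 0`. -/
def xt19_N (M : Submodule O F) (K : ℕ → Submodule O F) : ℕ → Submodule O F
  | 0 => M
  | (d + 1) => M * ∏ i ∈ Finset.range (d + 1), K i

theorem xt19_N_eq (M : Submodule O F) (K : ℕ → Submodule O F) : xt19_N M K = Mo M K := by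
  funext d
  cases d with
  | zero => exact (xt11_Mo_zero M K).symm
  | succ d => rfl

theorem h413_union_model [IsDomain O] [IsNoetherianRing O]
    (hinj : Function.Injective (algebraMap O F)) (hHJ : HJ O) (hSR : SR O F)
    {M : Submodule O F} (hM : M.FG) (g₀ : F) (hg₀ : g₀ ∈ M) (hg₀0 : g₀ ≠ 0)
    {K : ℕ → Submodule O F} (hK : ∀ d, (K d).FG ∧ ∃ j ∈ K d, j ≠ 0)
    (hiso : ∀ (d : ℕ), ∀ g ∈ Mo M K d, g ≠ 0 → ∀ (P : Ideal (chart O (Mo M K d) g)) [P.IsPrime],
      IsRegularLocalRing (Localization.AtPrime P) → PrincipalAt (Mo M K d) (K d) g P) :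
    ∃ (X' : Scheme.{0}) (π : X' ⟶ model M), IsIntegral X' ∧ (∀ x, RegAt X' x) ∧ IsSeparated π ∧
      LocallyOfFiniteType π ∧
      (∃ U : (model M).Opens, (∀ z, z ∈ U ↔ RegAt (model M) z) ∧ IsIso (π ∣_ U)) ∧
      ∃ V : ℕ → X'.Opens, Monotone V ∧ (∀ x, ∃ d, x ∈ V d) ∧
        (∀ d, ∃ (Y : Scheme.{0}) (b : Y ⟶ model M) (j : (V d).toScheme ⟶ Y), IsIntegral Y ∧
          IsProper b ∧ IsOpenImmersion j ∧ (∀ z, z ∈ Set.range j ↔ RegAt Y z) ∧
          j ≫ b = (V d).ι ≫ π) ∧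
        ∀ (d : ℕ) (R : Type) [CommRing R] [IsLocalRing R] (g : F) (hg : g ∈ M) (hg0 : g ≠ 0)
          (γ : (chart O M g).toSubring →+* R)
          (j₀ : Spec (CommRingCat.of (chart O M g).toSubring) ⟶ model M),
          io _ ≫ j₀ = Pool.Agent.W398.GF.eta M g₀ hg₀ hg₀0 →
          LiftsReg M (∏ i ∈ Finset.range d, K i) g R γ →
          ∃ ψ' : Spec (CommRingCat.of R) ⟶ X', ψ' ≫ π = Spec.map (CommRingCat.ofHom γ) ≫ j₀ ∧
            Set.range ψ' ⊆ (V d : Set X') := by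
  classical
  have hNe : ∀ d, xt19_N M K d = M * ∏ i ∈ Finset.range d, K i := fun d => by
    rw [xt19_N_eq]
    rfl
  have hgex : ∀ d, ∃ g ∈ xt19_N M K d, g ≠ 0 ∧ (d = 0 → g = g₀) := by
    intro d
    cases d with
    | zero => exact ⟨g₀, hg₀, hg₀0, fun _ => rfl⟩
    | succ d =>
      obtain ⟨-, j, hj, hj0⟩ := br55_prod hK (d + 1)
      exact ⟨g₀ * j, Submodule.mul_mem_mul hg₀ hj, mul_ne_zero hg₀0 hj0, fun h => absurd h (by simp)⟩
  choose g hg hg0 hgz using hgex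
  have hNFG : ∀ d, (xt19_N M K d).FG := fun d => by
    rw [hNe d]
    exact hM.mul (br55_prod hK d).1
  -- the morphisms
  have hbex : ∀ d, ∃ b : model (xt19_N M K d) ⟶ model (xt19_N M K 0),
      b ≫ modelMap (xt19_N M K 0) = modelMap (xt19_N M K d) ∧
      Pool.Agent.W398.GF.eta (xt19_N M K d) (g d) (hg d) (hg0 d) ≫ b =
        Pool.Agent.W398.GF.eta (xt19_N M K 0) (g 0) (hg 0) (hg0 0) ∧ IsProper b := by
    intro d
    have key : ∀ (N' : Submodule O F), N' = M * ∏ i ∈ Finset.range d, K i → ∀ (g' : F) (hg' : g' ∈ N')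
        (hg'0 : g' ≠ 0), ∃ b : model N' ⟶ model M, b ≫ modelMap M = modelMap N' ∧
        Pool.Agent.W398.GF.eta N' g' hg' hg'0 ≫ b = Pool.Agent.W398.GF.eta M (g 0) (hg 0) (hg0 0) ∧
          IsProper b := by
      rintro _ rfl g' hg' hg'0
      exact h413_blow_down hinj hM (br55_prod hK d).1 (br55_prod hK d).2 (hg 0) (hg0 0) hg' hg'0
    exact key _ (hNe d) (g d) (hg d) (hg0 d)
  choose b hbf hbη hbp using hbex
  have hcov : ∀ (N : ℕ → Submodule O F), N = Mo M K → ∀ (g : ℕ → F) (hg : ∀ d, g d ∈ N d)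
      (hg0 : ∀ d, g d ≠ 0) (d : ℕ) (z : model (N d)), RegAt _ z → ∃ A : Subring F, RegR A ∧
      AffAt (Pool.Agent.W398.GF.eta (N d) (g d) (hg d) (hg0 d)) A z ∧
      Aff (Pool.Agent.W398.GF.eta (N (d + 1)) (g (d + 1)) (hg (d + 1)) (hg0 (d + 1))) A ∧
      Mp (Pool.Agent.W398.GF.eta (N 0) (g 0) (hg 0) (hg0 0)) A := by
    rintro _ rfl g hg hg0 d z hz
    exact h413_tower_charts hHJ hSR hM ⟨g₀, hg₀, hg₀0⟩ hK hiso g hg hg0 d z hz
  have hprop : ∀ d, IsProper (modelMap (xt19_N M K d)) := fun d => modelMap_isProper _ hinj (hNFG d)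
  obtain ⟨X', π, h1, h2, h3, h4, h5, V, h6, h7, h8, h9⟩ := h413_tower2 (R := O) (F := F)
    (fun d => model (xt19_N M K d)) (fun d => modelMap (xt19_N M K d))
    (fun d => model_integral _ (g d) (hg d) (hg0 d)) (fun d => inferInstance)
    (fun d => inferInstance)
    (fun d => Pool.Agent.W398.GF.eta (xt19_N M K d) (g d) (hg d) (hg0 d))
    (fun d => by rw [Pool.Agent.W398.GF.eta_modelMap, Pool.Agent.W398.GF.eta_modelMap])
    b hbη hbf (fun d z hz => hcov _ (xt19_N_eq M K) g hg hg0 d z hz)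
  refine ⟨X', π, h1, h2, h3, h4, h5, V, h6, h7, ?_, ?_⟩
  · intro d
    obtain ⟨j, hj, hr, hc⟩ := h8 d
    exact ⟨model (xt19_N M K d), b d, j, model_integral _ (g d) (hg d) (hg0 d), hbp d, hj, hr, hc⟩
  · intro d R _ _ a ha ha0 γ j₀ hj₀ hL
    obtain ⟨y, hy, hy0, γ', hγ', hreg⟩ := hL
    -- the chart of the model number d
    have key : ∀ (N' : Submodule O F), N' = M * ∏ i ∈ Finset.range d, K i → ∀ (g' : F) (hg' : g' ∈ N')
        (hg'0 : g' ≠ 0), ∃ j : Spec (CommRingCat.of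
          (chart O (M * ∏ i ∈ Finset.range d, K i) (a * y)).toSubring) ⟶ model N',
          IsOpenImmersion j ∧ io _ ≫ j = Pool.Agent.W398.GF.eta N' g' hg' hg'0 := by
      rintro _ rfl g' hg' hg'0
      have hay : a * y ∈ M * ∏ i ∈ Finset.range d, K i := Submodule.mul_mem_mul ha hy
      have hay0 : a * y ≠ 0 := mul_ne_zero ha0 hy0
      obtain ⟨i, hi, hr, hη⟩ := Pool.Agent.W398.GF.isChart (M * ∏ i ∈ Finset.range d, K i) (a * y) hay
        hay0
      refine ⟨i, hi, ?_⟩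
      rw [hη]
      exact Pool.Agent.W398.GF.eta_eq _ _ _ _ _
    obtain ⟨j, hj, hjη⟩ := key _ (hNe d) (g d) (hg d) (hg0 d)
    have hle : (chart O M a).toSubring ≤
        (chart O (M * ∏ i ∈ Finset.range d, K i) (a * y)).toSubring := xt13_chart_le hy hy0
    have hg00 : Pool.Agent.W398.GF.eta (xt19_N M K 0) (g 0) (hg 0) (hg0 0) =
        Pool.Agent.W398.GF.eta M g₀ hg₀ hg₀0 := Pool.Agent.W398.GF.eta_eq M (hg 0) hg₀ (hg0 0) hg₀0
    have hj₀' : io (chart O (M * ∏ i ∈ Finset.range d, K i) (a * y)).toSubring ≫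
        Spec.map (CommRingCat.ofHom (Subring.inclusion hle)) ≫ j₀ =
        Pool.Agent.W398.GF.eta (xt19_N M K 0) (g 0) (hg 0) (hg0 0) := by
      rw [← Category.assoc, xt13_io hle, hj₀, hg00]
    obtain ⟨χ', hχ, hχr⟩ := h9 d _ j hj hjη _ hj₀' R γ' hreg
    have e : γ'.comp (Subring.inclusion hle) = γ := by
      ext x
      exact hγ' x.1 x.2 (hle x.2)
    have e1 : Spec.map (CommRingCat.ofHom γ') ≫
        Spec.map (CommRingCat.ofHom (Subring.inclusion hle)) = Spec.map (CommRingCat.ofHom γ) := by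
      rw [← Spec.map_comp, ← e]
      rfl
    have e2 : Spec.map (CommRingCat.ofHom γ') ≫
        Spec.map (CommRingCat.ofHom (Subring.inclusion hle)) ≫ j₀ =
        Spec.map (CommRingCat.ofHom γ) ≫ j₀ := by
      rw [← Category.assoc, e1]
    exact ⟨χ', hχ.trans e2, hχr⟩

end mod

end Pool.Agent.H413.XT

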