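import Pool.Agent.H413.XT.X18
import Pool.Agent.H413.XT.X19
import Pool.Agent.H413.BR.B56

/-!
# NR4: the union for models over the integers
-/

set_option autoImplicit false
set_option linter.unusedVariables false
set_option linter.unusedSectionVars false

open AlgebraicGeometry CategoryTheory Limits

namespace Pool.Agent.H413.XT

open Pool.Agent.TH188.ARC Pool.Agent.H918R2.Quad Pool.Agent.H968R2.Quad Pool.Agent.W559.GF
  Pool.Agent.W930.GF Pool.Agent.W191.GF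

section mod

open scoped Topology
open IsLocalRing Pool.Agent.TH188.QS Pool.Agent.W418.LU2 Pool.Agent.H413.BR

/-- NR4. The union for models over `ℤ` with regular generic fibre. Proof: `seq_int` (BR/B56.lean),
`union_model` (XT19 of Stm2; `HJ ℤ`, `SR ℤ F` as in `seq_int`), `trait_chart` (X18) for the last clause. -/
theorem h413_neron_union {F : Type} [Field F] [CharZero F] {M : Submodule ℤ F} (hM : M.FG) {g₀ : F}
    (hg₀ : g₀ ∈ M) (hg₀0 : g₀ ≠ 0)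
    (hreg : ∀ g ∈ M, g ≠ 0 → ∀ (P : Ideal (chart ℤ M g)) [P.IsPrime],
      (∀ t : ℕ, t ≠ 0 → (t : chart ℤ M g) ∉ P) → IsRegularLocalRing (Localization.AtPrime P)) :
    ∃ (X' : Scheme.{0}) (π : X' ⟶ model M), IsIntegral X' ∧ (∀ x, RegAt X' x) ∧ IsSeparated π ∧
      LocallyOfFiniteType π ∧
      (∃ U : (model M).Opens, (∀ z, z ∈ U ↔ RegAt (model M) z) ∧ IsIso (π ∣_ U)) ∧
      ∃ V : ℕ → X'.Opens, Monotone V ∧ (∀ x, ∃ d, x ∈ V d) ∧
        (∀ d, ∃ (Y : Scheme.{0}) (b : Y ⟶ model M) (j : (V d).toScheme ⟶ Y), IsIntegral Y ∧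
          IsProper b ∧ IsOpenImmersion j ∧ (∀ z, z ∈ Set.range j ↔ RegAt Y z) ∧
          j ≫ b = (V d).ι ≫ π) ∧
        ∀ (d : ℕ) (R : Type) [CommRing R] [IsDomain R] [IsDiscreteValuationRing R]
          (ψ : Spec (CommRingCat.of R) ⟶ model M),
          (∀ p : ℕ, p.Prime → (p : R) ∉ maximalIdeal R ^ (d + 1)) →
          ∃ ψ' : Spec (CommRingCat.of R) ⟶ X', ψ' ≫ π = ψ ∧ Set.range ψ' ⊆ (V d : Set X') := by
  have hHJ : HJ ℤ := hj_dedekind
  have hinj : Function.Injective (algebraMap ℤ F) := (algebraMap ℤ F).injective_int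
  obtain ⟨K, hK1, hK2, hK3⟩ := seq_int M hM ⟨g₀, hg₀, hg₀0⟩ hreg
  obtain ⟨X', π, h1, h2, h3, h4, h5, V, hV, hcov, hY, hl⟩ :=
    h413_union_model (O := ℤ) (F := F) hinj hHJ (sr_hj hHJ) hM g₀ hg₀ hg₀0 hK1 hK2
  refine ⟨X', π, h1, h2, h3, h4, h5, V, hV, hcov, hY, ?_⟩
  intro d R _ _ _ ψ hp
  obtain ⟨G, hG⟩ := hM
  obtain ⟨g, hgG, hg0, j, γ, hj, hjη, hjψ⟩ := h413_trait_chart hG hg₀ hg₀0 ψ
  have hgM : g ∈ M := by
    rw [← hG]
    exact Submodule.subset_span hgG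
  obtain ⟨ψ', h6, h7⟩ := hl d R g hgM hg0 γ j hjη (hK3 d g hgM hg0 R γ hp)
  exact ⟨ψ', h6.trans hjψ, h7⟩

end mod

end Pool.Agent.H413.XT
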