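import Mathlib

/-!
# XT3: a separated morphism with a section over an open subset
-/

set_option autoImplicit false
set_option linter.unusedVariables false
set_option linter.unusedSectionVars false

open AlgebraicGeometry CategoryTheory Limits

namespace Pool.Agent.H413.XT

theorem h413_iso_over {X Y : Scheme.{0}} [IsIntegral Y] (π : Y ⟶ X) (hπ : IsSeparated π)
    (U : X.Opens) (hU : (U : Set X).Nonempty) (σ : U.toScheme ⟶ Y) (hσ : IsOpenImmersion σ)
    (h : σ ≫ π = U.ι) : IsIso (π ∣_ U) := by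
  have hrange : Set.range σ ⊆ Set.range (π ⁻¹ᵁ U).ι := by
    rw [Scheme.Opens.range_ι]
    rintro _ ⟨u, rfl⟩
    change π (σ u) ∈ U
    rw [← Scheme.Hom.comp_apply, h]
    exact u.2
  obtain ⟨σ', hσ'⟩ : ∃ σ' : U.toScheme ⟶ (π ⁻¹ᵁ U).toScheme, σ' ≫ (π ⁻¹ᵁ U).ι = σ :=
    ⟨IsOpenImmersion.lift (π ⁻¹ᵁ U).ι σ hrange, IsOpenImmersion.lift_fac _ _ _⟩
  have h1 : σ' ≫ π ∣_ U = 𝟙 _ := by
    rw [← cancel_mono U.ι, Category.assoc, morphismRestrict_ι, ← Category.assoc, hσ', h,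
      Category.id_comp]
  have hUne : Nonempty U.toScheme := hU.to_subtype
  have hne : Nonempty (π ⁻¹ᵁ U).toScheme := ⟨σ' (Classical.arbitrary _)⟩
  have hVint : IsIntegral (π ⁻¹ᵁ U).toScheme := isIntegral_of_isOpenImmersion (π ⁻¹ᵁ U).ι
  have hσc : IsOpenImmersion (σ' ≫ (π ⁻¹ᵁ U).ι) := by
    rw [hσ']
    exact hσ
  have hσ'o : IsOpenImmersion σ' := IsOpenImmersion.of_comp σ' (π ⁻¹ᵁ U).ι
  have hdom : IsDominant σ' := by
    refine ⟨?_⟩
    have ho : IsOpen (Set.range σ') := σ'.isOpenEmbedding.isOpen_range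
    exact ho.dense ⟨_, Set.mem_range_self (Classical.arbitrary _)⟩
  have h2 : π ∣_ U ≫ σ' = 𝟙 _ := by
    rw [← cancel_mono (π ⁻¹ᵁ U).ι, Category.assoc, hσ', Category.id_comp]
    refine ext_of_isDominant_of_isSeparated π ?_ σ' ?_
    · rw [Category.assoc, h, morphismRestrict_ι]
    · rw [← Category.assoc, h1, Category.id_comp, hσ']
  exact ⟨σ', h2, h1⟩

end Pool.Agent.H413.XT
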