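import Mathlib
import Pool.Agent.H413.XT.X3

/-!
# XT24: modifications which contain enough of the union are isomorphisms over the regular locus
-/

set_option autoImplicit false
set_option linter.unusedVariables false
set_option linter.unusedSectionVars false

open AlgebraicGeometry CategoryTheory Limits

namespace Pool.Agent.H413.XT

theorem h413_iso_reg {X X' : Scheme.{0}} (π : X' ⟶ X) (U : X.Opens) (hU : IsIso (π ∣_ U))
    (hUc : IsCompact (U : Set X)) (hUne : (U : Set X).Nonempty) (V : ℕ → X'.Opens)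
    (hV : Monotone V) (hcov : ∀ x, ∃ d, x ∈ V d) :
    ∃ d₀, ∀ d, d₀ ≤ d → ∀ (Y : Scheme.{0}) (b : Y ⟶ X) (j : (V d).toScheme ⟶ Y), IsIntegral Y →
      IsSeparated b → IsOpenImmersion j → j ≫ b = (V d).ι ≫ π → IsIso (b ∣_ U) := by
  have hUc' : CompactSpace U.toScheme := isCompact_iff_compactSpace.1 hUc
  have hWc' : CompactSpace (π ⁻¹ᵁ U).toScheme :=
    (Scheme.homeoOfIso (asIso (π ∣_ U))).symm.compactSpace
  have hWc : IsCompact ((π ⁻¹ᵁ U : X'.Opens) : Set X') := isCompact_iff_compactSpace.2 hWc'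
  obtain ⟨d₀, hd₀⟩ := hWc.elim_directed_cover (fun d => ((V d : X'.Opens) : Set X'))
    (fun d => (V d).isOpen)
    (fun x _ => by
      obtain ⟨d, hd⟩ := hcov x
      exact Set.mem_iUnion.2 ⟨d, hd⟩)
    (directed_of_isDirected_le fun a c hac => hV hac)
  refine ⟨d₀, fun d hd Y b j hY hb hj hjb => ?_⟩
  have hle : π ⁻¹ᵁ U ≤ V d := fun x hx => hV hd (hd₀ hx)
  have hσ : IsOpenImmersion (inv (π ∣_ U) ≫ X'.homOfLE hle ≫ j) := inferInstance
  refine h413_iso_over b hb U hUne (inv (π ∣_ U) ≫ X'.homOfLE hle ≫ j) hσ ?_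
  rw [Category.assoc, Category.assoc, hjb, ← Category.assoc (X'.homOfLE hle), Scheme.homOfLE_ι,
    ← morphismRestrict_ι, IsIso.inv_hom_id_assoc]

end Pool.Agent.H413.XT

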