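import Pool.Agent.H413.XT.Defs

/-!
# XT18: a local scheme maps into a chart of the model (helper962, for helper413)
-/

set_option autoImplicit false
set_option linter.unusedVariables false
set_option linter.unusedSectionVars false

open AlgebraicGeometry CategoryTheory Limits

namespace Pool.Agent.H413.XT

open Pool.Agent.TH188.ARC Pool.Agent.H918R2.Quad Pool.Agent.H968R2.Quad Pool.Agent.W559.GF
  Pool.Agent.W930.GF Pool.Agent.W191.GF

section mod

open scoped Topology
open IsLocalRing Pool.Agent.TH188.QS Pool.Agent.W418.LU2 Pool.Agent.H413.BR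

variable {O F : Type} [CommRing O] [Field F] [Algebra O F]

theorem h962_cover {M : Submodule O F} {G : Finset F} (hG : Submodule.span O (G : Set F) = M)
    (z : model M) : ∃ g ∈ G, g ≠ 0 ∧ ∃ hg : g ∈ M,
      z ∈ Proj.basicOpen (mPiece M) (tElt M g hg) := by
  by_contra hcon
  push Not at hcon
  have hGM : ∀ g ∈ G, g ∈ M := fun g hg => by
    rw [← hG]
    exact Submodule.subset_span hg
  have H : ∀ g ∈ G, ∀ hg : g ∈ M, tElt M g hg ∈
      ProjectiveSpectrum.asHomogeneousIdeal (𝒜 := mPiece M) z := by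
    intro g hgG hg
    by_cases h0 : g = 0
    · have e : tElt M g hg = 0 := by
        apply Subtype.ext
        simp [tElt, mMon, h0]
      rw [e]
      exact zero_mem _
    · by_contra h
      exact hcon g hgG h0 hg h
  apply not_all_mem M z
  intro b hb
  have hb' : b ∈ Submodule.span O (G : Set F) := by
    rw [hG]
    exact hb
  obtain ⟨_, h⟩ := Pool.Agent.W398.GF.tElt_mem_span M
    (q := (ProjectiveSpectrum.asHomogeneousIdeal (𝒜 := mPiece M) z).toIdeal)
    (s := (G : Set F)) (fun g hg => ⟨hGM g hg, H g hg _⟩) hb'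
  exact h

theorem h962_local {R : Type} [CommRing R] [IsLocalRing R] {X Y : Scheme.{0}} (i : Y ⟶ X)
    [IsOpenImmersion i] (ψ : Spec (CommRingCat.of R) ⟶ X)
    (h : ψ (IsLocalRing.closedPoint R) ∈ i.opensRange) : Set.range ψ ⊆ Set.range i := by
  have h1 : IsLocalRing.closedPoint R ∈ (ψ ⁻¹ᵁ i.opensRange) := h
  have h2 : (ψ ⁻¹ᵁ i.opensRange) = ⊤ := (IsLocalRing.closed_point_mem_iff (R := R)).1 h1
  rintro _ ⟨x, rfl⟩
  have h3 : x ∈ (ψ ⁻¹ᵁ i.opensRange) := by
    rw [h2]
    trivial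
  exact h3

theorem h413_trait_chart {M : Submodule O F} {G : Finset F}
    (hG : Submodule.span O (G : Set F) = M)
    {g₁ : F} (hg₁ : g₁ ∈ M) (hg₁0 : g₁ ≠ 0) {R : Type} [CommRing R] [IsLocalRing R]
    (ψ : Spec (CommRingCat.of R) ⟶ model M) :
    ∃ g ∈ G, g ≠ 0 ∧ ∃ (j : Spec (CommRingCat.of (chart O M g).toSubring) ⟶ model M)
      (γ : (chart O M g).toSubring →+* R), IsOpenImmersion j ∧
      io _ ≫ j = Pool.Agent.W398.GF.eta M g₁ hg₁ hg₁0 ∧ Spec.map (CommRingCat.ofHom γ) ≫ j = ψ := by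
  obtain ⟨g, hgG, hg0, hg, hz⟩ := h962_cover hG (ψ (IsLocalRing.closedPoint R))
  obtain ⟨i, hi, hr, hη⟩ := Pool.Agent.W398.GF.isChart M g hg hg0
  have h1 : ψ (IsLocalRing.closedPoint R) ∈ i.opensRange := by
    rw [hr]
    exact hz
  have h2 := h962_local i ψ h1
  obtain ⟨φ, hφ⟩ := Spec.map_surjective (IsOpenImmersion.lift i ψ h2)
  refine ⟨g, hgG, hg0, i, φ.hom, hi, ?_, ?_⟩
  · rw [Pool.Agent.W398.GF.eta_eq M hg₁ hg hg₁0 hg0]
    exact hη
  · rw [CommRingCat.ofHom_hom, hφ]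
    exact IsOpenImmersion.lift_fac i ψ h2

end mod

end Pool.Agent.H413.XT
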