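import Pool.Agent.H413.XT.Cont
import Pool.Agent.H413.XT.X11

/-!
# XT20: comparison of contacts (helper627 for helper413)
-/

set_option autoImplicit false
set_option linter.unusedVariables false
set_option linter.unusedSectionVars false

open AlgebraicGeometry CategoryTheory Limits

namespace Pool.Agent.H413.XT

/-- The order of a power in a discrete valuation ring. -/
lemma xt20_pow {R : Type} [CommRing R] [IsDomain R] [IsDiscreteValuationRing R] {S : R} {d n : ℕ}
    (hS : S ∉ IsLocalRing.maximalIdeal R ^ (d + 1)) :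
    S ^ n ∉ IsLocalRing.maximalIdeal R ^ (n * d + 1) := by
  obtain ⟨ϖ, hϖ⟩ := IsDiscreteValuationRing.exists_irreducible R
  have hS0 : S ≠ 0 := fun h => hS (h ▸ Ideal.zero_mem _)
  obtain ⟨k, u, hk⟩ := IsDiscreteValuationRing.eq_unit_mul_pow_irreducible hS0 hϖ
  rw [hϖ.maximalIdeal_eq, Ideal.span_singleton_pow, Ideal.mem_span_singleton] at hS ⊢
  have hkd : k ≤ d := by
    by_contra hlt
    push Not at hlt
    apply hS
    rw [hk]
    exact Dvd.dvd.mul_left (pow_dvd_pow ϖ hlt) _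
  intro h
  rw [hk, mul_pow, ← pow_mul] at h
  have h1 : ϖ ^ (n * d + 1) ∣ ϖ ^ (k * n) := by
    have hu : IsUnit ((u : R) ^ n) := (Units.isUnit u).pow n
    exact (hu.dvd_mul_left).1 h
  have h2 := (pow_dvd_pow_iff hϖ.ne_zero hϖ.not_isUnit).1 h1
  have h3 : k * n ≤ n * d := by
    rw [mul_comm]; exact Nat.mul_le_mul_left n hkd
  omega

/-- Reduction of the pull back of a section to an element of the ring. -/
lemma xt20_sec {B : CommRingCat.{0}} (V : (Spec B).Opens) (s : Γ(Spec B, V)) (R : CommRingCat.{0})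
    (γ : B ⟶ R) (h : ⊤ ≤ Spec.map γ ⁻¹ᵁ V) (c : Spec R) :
    ∃ (t a : B) (e : ℕ), (Spec.map γ) c ∈ PrimeSpectrum.basicOpen t ∧
      PrimeSpectrum.basicOpen t ≤ V ∧
      (PrimeSpectrum.basicOpen t ⊓ PrimeSpectrum.basicOpen a ≤ (Spec B).basicOpen s) ∧
      ((∀ c' : Spec R, (Spec.map γ) c' ∈ PrimeSpectrum.basicOpen t) →
        (Scheme.ΓSpecIso R).hom ((Spec.map γ).appLE V ⊤ h s) * (γ t) ^ e = γ a) := by
  have hc : (Spec.map γ) c ∈ V := h (show c ∈ (⊤ : (Spec R).Opens) from trivial)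
  obtain ⟨f, hf, hcf⟩ := (isAffineOpen_top (Spec B)).exists_basicOpen_le ⟨_, hc⟩ trivial
  have hloc := (isAffineOpen_top (Spec B)).isLocalization_basicOpen f
  let s' : Γ(Spec B, (Spec B).basicOpen f) := (Spec B).presheaf.map (homOfLE hf).op s
  obtain ⟨e, a, ha⟩ := IsLocalization.Away.surj (S := Γ(Spec B, (Spec B).basicOpen f)) f s'
  have hbf := basicOpen_eq_of_affine' f
  refine ⟨(Scheme.ΓSpecIso B).hom f, (Scheme.ΓSpecIso B).hom a, e, ?_, ?_, ?_, ?_⟩
  · rw [← hbf]
    exact hcf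
  · rw [← hbf]
    exact hf
  · rw [← basicOpen_eq_of_affine' a, ← hbf]
    have h1 : (Spec B).basicOpen s' = (Spec B).basicOpen f ⊓ (Spec B).basicOpen s :=
      Scheme.basicOpen_res _ _ _
    have h2 : (Spec B).basicOpen ((Spec B).presheaf.map (homOfLE ((Spec B).basicOpen_le f)).op a) =
        (Spec B).basicOpen f ⊓ (Spec B).basicOpen a :=
      Scheme.basicOpen_res _ _ _
    have h3 : (Spec B).presheaf.map (homOfLE ((Spec B).basicOpen_le f)).op a = s' *
      ((Spec B).presheaf.map (homOfLE ((Spec B).basicOpen_le f)).op f) ^ e := ha.symm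
    have h8 : ((Spec B).basicOpen f ⊓ (Spec B).basicOpen a : (Spec B).Opens) ≤
        (Spec B).basicOpen s := by
      rw [← h2, h3, Scheme.basicOpen_mul, h1]
      exact inf_le_left.trans inf_le_right
    exact h8
  · intro hall
    have hD : ⊤ ≤ Spec.map γ ⁻¹ᵁ (Spec B).basicOpen f := by
      intro c' _
      have := hall c'
      rw [← hbf] at this
      exact this
    have e1 : (Spec.map γ).appLE V ⊤ h s = (Spec.map γ).appLE ((Spec B).basicOpen f) ⊤ hD s' := by
      have := Scheme.Hom.map_appLE (Spec.map γ) hD (homOfLE hf).op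
      exact (congrArg (fun g => g.hom s) this).symm
    have e2 : ∀ b : Γ(Spec B, ⊤), (Scheme.ΓSpecIso R).hom
        ((Spec.map γ).appLE ((Spec B).basicOpen f) ⊤ hD
          ((Spec B).presheaf.map (homOfLE ((Spec B).basicOpen_le f)).op b)) =
        γ ((Scheme.ΓSpecIso B).hom b) := by
      intro b
      have h4 := Scheme.Hom.map_appLE (Spec.map γ) hD (homOfLE ((Spec B).basicOpen_le f)).op
      have h5 := (congrArg (fun g => g.hom b) h4)
      have h6 := (congrArg (fun g => g.hom b) (Scheme.ΓSpecIso_naturality γ))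
      have h7 : (Spec.map γ).appLE ⊤ ⊤ le_top = (Spec.map γ).appTop := by
        rw [Scheme.Hom.appTop, Scheme.Hom.app_eq_appLE]
        rfl
      refine (congrArg (Scheme.ΓSpecIso R).hom h5).trans ?_
      exact h6
    rw [e1, ← e2 f, ← e2 a, ← map_pow, ← map_mul, ← map_pow, ← map_mul]
    exact congrArg _ (congrArg _ ha)

theorem h413_contact_bound {B : Type} [CommRing B] [IsNoetherianRing B] (T : Set B)
    (hT : ∀ (P : Ideal B) [P.IsPrime], (∃ x ∈ T, x ∉ P) ↔
      IsRegularLocalRing (Localization.AtPrime P)) :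
    ∃ n : ℕ, ∀ (X : Scheme.{0}) (j : Spec (CommRingCat.of B) ⟶ X), IsOpenImmersion j →
      ∀ (R : Type) [CommRing R] [IsDomain R] [IsDiscreteValuationRing R] (γ : B →+* R) (d : ℕ),
        Con (Spec.map (CommRingCat.ofHom γ) ≫ j) d →
        ∃ x ∈ T, γ x ∉ IsLocalRing.maximalIdeal R ^ (n * d + 1) := by
  obtain ⟨n, hn⟩ := (Ideal.span T).exists_radical_pow_le_of_fg
    (IsNoetherian.noetherian (Ideal.span T).radical)
  refine ⟨n, ?_⟩
  intro X j hj R _ _ _ γ d ⟨U, h, s, hs, hsd⟩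
  let V : (Spec (CommRingCat.of B)).Opens := j ⁻¹ᵁ U
  let s₁ : Γ(Spec (CommRingCat.of B), V) := j.app U s
  have h₁ : ⊤ ≤ Spec.map (CommRingCat.ofHom γ) ⁻¹ᵁ V := h
  obtain ⟨t, a, e, hct, htV, hta, hval⟩ := xt20_sec V s₁ (CommRingCat.of R)
    (CommRingCat.ofHom γ) h₁ (IsLocalRing.closedPoint R)
  have htu : IsUnit (γ t) := by
    by_contra hc
    apply hct
    exact (IsLocalRing.mem_maximalIdeal _).2 hc
  have hval' := hval (by
    intro c' h2
    have h3 : γ t ∈ c'.asIdeal := h2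
    exact c'.isPrime.ne_top (Ideal.eq_top_of_isUnit_mem _ h3 htu))
  have hS : (Scheme.ΓSpecIso (CommRingCat.of R)).hom
      ((Spec.map (CommRingCat.ofHom γ)).appLE V ⊤ h₁ s₁) ∉
        IsLocalRing.maximalIdeal R ^ (d + 1) := by
    have h4 := Scheme.Hom.comp_appLE (Spec.map (CommRingCat.ofHom γ)) j U ⊤ h
    have h5 := congrArg (fun g => g.hom s) h4
    have h6 : ((Spec.map (CommRingCat.ofHom γ) ≫ j).appLE U ⊤ h) s =
      (Spec.map (CommRingCat.ofHom γ)).appLE V ⊤ h₁ s₁ := h5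
    rw [← h6]
    exact hsd
  have hrad : a * t ∈ (Ideal.span T).radical := by
    rw [Ideal.radical_eq_sInf, Ideal.mem_sInf]
    intro Q ⟨hTQ, hQ⟩
    by_contra hat
    have ha : a ∉ Q := fun h => hat (Q.mul_mem_right t h)
    have ht : t ∉ Q := fun h => hat (Q.mul_mem_left a h)
    let q : PrimeSpectrum B := ⟨Q, hQ⟩
    have hq : q ∈ (Spec (CommRingCat.of B)).basicOpen s₁ := hta ⟨ht, ha⟩
    have hqV : j q ∈ U := htV ht
    have hq' : j q ∈ X.basicOpen s := by
      have h7 := Scheme.preimage_basicOpen j s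
      have h8 : q ∈ j ⁻¹ᵁ X.basicOpen s := by
        rw [h7]
        exact hq
      exact h8
    have hnr : ¬ IsRegularLocalRing (X.presheaf.stalk (j q)) := by
      intro hr
      have h9 := xt11_reg_at j q hr
      obtain ⟨x, hx, hxQ⟩ := (hT Q).2 h9
      exact hxQ (hTQ (Ideal.subset_span hx))
    exact hs _ hqV hnr hq'
  have hpow : (a * t) ^ n ∈ Ideal.span T := hn (Ideal.pow_mem_pow hrad n)
  by_contra hcon
  push Not at hcon
  have hle : Ideal.span T ≤ (IsLocalRing.maximalIdeal R ^ (n * d + 1)).comap γ := by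
    rw [Ideal.span_le]
    exact hcon
  have h10 : γ ((a * t) ^ n) ∈ IsLocalRing.maximalIdeal R ^ (n * d + 1) := hle hpow
  have hval'' : (Scheme.ΓSpecIso (CommRingCat.of R)).hom
      ((Spec.map (CommRingCat.ofHom γ)).appLE V ⊤ h₁ s₁) * (γ t) ^ e = γ a := hval'
  rw [map_pow, map_mul, ← hval'', mul_assoc, ← pow_succ, mul_pow] at h10
  have hu : IsUnit ((γ t ^ (e + 1)) ^ n) := (htu.pow _).pow _
  have h11 := (Ideal.mul_unit_mem_iff_mem _ hu).1 h10
  exact xt20_pow hS h11

end Pool.Agent.H413.XT
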