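import Pool.Agent.H413.XT.X4
import Pool.Agent.H413.XT.X18
import Pool.Agent.H413.XT.X19
import Pool.Agent.H413.XT.X20

/-!
# XT21: assembly of the final theorem (helper163 for helper413)
-/

set_option autoImplicit false
set_option linter.unusedVariables false
set_option linter.unusedSectionVars false

open AlgebraicGeometry CategoryTheory Limits

namespace Pool.Agent.H413.XT

open Pool.Agent.TH188.ARC Pool.Agent.H918R2.Quad Pool.Agent.H968R2.Quad Pool.Agent.W559.GF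
  Pool.Agent.W930.GF Pool.Agent.W191.GF
open IsLocalRing Pool.Agent.TH188.QS Pool.Agent.W418.LU2 Pool.Agent.H413.BR

section xt21

variable {O F : Type} [CommRing O] [IsNoetherianRing O] [Field F] [Algebra O F]

/-- bound of the contact for one chart -/
lemma xt21_one {M : Submodule O F} (hM : M.FG) {D : ℕ} {N : Set F}
    (hN : N ⊆ (M ^ D : Submodule O F)) {g : F} (hg : g ∈ M) (hg0 : g ≠ 0)
    (hNreg : ∀ (P : Ideal (chart O M g)) [P.IsPrime],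
      ((∃ f ∈ N, ∀ h : f / g ^ D ∈ chart O M g, (⟨_, h⟩ : chart O M g) ∉ P) ↔
        IsRegularLocalRing (Localization.AtPrime P))) :
    ∃ n : ℕ, ∀ (X : Scheme.{0}) (j : Spec (CommRingCat.of (chart O M g).toSubring) ⟶ X),
      IsOpenImmersion j → ∀ (R : Type) [CommRing R] [IsDomain R] [IsDiscreteValuationRing R]
        (γ : (chart O M g).toSubring →+* R) (d : ℕ),
        Con (Spec.map (CommRingCat.ofHom γ) ≫ j) d →
        ∃ f ∈ N, ∀ h : f / g ^ D ∈ chart O M g, γ ⟨_, h⟩ ∉ maximalIdeal R ^ (n * d + 1) := by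
  have hnoe : IsNoetherianRing (chart O M g).toSubring := chart_noeth hM g
  have hT : ∀ (P : Ideal (chart O M g).toSubring) [P.IsPrime],
      (∃ x ∈ {x : (chart O M g).toSubring | ∃ f ∈ N, (x : F) = f / g ^ D}, x ∉ P) ↔
        IsRegularLocalRing (Localization.AtPrime P) := by
    intro P hP
    have h1 := @hNreg P hP
    refine Iff.trans ?_ h1
    constructor
    · rintro ⟨x, ⟨f, hf, hx⟩, hxP⟩
      refine ⟨f, hf, fun h hc => hxP ?_⟩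
      have h2 : (⟨f / g ^ D, h⟩ : (chart O M g).toSubring) = x := Subtype.ext hx.symm
      rw [← h2]
      exact hc
    · rintro ⟨f, hf, h⟩
      have hm : f / g ^ D ∈ chart O M g := pow_div_mem hg0 D f (hN hf)
      exact ⟨⟨_, hm⟩, ⟨f, hf, rfl⟩, h hm⟩
  obtain ⟨n, hn⟩ := h413_contact_bound _ hT
  refine ⟨n, fun X j hj R _ _ _ γ d hC => ?_⟩
  obtain ⟨x, ⟨f, hf, hx⟩, hxm⟩ := hn X j hj R γ d hC
  refine ⟨f, hf, fun h => ?_⟩
  have h2 : (⟨f / g ^ D, h⟩ : (chart O M g).toSubring) = x := Subtype.ext hx.symm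
  rw [h2]
  exact hxm

/-- bound of the contact for finitely many charts -/
lemma xt21_unif {M : Submodule O F} (hM : M.FG) {D : ℕ} {N : Set F}
    (hN : N ⊆ (M ^ D : Submodule O F)) (G : Finset F) (hG : ∀ g ∈ G, g ∈ M)
    (hNreg : ∀ g ∈ M, g ≠ 0 → ∀ (P : Ideal (chart O M g)) [P.IsPrime],
      ((∃ f ∈ N, ∀ h : f / g ^ D ∈ chart O M g, (⟨_, h⟩ : chart O M g) ∉ P) ↔
        IsRegularLocalRing (Localization.AtPrime P))) :
    ∃ n : ℕ, 1 ≤ n ∧ ∀ g ∈ G, g ≠ 0 →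
      ∀ (X : Scheme.{0}) (j : Spec (CommRingCat.of (chart O M g).toSubring) ⟶ X),
      IsOpenImmersion j → ∀ (R : Type) [CommRing R] [IsDomain R] [IsDiscreteValuationRing R]
        (γ : (chart O M g).toSubring →+* R) (d : ℕ),
        Con (Spec.map (CommRingCat.ofHom γ) ≫ j) d →
        ∃ f ∈ N, ∀ h : f / g ^ D ∈ chart O M g, γ ⟨_, h⟩ ∉ maximalIdeal R ^ (n * d + 1) := by
  classical
  have h1 : ∀ g : F, ∃ n : ℕ, g ∈ G → g ≠ 0 →
      ∀ (X : Scheme.{0}) (j : Spec (CommRingCat.of (chart O M g).toSubring) ⟶ X),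
      IsOpenImmersion j → ∀ (R : Type) [CommRing R] [IsDomain R] [IsDiscreteValuationRing R]
        (γ : (chart O M g).toSubring →+* R) (d : ℕ),
        Con (Spec.map (CommRingCat.ofHom γ) ≫ j) d →
        ∃ f ∈ N, ∀ h : f / g ^ D ∈ chart O M g, γ ⟨_, h⟩ ∉ maximalIdeal R ^ (n * d + 1) := by
    intro g
    by_cases h : g ∈ G ∧ g ≠ 0
    · obtain ⟨n, hn⟩ := xt21_one hM hN (hG g h.1) h.2 (hNreg g (hG g h.1) h.2)
      exact ⟨n, fun _ _ => hn⟩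
    · exact ⟨0, fun h2 h3 => absurd ⟨h2, h3⟩ h⟩
  choose n hn using h1
  refine ⟨1 + ∑ g ∈ G, n g, by omega, fun g hg hg0 X j hj R _ _ _ γ d hC => ?_⟩
  obtain ⟨f, hf, hfm⟩ := hn g hg hg0 X j hj R γ d hC
  refine ⟨f, hf, fun h hc => hfm h (Ideal.pow_le_pow_right ?_ hc)⟩
  have h2 : n g ≤ ∑ g ∈ G, n g := Finset.single_le_sum (fun _ _ => Nat.zero_le _) hg
  have h3 : n g * d ≤ (1 + ∑ g ∈ G, n g) * d := Nat.mul_le_mul_right d (by omega)
  omega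

/-- Krull -/
lemma xt21_krull {R : Type} [CommRing R] [IsDomain R] [IsDiscreteValuationRing R] {r : R}
    (hr : r ≠ 0) : ∃ d : ℕ, r ∉ maximalIdeal R ^ (d + 1) := by
  by_contra hcon
  push Not at hcon
  apply hr
  have h1 : r ∈ ⨅ i : ℕ, maximalIdeal R ^ i := by
    rw [Ideal.mem_iInf]
    intro i
    exact Ideal.pow_le_pow_right (Nat.le_succ i) (hcon i)
  rw [Ideal.iInf_pow_eq_bot_of_isLocalRing _ (IsLocalRing.maximalIdeal.isMaximal R).ne_top] at h1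
  exact h1

end xt21

/-- XT21. -/
theorem h413_final_gen {O F : Type} [CommRing O] [IsDomain O] [IsNoetherianRing O] [Field F]
    [Algebra O F] (hinj : Function.Injective (algebraMap O F)) (hHJ : HJ O) (hSR : SR O F)
    {X : Scheme.{0}} {M : Submodule O F} (hM : M.FG) (e : X ≅ model M) (g₀ : F) (hg₀ : g₀ ∈ M)
    (hg₀0 : g₀ ≠ 0) {D : ℕ} {N : Set F} (hNfin : N.Finite) (hN : N ⊆ (M ^ D : Submodule O F))
    (hNreg : ∀ g ∈ M, g ≠ 0 → ∀ (P : Ideal (chart O M g)) [P.IsPrime],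
      ((∃ f ∈ N, ∀ h : f / g ^ D ∈ chart O M g, (⟨_, h⟩ : chart O M g) ∉ P) ↔
        IsRegularLocalRing (Localization.AtPrime P)))
    {K : ℕ → Submodule O F} (hK : ∀ d, (K d).FG ∧ ∃ j ∈ K d, j ≠ 0)
    (hiso : ∀ (d : ℕ), ∀ g ∈ Mo M K d, g ≠ 0 → ∀ (P : Ideal (chart O (Mo M K d) g)) [P.IsPrime],
      IsRegularLocalRing (Localization.AtPrime P) → PrincipalAt (Mo M K d) (K d) g P)
    (𝒯 : ℕ → ∀ (R : Type) [CommRing R] [IsLocalRing R], Prop)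
    (hmono : ∀ (R : Type) [CommRing R] [IsLocalRing R] (d d' : ℕ), d ≤ d' → 𝒯 d R → 𝒯 d' R)
    (hlift : ∀ (d : ℕ), ∀ g ∈ M, g ≠ 0 → ∀ (R : Type) [CommRing R] [IsDomain R]
      [IsDiscreteValuationRing R] (γ : chart O M g →+* R),
      (∃ f ∈ N, ∀ h : f / g ^ D ∈ chart O M g, γ ⟨_, h⟩ ∉ maximalIdeal R ^ (d + 1)) → 𝒯 d R →
      LiftsReg M (∏ i ∈ Finset.range d, K i) g R γ) :
    ∃ (X' : Scheme.{0}) (π : X' ⟶ X), IsIntegral X' ∧ (∀ x, RegAt X' x) ∧ IsSeparated π ∧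
      LocallyOfFiniteType π ∧ (∃ U : X.Opens, (∀ z, z ∈ U ↔ RegAt X z) ∧ IsIso (π ∣_ U)) ∧
      (∀ (R : Type) [CommRing R] [IsDomain R] [IsDiscreteValuationRing R]
        (ψ : Spec (CommRingCat.of R) ⟶ X), (∃ d, 𝒯 d R) → RegAt X (ψ (⊥ : PrimeSpectrum R)) →
        ∃! ψ' : Spec (CommRingCat.of R) ⟶ X', ψ' ≫ π = ψ) ∧
      ∃ V : ℕ → X'.Opens, Monotone V ∧ (∀ x, ∃ d, x ∈ V d) ∧
        (∀ d, ∃ (Y : Scheme.{0}) (b : Y ⟶ X) (j : (V d).toScheme ⟶ Y), IsIntegral Y ∧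
          IsProper b ∧ IsOpenImmersion j ∧ (∀ z, z ∈ Set.range j ↔ RegAt Y z) ∧
          j ≫ b = (V d).ι ≫ π) ∧
        ∀ (d : ℕ) (R : Type) [CommRing R] [IsDomain R] [IsDiscreteValuationRing R]
          (ψ : Spec (CommRingCat.of R) ⟶ X), Con ψ d → 𝒯 d R →
          ∃ ψ' : Spec (CommRingCat.of R) ⟶ X', ψ' ≫ π = ψ ∧ Set.range ψ' ⊆ (V d : Set X') := by
  obtain ⟨X', π₀, hint, hreg, hsep, hft, ⟨U₀, hU₀, hisoU⟩, V, hVm, hVc, hV1, hV2⟩ :=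
    h413_union_model hinj hHJ hSR hM g₀ hg₀ hg₀0 hK hiso
  obtain ⟨G, hG⟩ := hM
  have hM : M.FG := ⟨G, hG⟩
  have hGM : ∀ g ∈ G, g ∈ M := fun g hg => by
    rw [← hG]
    exact Submodule.subset_span hg
  obtain ⟨n, hn1, hn⟩ := xt21_unif hM hN G hGM hNreg
  have hsepπ : IsSeparated (π₀ ≫ e.inv) := inferInstance
  have hftπ : LocallyOfFiniteType (π₀ ≫ e.inv) := inferInstance
  have hUreg : ∀ z : X, z ∈ e.hom ⁻¹ᵁ U₀ ↔ RegAt X z := by
    intro z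
    rw [← H348.regAt_iff e.hom z, ← hU₀]
    exact Iff.rfl
  have hUiso : IsIso ((π₀ ≫ e.inv) ∣_ (e.hom ⁻¹ᵁ U₀)) := by
    have h1 : e.inv ⁻¹ᵁ (e.hom ⁻¹ᵁ U₀) = U₀ := by
      rw [← Scheme.Hom.comp_preimage, e.inv_hom_id]
      rfl
    rw [morphismRestrict_comp]
    have h2 : IsIso (π₀ ∣_ (e.inv ⁻¹ᵁ (e.hom ⁻¹ᵁ U₀))) := by
      rw [h1]
      exact hisoU
    have h3 : IsIso (e.inv ∣_ (e.hom ⁻¹ᵁ U₀)) := inferInstance
    exact @IsIso.comp_isIso _ _ _ _ _ _ _ h2 h3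
  -- existence of lifts
  have hex : ∀ (d : ℕ) (R : Type) [CommRing R] [IsDomain R] [IsDiscreteValuationRing R]
      (ψ : Spec (CommRingCat.of R) ⟶ X), 𝒯 d R → ∀ g ∈ G, g ≠ 0 →
      ∀ (j : Spec (CommRingCat.of (chart O M g).toSubring) ⟶ model M)
        (γ : (chart O M g).toSubring →+* R), io _ ≫ j = Pool.Agent.W398.GF.eta M g₀ hg₀ hg₀0 →
        Spec.map (CommRingCat.ofHom γ) ≫ j = ψ ≫ e.hom →
        (∃ f ∈ N, ∀ h : f / g ^ D ∈ chart O M g, γ ⟨_, h⟩ ∉ maximalIdeal R ^ (d + 1)) →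
        ∃ ψ' : Spec (CommRingCat.of R) ⟶ X', ψ' ≫ (π₀ ≫ e.inv) = ψ ∧
          Set.range ψ' ⊆ (V d : Set X') := by
    intro d R _ _ _ ψ hT g hg hg0 j γ hj hγ hf
    have h1 := hlift d g (hGM g hg) hg0 R γ hf hT
    obtain ⟨ψ', h2, h3⟩ := hV2 d R g (hGM g hg) hg0 γ j hj h1
    refine ⟨ψ', ?_, h3⟩
    rw [← Category.assoc, h2, hγ, Category.assoc, e.hom_inv_id, Category.comp_id]
  refine ⟨X', π₀ ≫ e.inv, hint, hreg, hsepπ, hftπ, ⟨e.hom ⁻¹ᵁ U₀, hUreg, hUiso⟩, ?_,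
    fun d => V (n * d), ?_, ?_, ?_, ?_⟩
  · -- traits with regular generic point
    intro R _ _ _ ψ hT hgen
    obtain ⟨d, hT⟩ := hT
    obtain ⟨g, hg, hg0, j, γ, hjo, hj, hγ⟩ := h413_trait_chart hG hg₀ hg₀0 (ψ ≫ e.hom)
    obtain ⟨x0, hx0⟩ : ∃ x0 : Spec (CommRingCat.of R), x0 = (⊥ : PrimeSpectrum R) := ⟨_, rfl⟩
    have hgen' : RegAt X (ψ x0) := by
      rw [hx0]
      exact hgen
    have hreg1 : RegAt (model M) (e.hom (ψ x0)) := (H348.regAt_iff e.hom _).2 hgen'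
    rw [← Scheme.Hom.comp_apply, ← hγ, Scheme.Hom.comp_apply, hx0] at hreg1
    let P : PrimeSpectrum (chart O M g).toSubring := PrimeSpectrum.comap γ (⊥ : PrimeSpectrum R)
    have hreg2 : IsRegularLocalRing (Localization.AtPrime P.asIdeal) := xt11_reg_at j P hreg1
    have hPp : P.asIdeal.IsPrime := P.isPrime
    obtain ⟨f, hf, hfP⟩ := (@hNreg g (hGM g hg) hg0 P.asIdeal hPp).2 hreg2
    have hm : f / g ^ D ∈ chart O M g := pow_div_mem hg0 D f (hN hf)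
    have hne : γ ⟨f / g ^ D, hm⟩ ≠ 0 := fun h0 => hfP hm (by
      show γ ⟨f / g ^ D, hm⟩ ∈ (⊥ : PrimeSpectrum R).asIdeal
      rw [h0]
      exact Ideal.zero_mem _)
    obtain ⟨d₁, hd₁⟩ := xt21_krull hne
    obtain ⟨ψ', h1, -⟩ := hex (max d d₁) R ψ (hmono R d _ (le_max_left _ _) hT) g hg hg0 j γ hj hγ
      ⟨f, hf, fun h hc => hd₁ (Ideal.pow_le_pow_right (by
        have := le_max_right d d₁
        omega) hc)⟩
    refine ⟨ψ', h1, fun ψ₂ h2 => ?_⟩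
    have h2' : ψ₂ ≫ (π₀ ≫ e.inv) = ψ := h2
    refine h413_lift_unique (π₀ ≫ e.inv) hsepπ (e.hom ⁻¹ᵁ U₀) hUiso R ψ₂ ψ' (h2'.trans h1.symm) ?_
    rw [h2']
    exact (hUreg _).2 hgen
  · intro d d' hdd
    exact hVm (Nat.mul_le_mul_left n hdd)
  · intro x
    obtain ⟨d, hd⟩ := hVc x
    exact ⟨d, hVm (Nat.le_mul_of_pos_left d (by omega)) hd⟩
  · intro d
    obtain ⟨Y, b, j, hY, hb, hj, hjr, hjb⟩ := hV1 (n * d)
    refine ⟨Y, b ≫ e.inv, j, hY, inferInstance, hj, hjr, ?_⟩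
    rw [← Category.assoc, hjb, Category.assoc]
  · intro d R _ _ _ ψ hC hT
    obtain ⟨g, hg, hg0, j, γ, hjo, hj, hγ⟩ := h413_trait_chart hG hg₀ hg₀0 (ψ ≫ e.hom)
    have hjo' : IsOpenImmersion (j ≫ e.inv) := inferInstance
    have h1 : Spec.map (CommRingCat.ofHom γ) ≫ (j ≫ e.inv) = ψ := by
      rw [← Category.assoc, hγ, Category.assoc, e.hom_inv_id, Category.comp_id]
    have h2 := hn g hg hg0 X (j ≫ e.inv) hjo' R γ d (by rw [h1]; exact hC)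
    exact hex (n * d) R ψ (hmono R d _ (Nat.le_mul_of_pos_left d (by omega)) hT) g hg hg0 j γ hj hγ h2

end Pool.Agent.H413.XT
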