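import Pool.Agent.H413.XT.X5
import Pool.Agent.H413.XT.X24
import Pool.Agent.H413.XT.X21

/-!
# Modifications which are isomorphisms over the regular locus
-/

set_option autoImplicit false
set_option linter.unusedVariables false
set_option linter.unusedSectionVars false

open AlgebraicGeometry CategoryTheory Limits

namespace Pool.Agent.H413.XT

open Pool.Agent.TH188.ARC Pool.Agent.H918R2.Quad Pool.Agent.H968R2.Quad Pool.Agent.W559.GF
  Pool.Agent.W930.GF Pool.Agent.W191.GF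

/-- The modifications are isomorphisms over the regular locus from some point on. -/
theorem upgrade {X X' : Scheme.{0}} [IsIntegral X] (hc : ∀ s : Set X, IsCompact s) (π : X' ⟶ X)
    (U : X.Opens) (hU : ∀ z, z ∈ U ↔ RegAt X z) (hiso : IsIso (π ∣_ U)) (V : ℕ → X'.Opens)
    (hV : Monotone V) (hcov : ∀ x, ∃ d, x ∈ V d)
    (hY : ∀ d, ∃ (Y : Scheme.{0}) (b : Y ⟶ X) (j : (V d).toScheme ⟶ Y), IsIntegral Y ∧
      IsProper b ∧ IsOpenImmersion j ∧ (∀ z, z ∈ Set.range j ↔ RegAt Y z) ∧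
      j ≫ b = (V d).ι ≫ π) :
    ∃ d₀, ∀ d, d₀ ≤ d → ∃ (Y : Scheme.{0}) (b : Y ⟶ X) (j : (V d).toScheme ⟶ Y), IsIntegral Y ∧
      IsProper b ∧ (∃ U : X.Opens, (∀ z, z ∈ U ↔ RegAt X z) ∧ IsIso (b ∣_ U)) ∧
      IsOpenImmersion j ∧ (∀ z, z ∈ Set.range j ↔ RegAt Y z) ∧ j ≫ b = (V d).ι ≫ π := by
  obtain ⟨d₀, hd₀⟩ := h413_iso_reg π U hiso (hc _)
    ⟨genericPoint X, (hU _).2 (H348.regAt_generic X)⟩ V hV hcov
  refine ⟨d₀, fun d hd => ?_⟩
  obtain ⟨Y, b, j, h1, h2, h3, h4, h5⟩ := hY d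
  exact ⟨Y, b, j, h1, h2, ⟨U, hU, hd₀ d hd Y b j h1 inferInstance h3 h5⟩, h3, h4, h5⟩

/-- Subsets of schemes of finite type over noetherian rings are quasi-compact. -/
theorem all_compact {O : Type} [CommRing O] [IsNoetherianRing O] {X : Scheme.{0}}
    (f : X ⟶ Spec (CommRingCat.of O)) [LocallyOfFiniteType f] [QuasiCompact f] (s : Set X) :
    IsCompact s := by
  have h1 : IsLocallyNoetherian X := LocallyOfFiniteType.isLocallyNoetherian f
  have h2 : CompactSpace X := by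
    have := (quasiCompact_iff_compactSpace (f := f)).1 inferInstance
    exact this
  have h3 : IsNoetherian X := ⟨⟩
  have h4 : TopologicalSpace.NoetherianSpace X := inferInstance
  exact TopologicalSpace.NoetherianSpace.isCompact s

end Pool.Agent.H413.XT
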