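import Pool.Agent.H413.XT.N1
import Pool.Agent.H413.XT.N2
import Pool.Agent.H413.XT.N3
import Pool.Agent.H413.XT.N4
import Pool.Agent.H413.XT.X24
import Pool.Agent.H413.XT.X25

/-!
# NR5 (project XT of helper413): assembly, by helper44
-/

set_option autoImplicit false
set_option linter.unusedVariables false
set_option linter.unusedSectionVars false

open AlgebraicGeometry CategoryTheory Limits

namespace Pool.Agent.H413.XT

open Pool.Agent.TH188.ARC Pool.Agent.H918R2.Quad Pool.Agent.H968R2.Quad Pool.Agent.W559.GF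
  Pool.Agent.W930.GF Pool.Agent.W191.GF

namespace H44NR

/-- The absolute ramification of a discrete valuation ring of characteristic zero is finite. -/
theorem exists_ramification (R : Type) [CommRing R] [IsDomain R] [IsDiscreteValuationRing R]
    [CharZero R] : ∃ d, ∀ p : ℕ, p.Prime → (p : R) ∉ IsLocalRing.maximalIdeal R ^ (d + 1) := by
  classical
  by_cases h : ∃ p : ℕ, p.Prime ∧ (p : R) ∈ IsLocalRing.maximalIdeal R
  · obtain ⟨p, hp, hpm⟩ := h
    have hp0 : (p : R) ≠ 0 := Nat.cast_ne_zero.2 hp.ne_zero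
    have h1 : ∃ n, (p : R) ∉ IsLocalRing.maximalIdeal R ^ n := by
      by_contra hcon
      push Not at hcon
      have h2 : (p : R) ∈ (⨅ n : ℕ, IsLocalRing.maximalIdeal R ^ n) := by
        rw [Submodule.mem_iInf]
        exact hcon
      rw [Ideal.iInf_pow_eq_bot_of_isLocalRing _ (IsLocalRing.maximalIdeal.isMaximal R).ne_top]
        at h2
      exact hp0 ((Submodule.mem_bot R).1 h2)
    obtain ⟨n, hn⟩ := h1
    refine ⟨n, fun q hq hqn => ?_⟩
    by_cases hpq : p = q
    · subst hpq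
      exact hn (Ideal.pow_le_pow_right (Nat.le_succ n) hqn)
    · have hqm : (q : R) ∈ IsLocalRing.maximalIdeal R :=
        Ideal.pow_le_self (Nat.succ_ne_zero n) hqn
      have hco : IsCoprime (p : ℤ) (q : ℤ) :=
        Nat.isCoprime_iff_coprime.2 ((Nat.coprime_primes hp hq).2 hpq)
      obtain ⟨a, b, hab⟩ := hco
      have h3 : (1 : R) ∈ IsLocalRing.maximalIdeal R := by
        have h4 : (1 : R) = (a : R) * (p : R) + (b : R) * (q : R) := by
          have := congrArg (Int.cast : ℤ → R) hab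
          push_cast at this
          exact this.symm
        rw [h4]
        exact Ideal.add_mem _ (Ideal.mul_mem_left _ _ hpm) (Ideal.mul_mem_left _ _ hqm)
      exact (IsLocalRing.maximalIdeal.isMaximal R).ne_top ((Ideal.eq_top_iff_one _).2 h3)
  · push Not at h
    exact ⟨0, fun p hp hpm => h p hp (by rwa [zero_add, pow_one] at hpm)⟩

/-- morphisms to `Spec ℤ` are unique -/
theorem toZ_ext {T : Scheme.{0}} (a b : T ⟶ Spec (CommRingCat.of ℤ)) : a = b :=
  specZIsTerminal.hom_ext a b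

/-- `QZ` is dominant -/
theorem dom_QZ : IsDominant QZ := by
  refine ⟨?_⟩
  have h : Function.Injective (algebraMap ℤ ℚ) := Int.cast_injective
  exact (PrimeSpectrum.denseRange_comap_iff_ker_le_nilRadical (algebraMap ℤ ℚ)).2
    (by rw [(RingHom.injective_iff_ker_eq_bot _).1 h]; exact bot_le)

/-- dominance of models of `X` -/
theorem dom_model {X Y : Scheme.{0}} [Nonempty X] (f : X ⟶ Spec (CommRingCat.of ℚ))
    (g : Y ⟶ Spec (CommRingCat.of ℤ)) (m : X ⟶ Y) (h : m ≫ g = f ≫ QZ) : IsDominant g := by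
  have h1 : Surjective f := by
    refine ⟨fun y => ?_⟩
    obtain ⟨x⟩ := (inferInstance : Nonempty X)
    exact ⟨x, Subsingleton.elim (α := PrimeSpectrum ℚ) _ _⟩
  have h2 : IsDominant f := inferInstance
  have h3 := dom_QZ
  have h4 : IsDominant (m ≫ g) := by
    rw [h]
    infer_instance
  exact IsDominant.of_comp m g

/-- two morphisms to `X'` which agree after `π` and map into `U` are equal, if `π` is an isomorphism
over `U` -/
theorem mono_over {T X X' : Scheme.{0}} (π : X' ⟶ X) (U : X.Opens) (hU : IsIso (π ∣_ U))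
    (a b : T ⟶ X') (h : a ≫ π = b ≫ π) (hT : ∀ t, (a ≫ π) t ∈ U) : a = b := by
  have ha : Set.range a ⊆ Set.range (π ⁻¹ᵁ U).ι := by
    rw [Scheme.Opens.range_ι]
    rintro _ ⟨t, rfl⟩
    exact hT t
  have hb : Set.range b ⊆ Set.range (π ⁻¹ᵁ U).ι := by
    rw [Scheme.Opens.range_ι]
    rintro _ ⟨t, rfl⟩
    have := hT t
    rw [h] at this
    exact this
  have e1 : IsOpenImmersion.lift (π ⁻¹ᵁ U).ι a ha ≫ (π ⁻¹ᵁ U).ι = a := IsOpenImmersion.lift_fac _ _ _
  have e2 : IsOpenImmersion.lift (π ⁻¹ᵁ U).ι b hb ≫ (π ⁻¹ᵁ U).ι = b := IsOpenImmersion.lift_fac _ _ _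
  have h3 : IsOpenImmersion.lift (π ⁻¹ᵁ U).ι a ha = IsOpenImmersion.lift (π ⁻¹ᵁ U).ι b hb := by
    rw [← cancel_mono (π ∣_ U), ← cancel_mono U.ι, Category.assoc, Category.assoc,
      morphismRestrict_ι, ← Category.assoc, ← Category.assoc, e1, e2, h]
  rw [← e1, ← e2, h3]

/-- the image of the generic fibre is regular -/
theorem image_reg {X : Scheme.{0}} (f : X ⟶ Spec (CommRingCat.of ℚ)) {F : Type}
    [Field F] [CharZero F] {M : Submodule ℤ F} (hM : M.FG) {g₀ : F} (hg₀ : g₀ ∈ M) (hg₀0 : g₀ ≠ 0)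
    (m₀ : X ⟶ model M) (hm₀ : IsPullback m₀ f (modelMap M) QZ)
    (hreg : ∀ x : X, IsRegularLocalRing (X.presheaf.stalk x)) (x : X) :
    RegAt (model M) (m₀ x) := by
  obtain ⟨G, hG⟩ := hM
  have hr := hreg x
  have hl : IsLocalRing (X.presheaf.stalk x) := inferInstance
  obtain ⟨g, hgG, hg0, j, γ, hj, -, hjγ⟩ := @h413_trait_chart ℤ F _ _ _ M G hG g₀ hg₀ hg₀0
    (X.presheaf.stalk x) _ hl (X.fromSpecStalk x ≫ m₀)
  have hgM : g ∈ M := by
    rw [← hG]
    exact Submodule.subset_span hgG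
  -- the closed point
  let c : Spec (X.presheaf.stalk x) := IsLocalRing.closedPoint (X.presheaf.stalk x)
  have hc : X.fromSpecStalk x c = x := Scheme.fromSpecStalk_closedPoint
  let P : PrimeSpectrum (chart ℤ M g).toSubring := (Spec.map (CommRingCat.ofHom γ)) c
  have hP : j P = m₀ x := by
    have h1 := congrArg (fun (h : Spec (X.presheaf.stalk x) ⟶ model M) => h c) hjγ
    simp only [Scheme.Hom.comp_apply] at h1
    rw [hc] at h1
    exact h1
  -- the ring homomorphism from `ℚ`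
  obtain ⟨φ, hφ⟩ := Spec.map_surjective (X.fromSpecStalk x ≫ f)
  have hP0 : ∀ t : ℕ, t ≠ 0 → (t : chart ℤ M g) ∉ P.asIdeal := by
    intro t ht hmem
    have h1 : γ (t : (chart ℤ M g).toSubring) ∈ IsLocalRing.maximalIdeal (X.presheaf.stalk x) := hmem
    rw [map_natCast] at h1
    have h2 : IsUnit ((t : ℕ) : X.presheaf.stalk x) := by
      have h3 : IsUnit ((t : ℕ) : ℚ) := IsUnit.mk0 _ (Nat.cast_ne_zero.2 ht)
      have h4 := h3.map φ.hom
      rwa [map_natCast] at h4
    exact (IsLocalRing.mem_maximalIdeal _).1 h1 h2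
  have hPr : P.asIdeal.IsPrime := P.isPrime
  have h5 : IsRegularLocalRing (Localization.AtPrime P.asIdeal) :=
    h413_chart_regular f hgM hg0 m₀ hm₀ hreg P.asIdeal hP0
  rw [← hP]
  exact regular_via j P h5

end H44NR

open H44NR in
theorem h413_neron_final {X : Scheme.{0}} [IsIntegral X] (f : X ⟶ Spec (CommRingCat.of ℚ)) {F : Type}
    [Field F] [CharZero F] {M : Submodule ℤ F} (hM : M.FG) {g₀ : F} (hg₀ : g₀ ∈ M) (hg₀0 : g₀ ≠ 0)
    (m₀ : X ⟶ model M) (hm₀ : IsPullback m₀ f (modelMap M) QZ)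
    (hreg : ∀ x : X, IsRegularLocalRing (X.presheaf.stalk x)) :
    ∃ (X' : Scheme.{0}) (g : X' ⟶ Spec (CommRingCat.of ℤ)) (m : X ⟶ X'), IsMod f g m ∧
      (∀ x, RegAt X' x) ∧ IsSeparated g ∧ LocallyOfFiniteType g ∧
      (∀ (R : Type) [CommRing R] [IsDomain R] [IsDiscreteValuationRing R] [CharZero R]
        (ψ : Spec (CommRingCat.of (FractionRing R)) ⟶ X),
        ∃! ψ' : Spec (CommRingCat.of R) ⟶ X',
          Spec.map (CommRingCat.ofHom (algebraMap R (FractionRing R))) ≫ ψ' = ψ ≫ m) ∧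
      ∃ V : ℕ → X'.Opens, Monotone V ∧ (∀ x, ∃ d, x ∈ V d) ∧
        (∀ d, ∃ (Y : Scheme.{0}) (gY : Y ⟶ Spec (CommRingCat.of ℤ)) (mY : X ⟶ Y)
          (j : (V d).toScheme ⟶ Y), IsMod f gY mY ∧ IsProper gY ∧ IsOpenImmersion j ∧
          (∀ y, y ∈ Set.range j ↔ RegAt Y y) ∧ j ≫ gY = (V d).ι ≫ g) ∧
        ∀ (d : ℕ) (R : Type) [CommRing R] [IsDomain R] [IsDiscreteValuationRing R],
          (∀ p : ℕ, p.Prime → (p : R) ∉ IsLocalRing.maximalIdeal R ^ (d + 1)) →
          ∀ ψ : Spec (CommRingCat.of (FractionRing R)) ⟶ X,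
          ∃ ψ' : Spec (CommRingCat.of R) ⟶ X',
            Spec.map (CommRingCat.ofHom (algebraMap R (FractionRing R))) ≫ ψ' = ψ ≫ m ∧
            Set.range ψ' ⊆ (V d : Set X') := by
  have hprop : IsProper (modelMap M) :=
    modelMap_isProper M (algebraMap ℤ F).injective_int hM
  obtain ⟨X', π, hX'int, hX'reg, hπsep, hπlft, ⟨U, hU, hUiso⟩, V, hVmono, hVcov, hVY, hlift⟩ :=
    h413_neron_union hM hg₀ hg₀0
      (fun g hg hg0 P _ hP => h413_chart_regular f hg hg0 m₀ hm₀ hreg P hP)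
  have hXU : ∀ x, m₀ x ∈ U := fun x => (hU _).2 (image_reg f hM hg₀ hg₀0 m₀ hm₀ hreg x)
  obtain ⟨m, hmπ, hmpb⟩ := h413_generic_fibre (modelMap M) m₀ f hm₀ π U hUiso hXU
  have hne : Nonempty X := inferInstance
  obtain ⟨x₀⟩ := hne
  have hne : Nonempty X := ⟨x₀⟩
  have hdom : IsDominant (π ≫ modelMap M) := dom_model f _ m hmpb.w
  have hsep : IsSeparated (π ≫ modelMap M) := inferInstance
  have hlft : LocallyOfFiniteType (π ≫ modelMap M) := inferInstance
  -- points extend to the model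
  have hext : ∀ (R : Type) [CommRing R] [IsDomain R] [IsDiscreteValuationRing R]
      (ψ : Spec (CommRingCat.of (FractionRing R)) ⟶ X), ∃ χ : Spec (CommRingCat.of R) ⟶ model M,
      Spec.map (CommRingCat.ofHom (algebraMap R (FractionRing R))) ≫ χ = ψ ≫ m₀ := by
    intro R _ _ _ ψ
    have h1 : UniversallyClosed (modelMap M) := inferInstance
    rw [UniversallyClosed.eq_valuativeCriterion] at h1
    have h2 : ValuativeCriterion.Existence (modelMap M) := h1.1
    have h3 := h2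
      { R := R, K := FractionRing R, i₁ := ψ ≫ m₀,
        i₂ := Spec.map (CommRingCat.ofHom (algebraMap ℤ R)), commSq := ⟨toZ_ext _ _⟩ }
    obtain ⟨l⟩ := h3.exists_lift
    exact ⟨l.l, l.fac_left⟩
  -- points extend to `X'`
  have hext2 : ∀ (d : ℕ) (R : Type) [CommRing R] [IsDomain R] [IsDiscreteValuationRing R],
      (∀ p : ℕ, p.Prime → (p : R) ∉ IsLocalRing.maximalIdeal R ^ (d + 1)) →
      ∀ ψ : Spec (CommRingCat.of (FractionRing R)) ⟶ X,
      ∃ ψ' : Spec (CommRingCat.of R) ⟶ X',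
        Spec.map (CommRingCat.ofHom (algebraMap R (FractionRing R))) ≫ ψ' = ψ ≫ m ∧
        Set.range ψ' ⊆ (V d : Set X') := by
    intro d R _ _ _ hram ψ
    obtain ⟨χ, hχ⟩ := hext R ψ
    obtain ⟨ψ', hψ', hψ'V⟩ := hlift d R χ hram
    refine ⟨ψ', mono_over π U hUiso _ _ ?_ ?_, hψ'V⟩
    · rw [Category.assoc, hψ', hχ, Category.assoc, hmπ]
    · intro t
      rw [Category.assoc, hψ', hχ]
      exact hXU _
  -- quasi-compactness
  have hln : IsLocallyNoetherian (model M) :=
    LocallyOfFiniteType.isLocallyNoetherian (modelMap M)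
  have hcs : CompactSpace (model M) := (quasiCompact_iff_compactSpace (modelMap M)).mp inferInstance
  have hno : IsNoetherian (model M) := { __ := hln }
  have hUc : IsCompact (U : Set (model M)) := TopologicalSpace.NoetherianSpace.isCompact _
  obtain ⟨d₀, hd₀⟩ := h413_iso_reg π U hUiso hUc ⟨m₀ x₀, hXU x₀⟩ V hVmono hVcov
  refine ⟨X', π ≫ modelMap M, m, ⟨hX'int, h413_flat_of_dominant _ hdom, hmpb⟩, hX'reg, hsep, hlft, ?_,
    fun d => V (d + d₀), ?_, ?_, ?_, ?_⟩
  · intro R _ _ _ _ ψ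
    obtain ⟨d, hd⟩ := exists_ramification R
    obtain ⟨ψ', hψ', -⟩ := hext2 d R hd ψ
    refine ⟨ψ', hψ', fun ψ'' hψ'' => ?_⟩
    have hdi : IsDominant (Spec.map (CommRingCat.ofHom (algebraMap R (FractionRing R)))) := by
      refine ⟨?_⟩
      have h : Function.Injective (algebraMap R (FractionRing R)) :=
        IsFractionRing.injective R (FractionRing R)
      exact (PrimeSpectrum.denseRange_comap_iff_ker_le_nilRadical
        (algebraMap R (FractionRing R))).2
        (by rw [(RingHom.injective_iff_ker_eq_bot _).1 h]; exact bot_le)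
    exact ext_of_isDominant_of_isSeparated (π ≫ modelMap M) (toZ_ext _ _)
      (Spec.map (CommRingCat.ofHom (algebraMap R (FractionRing R)))) (hψ''.trans hψ'.symm)
  · intro a b hab
    exact hVmono (Nat.add_le_add_right hab d₀)
  · intro x
    obtain ⟨d, hd⟩ := hVcov x
    exact ⟨d, hVmono (Nat.le_add_right d d₀) hd⟩
  · intro d
    obtain ⟨Y, b, j, hYint, hb, hj, hjr, hjb⟩ := hVY (d + d₀)
    have hiso : IsIso (b ∣_ U) :=
      hd₀ (d + d₀) (Nat.le_add_left d₀ d) Y b j hYint inferInstance hj hjb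
    obtain ⟨mY, hmY, hmYpb⟩ := h413_generic_fibre (modelMap M) m₀ f hm₀ b U hiso hXU
    have hdomY : IsDominant (b ≫ modelMap M) := dom_model f _ mY hmYpb.w
    refine ⟨Y, b ≫ modelMap M, mY, j, ⟨hYint, h413_flat_of_dominant _ hdomY, hmYpb⟩, inferInstance, hj,
      hjr, ?_⟩
    rw [← Category.assoc, hjb, Category.assoc]
  · intro d R _ _ _ hram ψ
    obtain ⟨ψ', h1, h2⟩ := hext2 d R hram ψ
    exact ⟨ψ', h1, h2.trans (hVmono (Nat.le_add_right d d₀))⟩

end Pool.Agent.H413.XT
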