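import Pool.Agent.H413.XT.Defs

/-!
# Models over the integers
-/

set_option autoImplicit false

open AlgebraicGeometry CategoryTheory Limits

namespace Pool.Agent.H413.XT

/-- The morphism from `Spec ℚ` to `Spec ℤ`. -/
noncomputable def QZ : Spec (CommRingCat.of ℚ) ⟶ Spec (CommRingCat.of ℤ) :=
  Spec.map (CommRingCat.ofHom (algebraMap ℤ ℚ))

/-- `Y` with `g : Y → Spec ℤ` and `m : X → Y` is an integral flat model of the scheme `X` over `ℚ`. -/
def IsMod {X Y : Scheme.{0}} (f : X ⟶ Spec (CommRingCat.of ℚ)) (g : Y ⟶ Spec (CommRingCat.of ℤ))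
    (m : X ⟶ Y) : Prop :=
  IsIntegral Y ∧ Flat g ∧ IsPullback m f g QZ

end Pool.Agent.H413.XT
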