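import Mathlib

/-!
# Gluing a chain of open immersions (XT1)
-/

set_option autoImplicit false

open AlgebraicGeometry CategoryTheory Limits

namespace Pool.Agent.H413.XT

namespace XCH

variable {Y : ℕ → Scheme.{0}} (φ : ∀ d, Y d ⟶ Y (d + 1))

theorem map_open (hφ : ∀ d, IsOpenImmersion (φ d)) {i j : ℕ} (f : i ⟶ j) :
    IsOpenImmersion ((Functor.ofSequence φ).map f) := by
  obtain ⟨k, hk⟩ := Nat.exists_eq_add_of_le (leOfHom f)
  subst hk
  induction k with
  | zero =>
      have : f = 𝟙 _ := Subsingleton.elim _ _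
      subst this
      rw [CategoryTheory.Functor.map_id]
      infer_instance
  | succ k ih =>
      have h1 : f = homOfLE (Nat.le_add_right i k) ≫ homOfLE (Nat.le_add_right (i + k) 1) :=
        Subsingleton.elim _ _
      rw [h1, Functor.map_comp]
      have h2 := ih (homOfLE (Nat.le_add_right i k))
      have h3 : IsOpenImmersion ((Functor.ofSequence φ).map (homOfLE (Nat.le_add_right (i + k) 1))) := by
        rw [Functor.ofSequence_map_homOfLE_succ]
        exact hφ _
      exact IsOpenImmersion.comp _ _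

theorem loc_dir (hφ : ∀ d, IsOpenImmersion (φ d)) :
    (Functor.ofSequence φ ⋙ Scheme.forget).IsLocallyDirected := by
  constructor
  have key : ∀ {i j k : ℕ} (fi : i ⟶ k) (fj : j ⟶ k)
      (xi : (Functor.ofSequence φ ⋙ Scheme.forget).obj i)
      (xj : (Functor.ofSequence φ ⋙ Scheme.forget).obj j), i ≤ j →
      (Functor.ofSequence φ ⋙ Scheme.forget).map fi xi =
        (Functor.ofSequence φ ⋙ Scheme.forget).map fj xj →
      ∃ (l : ℕ) (fli : l ⟶ i) (flj : l ⟶ j) (x : _),
        (Functor.ofSequence φ ⋙ Scheme.forget).map fli x = xi ∧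
        (Functor.ofSequence φ ⋙ Scheme.forget).map flj x = xj := by
    intro i j k fi fj xi xj hij h
    refine ⟨i, 𝟙 _, homOfLE hij, xi, ?_, ?_⟩
    · rw [CategoryTheory.Functor.map_id]
      rfl
    · have h1 := map_open φ hφ fj
      have h2 : Function.Injective ((Functor.ofSequence φ).map fj) :=
        ((Functor.ofSequence φ).map fj).isOpenEmbedding.injective
      apply h2
      have h3 : fi = homOfLE hij ≫ fj := Subsingleton.elim _ _
      rw [h3, Functor.map_comp] at h
      exact h
  intro i j k fi fj xi xj h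
  rcases le_total i j with hij | hij
  · exact key fi fj xi xj hij h
  · obtain ⟨l, a, b, x, h1, h2⟩ := key fj fi xj xi hij h.symm
    exact ⟨l, b, a, x, h2, h1⟩

end XCH

theorem h413_chain (Y : ℕ → Scheme.{0}) (X : Scheme.{0}) (φ : ∀ d, Y d ⟶ Y (d + 1))
    (hφ : ∀ d, IsOpenImmersion (φ d)) (π : ∀ d, Y d ⟶ X) (hπ : ∀ d, φ d ≫ π (d + 1) = π d)
    (hint : ∀ d, IsIntegral (Y d)) (hsep : ∀ d, IsSeparated (π d))
    (hft : ∀ d, LocallyOfFiniteType (π d)) :
    ∃ (Y' : Scheme.{0}) (ι : ∀ d, Y d ⟶ Y') (π' : Y' ⟶ X), (∀ d, IsOpenImmersion (ι d)) ∧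
      (∀ d, φ d ≫ ι (d + 1) = ι d) ∧ (∀ y : Y', ∃ d, y ∈ Set.range (ι d)) ∧
      (∀ d, ι d ≫ π' = π d) ∧ IsIntegral Y' ∧ IsSeparated π' ∧ LocallyOfFiniteType π' := by
  let F : ℕ ⥤ Scheme.{0} := Functor.ofSequence φ
  have h1 : ∀ {i j : ℕ} (f : i ⟶ j), IsOpenImmersion (F.map f) := fun f => XCH.map_open φ hφ f
  have h2 : (F ⋙ Scheme.forget).IsLocallyDirected := XCH.loc_dir φ hφ
  let ι : ∀ d, Y d ⟶ colimit F := fun d => colimit.ι F d
  let c : Cocone F := ⟨X, NatTrans.ofSequence π (fun n =>
    (congrArg (fun z => z ≫ π (n + 1)) (Functor.ofSequence_map_homOfLE_succ φ n)).trans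
      ((hπ n).trans (Category.comp_id (π n)).symm))⟩
  let π' : colimit F ⟶ X := colimit.desc F c
  have hι : ∀ d, IsOpenImmersion (ι d) := fun d =>
    inferInstanceAs (IsOpenImmersion (colimit.ι F d))
  have hw : ∀ d, φ d ≫ ι (d + 1) = ι d := by
    intro d
    have := colimit.w F (homOfLE (Nat.le_add_right d 1))
    rw [Functor.ofSequence_map_homOfLE_succ] at this
    exact this
  have hcov : ∀ y : (colimit F : Scheme.{0}), ∃ d, y ∈ Set.range (ι d) := by
    intro y
    obtain ⟨i, xi, h⟩ := Scheme.IsLocallyDirected.ι_jointly_surjective F y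
    exact ⟨i, xi, h⟩
  have hd : ∀ d, ι d ≫ π' = π d := fun d => colimit.ι_desc c d
  -- the ranges are increasing
  have hmono : ∀ d e, d ≤ e → Set.range (ι d) ⊆ Set.range (ι e) := by
    intro d e hde
    rintro _ ⟨y, rfl⟩
    have h3 := colimit.w F (homOfLE hde)
    refine ⟨F.map (homOfLE hde) y, ?_⟩
    have h4 : ι d y = (F.map (homOfLE hde) ≫ colimit.ι F e) y := by
      rw [h3]
      rfl
    rw [h4]
    rfl
  have hcov2 : ∀ y z : (colimit F : Scheme.{0}), ∃ d, y ∈ Set.range (ι d) ∧ z ∈ Set.range (ι d) := by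
    intro y z
    obtain ⟨d, hy⟩ := hcov y
    obtain ⟨e, hz⟩ := hcov z
    exact ⟨max d e, hmono _ _ (le_max_left _ _) hy, hmono _ _ (le_max_right _ _) hz⟩
  refine ⟨colimit F, ι, π', hι, hw, hcov, hd, ?_, ?_, ?_⟩
  · rw [isIntegral_iff_irreducibleSpace_and_isReduced]
    constructor
    · have hne : Nonempty (colimit F : Scheme.{0}) := by
        obtain ⟨y⟩ := (hint 0).nonempty
        exact ⟨ι 0 y⟩
      have hpre : PreirreducibleSpace (colimit F : Scheme.{0}) := by
        constructor
        intro U V hU hV hUn hVn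
        obtain ⟨u, -, hu⟩ := hUn
        obtain ⟨v, -, hv⟩ := hVn
        obtain ⟨d, ⟨u', rfl⟩, ⟨v', rfl⟩⟩ := hcov2 u v
        have hirr : IrreducibleSpace (Y d) := irreducibleSpace_of_isIntegral (Y d)
        have hc : Continuous (ι d) := (ι d).continuous
        obtain ⟨w, -, hw1, hw2⟩ := hirr.isPreirreducible_univ _ _ (hU.preimage hc) (hV.preimage hc)
          ⟨u', trivial, hu⟩ ⟨v', trivial, hv⟩
        exact ⟨ι d w, trivial, hw1, hw2⟩
      exact { toPreirreducibleSpace := hpre, toNonempty := hne }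
    · have : ∀ i, IsReduced ((Scheme.IsLocallyDirected.openCover F).X i) := fun i => by
        have := hint i
        exact inferInstanceAs (IsReduced (Y i))
      exact IsReduced.of_openCover _ (Scheme.IsLocallyDirected.openCover F)
  · constructor
    apply IsClosedImmersion.of_isPreimmersion
    rw [← isOpen_compl_iff, isOpen_iff_forall_mem_open]
    intro z hz
    obtain ⟨d, hd1, hd2⟩ := hcov2 (pullback.fst π' π' z) (pullback.snd π' π' z)
    have := hι d
    let j : pullback (π d) (π d) ⟶ pullback π' π' :=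
      pullback.map (π d) (π d) π' π' (ι d) (ι d) (𝟙 X) (by rw [hd, Category.comp_id])
        (by rw [hd, Category.comp_id])
    have hj : IsOpenImmersion j := inferInstance
    have hr : z ∈ Set.range j := by
      rw [Scheme.Pullback.range_map]
      exact ⟨hd1, hd2⟩
    obtain ⟨w, rfl⟩ := hr
    have hcl : IsClosed (Set.range (pullback.diagonal (π d))) :=
      (hsep d).isClosedImmersion_diagonal.isClosedEmbedding.isClosed_range
    have hj1 : j ≫ pullback.fst π' π' = pullback.fst (π d) (π d) ≫ ι d := pullback.lift_fst _ _ _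
    have hj2 : j ≫ pullback.snd π' π' = pullback.snd (π d) (π d) ≫ ι d := pullback.lift_snd _ _ _
    have hcomm : pullback.diagonal (π d) ≫ j = ι d ≫ pullback.diagonal π' := by
      apply pullback.hom_ext
      · rw [Category.assoc, hj1, Category.assoc, pullback.diagonal_fst, Category.comp_id,
          ← Category.assoc, pullback.diagonal_fst, Category.id_comp]
      · rw [Category.assoc, hj2, Category.assoc, pullback.diagonal_snd, Category.comp_id,
          ← Category.assoc, pullback.diagonal_snd, Category.id_comp]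
    refine ⟨j '' (Set.range (pullback.diagonal (π d)))ᶜ, ?_, ?_, ⟨w, ?_, rfl⟩⟩
    · rintro _ ⟨v, hv, rfl⟩ ⟨y, hy⟩
      apply hv
      have e1 : y = ι d (pullback.fst (π d) (π d) v) := by
        have e2 : pullback.fst π' π' (pullback.diagonal π' y) = y := by
          rw [← Scheme.Hom.comp_apply, pullback.diagonal_fst]
          rfl
        rw [hy] at e2
        rw [← e2, ← Scheme.Hom.comp_apply, hj1]
        rfl
      refine ⟨pullback.fst (π d) (π d) v, ?_⟩
      apply j.isOpenEmbedding.injective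
      rw [← Scheme.Hom.comp_apply, hcomm, Scheme.Hom.comp_apply, ← e1, hy]
    · exact j.isOpenEmbedding.isOpenMap _ hcl.isOpen_compl
    · rintro ⟨y, hy⟩
      apply hz
      refine ⟨ι d y, ?_⟩
      rw [← hy, ← Scheme.Hom.comp_apply, ← Scheme.Hom.comp_apply, hcomm]
  · have h6 : IsZariskiLocalAtSource (@LocallyOfFiniteType) :=
      HasRingHomProperty.instIsZariskiLocalAtSource (Q := RingHom.FiniteType)
    rw [IsZariskiLocalAtSource.iff_of_openCover (P := @LocallyOfFiniteType)
      (Scheme.IsLocallyDirected.openCover F)]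
    intro i
    have h5 : (Scheme.IsLocallyDirected.openCover F).f i ≫ π' = π i := hd i
    rw [h5]
    exact hft i

end Pool.Agent.H413.XT
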