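import Pool.Agent.H413.XT.X5

/-!
# XT12: the union of the regular loci of a tower, with the filtration (by helper581 for helper413)
-/

set_option autoImplicit false
set_option linter.unusedVariables false
set_option linter.unusedSectionVars false

open AlgebraicGeometry CategoryTheory Limits

namespace Pool.Agent.H413.XT

open Pool.Agent.TH188.ARC Pool.Agent.H918R2.Quad Pool.Agent.H968R2.Quad Pool.Agent.W559.GF
  Pool.Agent.W930.GF Pool.Agent.W191.GF

theorem xt12_range {X X' : Scheme.{0}} (U : X.Opens) (ι : U.toScheme ⟶ X') [IsOpenImmersion ι]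
    (z : X) : z ∈ Set.range (ι.isoOpensRange.inv ≫ U.ι) ↔ z ∈ U := by
  constructor
  · rintro ⟨x, rfl⟩
    rw [Scheme.Hom.comp_apply]
    exact (ι.isoOpensRange.inv x).2
  · intro hz
    let u : U.toScheme := ⟨z, hz⟩
    refine ⟨ι.isoOpensRange.hom u, ?_⟩
    rw [← Scheme.Hom.comp_apply, Iso.hom_inv_id_assoc]
    rfl

open H348 in
/-- XT12. -/
theorem h413_tower2 {R F : Type} [CommRing R] [Field F] (X : ℕ → Scheme.{0})
    (f : ∀ d, X d ⟶ Spec (CommRingCat.of R)) (hint : ∀ d, IsIntegral (X d))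
    (hsep : ∀ d, IsSeparated (f d)) (hft : ∀ d, LocallyOfFiniteType (f d))
    (η : ∀ d, Spec (CommRingCat.of F) ⟶ X d) (hη : ∀ d, η d ≫ f d = η 0 ≫ f 0)
    (b : ∀ d, X d ⟶ X 0) (hbη : ∀ d, η d ≫ b d = η 0) (hbf : ∀ d, b d ≫ f 0 = f d)
    (hcov : ∀ d z, RegAt (X d) z → ∃ A : Subring F, RegR A ∧ AffAt (η d) A z ∧
      Aff (η (d + 1)) A ∧ Mp (η 0) A) :
    ∃ (X' : Scheme.{0}) (π : X' ⟶ X 0), IsIntegral X' ∧ (∀ x, RegAt X' x) ∧ IsSeparated π ∧
      LocallyOfFiniteType π ∧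
      (∃ U : (X 0).Opens, (∀ z, z ∈ U ↔ RegAt (X 0) z) ∧ IsIso (π ∣_ U)) ∧
      ∃ V : ℕ → X'.Opens, Monotone V ∧ (∀ x, ∃ d, x ∈ V d) ∧
        (∀ d, ∃ j : (V d).toScheme ⟶ X d, IsOpenImmersion j ∧
          (∀ z, z ∈ Set.range j ↔ RegAt (X d) z) ∧ j ≫ b d = (V d).ι ≫ π) ∧
        ∀ (d : ℕ) (A : Subring F) (j : Spec (CommRingCat.of A) ⟶ X d), IsOpenImmersion j →
          io A ≫ j = η d → ∀ j₀ : Spec (CommRingCat.of A) ⟶ X 0, io A ≫ j₀ = η 0 →
          ∀ (R' : Type) [CommRing R'] [IsLocalRing R'] (χ : A →+* R'),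
            IsRegularLocalRing (Localization.AtPrime ((IsLocalRing.maximalIdeal R').comap χ)) →
            ∃ χ' : Spec (CommRingCat.of R') ⟶ X',
              χ' ≫ π = Spec.map (CommRingCat.ofHom χ) ≫ j₀ ∧ Set.range χ' ⊆ (V d : Set X') := by
  classical
  -- the charts
  let 𝒜 : ℕ → Set (Subring F) := fun d =>
    {A | RegR A ∧ Aff (η d) A ∧ Aff (η (d + 1)) A ∧ Mp (η 0) A}
  have hne : ∀ d, (𝒜 d).Nonempty := by
    intro d
    obtain ⟨A, h1, ⟨j, hj, hjη, -⟩, h3, h4⟩ := hcov d _ (regAt_generic (X d))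
    exact ⟨A, h1, ⟨j, hj, hjη⟩, h3, h4⟩
  have hU : ∀ d, ∃ (U : (X d).Opens) (ηU : Spec (CommRingCat.of F) ⟶ U.toScheme)
      (φ : U.toScheme ⟶ X (d + 1)),
      (∀ z, z ∈ U ↔ ∃ A ∈ 𝒜 d, AffAt (η d) A z) ∧ ηU ≫ U.ι = η d ∧
      AtlasAt ηU (fun A : 𝒜 d => A.1) ∧ IsOpenImmersion φ ∧ φ ≫ f (d + 1) = U.ι ≫ f d ∧
      ηU ≫ φ = η (d + 1) ∧
      ∀ z', z' ∈ Set.range φ ↔ ∃ A ∈ 𝒜 d, AffAt (η (d + 1)) A z' := by
    intro d
    exact h413_union (hsep d) (hsep (d + 1)) ((hη d).trans (hη (d + 1)).symm) (𝒜 d) (hne d)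
      (fun A hA => hA.2.1) (fun A hA => hA.2.2.1)
  choose U ηU φ hUA hηU hat hφ hφf hηφ hrange using hU
  have hUreg : ∀ d z, z ∈ U d ↔ RegAt (X d) z := by
    intro d z
    rw [hUA d z]
    constructor
    · rintro ⟨A, hA, h⟩
      exact regAt_of_chart hA.1 h
    · intro h
      obtain ⟨A, h1, h2, h3, h4⟩ := hcov d z h
      obtain ⟨j, hj, hjη, hz⟩ := h2
      exact ⟨A, ⟨h1, ⟨j, hj, hjη⟩, h3, h4⟩, ⟨j, hj, hjη, hz⟩⟩
  have hUne : ∀ d, Nonempty (U d).toScheme := by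
    intro d
    exact ⟨⟨genericPoint (X d), (hUreg d _).2 (regAt_generic (X d))⟩⟩
  have hUint : ∀ d, IsIntegral (U d).toScheme := by
    intro d
    exact isIntegral_of_isOpenImmersion (U d).ι
  -- the generic point is dense
  have hdη : ∀ d, IsDominant (η d) := by
    intro d
    obtain ⟨A, -, ⟨j, hj, hjη⟩, -, -⟩ := hne d
    have h1 := dom_io A
    have h2 : Nonempty (Spec (CommRingCat.of A)) := (inferInstance : Nonempty (PrimeSpectrum A))
    have h3 : IsDominant j := dom_of_open j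
    rw [← hjη]
    infer_instance
  have hdU : ∀ d, IsDominant (ηU d) := by
    intro d
    have h1 : IsDominant (ηU d ≫ (U d).ι) := by
      rw [hηU d]
      exact hdη d
    exact IsDominant.of_comp_of_isOpenImmersion (ηU d) (U d).ι
  -- the embeddings
  have hφ' : ∀ d, ∃ φ' : (U d).toScheme ⟶ (U (d + 1)).toScheme, φ' ≫ (U (d + 1)).ι = φ d := by
    intro d
    refine ⟨IsOpenImmersion.lift (U (d + 1)).ι (φ d) ?_, IsOpenImmersion.lift_fac _ _ _⟩
    rw [Scheme.Opens.range_ι]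
    intro z hz
    obtain ⟨A, hA, h⟩ := (hrange d z).1 hz
    exact (hUreg (d + 1) z).2 (regAt_of_chart hA.1 h)
  choose φ' hφι using hφ'
  have hφ'o : ∀ d, IsOpenImmersion (φ' d) := by
    intro d
    have h1 : IsOpenImmersion (φ' d ≫ (U (d + 1)).ι) := by
      rw [hφι d]
      exact hφ d
    exact IsOpenImmersion.of_comp (φ' d) (U (d + 1)).ι
  have hηφ' : ∀ d, ηU d ≫ φ' d = ηU (d + 1) := by
    intro d
    rw [← cancel_mono (U (d + 1)).ι, Category.assoc, hφι, hηφ, hηU]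
  -- the morphisms to the bottom
  have hπ : ∀ d, ∃ π : (U d).toScheme ⟶ X 0, ηU d ≫ π = η 0 ∧ π ≫ f 0 = (U d).ι ≫ f d := by
    intro d
    obtain ⟨j, hj, hjη, hjc⟩ := (hat d).charts
    have hM : ∀ t : 𝒜 d, ∃ j' : Spec (CommRingCat.of t.1) ⟶ X 0, io t.1 ≫ j' = η 0 :=
      fun t => t.2.2.2.2
    choose j' hj' using hM
    have h0 := hsep 0
    have hjj : ∀ t, j t ≫ (U d).ι ≫ f d = j' t ≫ f 0 := by
      intro t
      apply io_mono
      rw [← Category.assoc, hjη t, ← Category.assoc, hηU d, ← Category.assoc, hj' t, hη d]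
    obtain ⟨π, hπ⟩ := glue ((U d).ι ≫ f d) (f 0) (fun A : 𝒜 d => A.1) (ηU d) (η 0) j hj hjc hjη
      j' hj' hjj
    have h1 : ηU d ≫ π = η 0 := by
      obtain ⟨A, hA⟩ := hne d
      rw [← hjη ⟨A, hA⟩, Category.assoc, hπ, hj']
    refine ⟨π, h1, ?_⟩
    have h2 := hdU d
    have h3 := hUint d
    refine ext_of_isDominant_of_isSeparated (terminal.from _) (terminal.hom_ext _ _) (ηU d) ?_
    rw [← Category.assoc, h1, ← Category.assoc, hηU d, hη d]
  choose π hπη hπf using hπ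
  have hπsep : ∀ d, IsSeparated (π d) := by
    intro d
    have h0 := hsep d
    have h1 : IsSeparated (π d ≫ f 0) := by
      rw [hπf d]
      infer_instance
    exact IsSeparated.of_comp (π d) (f 0)
  have hπft : ∀ d, LocallyOfFiniteType (π d) := by
    intro d
    have h0 := hft d
    have h1 : LocallyOfFiniteType (π d ≫ f 0) := by
      rw [hπf d]
      infer_instance
    exact locallyOfFiniteType_of_comp (π d) (f 0)
  have hφπ : ∀ d, φ' d ≫ π (d + 1) = π d := by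
    intro d
    have h0 := hsep 0
    have h2 := hdU d
    have h3 := hUint d
    refine ext_of_isDominant_of_isSeparated (f 0) ?_ (ηU d) ?_
    · rw [Category.assoc, hπf, hπf, ← Category.assoc, hφι, hφf]
    · rw [← Category.assoc, hηφ', hπη, hπη]
  have hπ0 : π 0 = (U 0).ι := by
    have h0 := hsep 0
    have h2 := hdU 0
    have h3 := hUint 0
    refine ext_of_isDominant_of_isSeparated (f 0) (hπf 0) (ηU 0) ?_
    rw [hπη, hηU]
  obtain ⟨X', ι, π', hι, hφι', hcov', hιπ, hX', hsep', hft'⟩ :=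
    h413_chain (fun d => (U d).toScheme) (X 0) φ' hφ'o π hφπ hUint hπsep hπft
  have hbπ : ∀ d, (U d).ι ≫ b d = π d := by
    intro d
    have h0 := hsep 0
    have h2 := hdU d
    have h3 := hUint d
    refine ext_of_isDominant_of_isSeparated (f 0) ?_ (ηU d) ?_
    · rw [Category.assoc, hbf, hπf]
    · rw [← Category.assoc, hηU, hbη, hπη]
  refine ⟨X', π', hX', ?_, hsep', hft', ⟨U 0, hUreg 0, ?_⟩,
    fun d => @Scheme.Hom.opensRange _ _ (ι d) (hι d), ?_, hcov', ?_, ?_⟩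
  · intro x
    obtain ⟨d, y, rfl⟩ := hcov' x
    have h1 := hι d
    rw [regAt_iff, ← regAt_iff (U d).ι, ← hUreg d]
    exact y.2
  · refine h413_iso_over π' hsep' (U 0) ?_ (ι 0) (hι 0) ?_
    · exact ⟨genericPoint (X 0), (hUreg 0 _).2 (regAt_generic (X 0))⟩
    · rw [hιπ, hπ0]
  · refine monotone_nat_of_le_succ fun d => ?_
    rintro _ ⟨y, rfl⟩
    refine ⟨φ' d y, ?_⟩
    rw [← Scheme.Hom.comp_apply, hφι']
  · intro d
    have hιd := hι d
    refine ⟨(ι d).isoOpensRange.inv ≫ (U d).ι, inferInstance, fun z => ?_, ?_⟩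
    · rw [← hUreg d z]
      exact xt12_range (U d) (ι d) z
    · rw [Category.assoc, hbπ, ← hιπ, ← Category.assoc]
      congr 1
      exact Scheme.Hom.isoOpensRange_inv_comp (ι d)
  · intro d A j hj hjη j₀ hj₀ R' _ _ χ hreg
    let ψ : Spec (CommRingCat.of R') ⟶ Spec (CommRingCat.of A) := Spec.map (CommRingCat.ofHom χ)
    let c : PrimeSpectrum R' := IsLocalRing.closedPoint R'
    have hc : j (ψ c) ∈ U d := by
      rw [hUreg]
      exact regular_via j (ψ c) hreg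
    let W : (Spec (CommRingCat.of A)).Opens := j ⁻¹ᵁ (U d)
    have hcW : ψ c ∈ W := hc
    let χW : Spec (CommRingCat.of R') ⟶ W.toScheme :=
      IsOpenImmersion.lift W.ι ψ (range_subset ψ W hcW)
    have hχW : χW ≫ W.ι = ψ := IsOpenImmersion.lift_fac _ _ _
    let jW : W.toScheme ⟶ (U d).toScheme := IsOpenImmersion.lift (U d).ι (W.ι ≫ j) (by
      rw [Scheme.Opens.range_ι]
      rintro _ ⟨x, rfl⟩
      exact x.2)
    have hjW : jW ≫ (U d).ι = W.ι ≫ j := IsOpenImmersion.lift_fac _ _ _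
    refine ⟨χW ≫ jW ≫ ι d, ?_, ?_⟩
    swap
    · rintro _ ⟨x, rfl⟩
      exact ⟨(χW ≫ jW) x, by rw [← Scheme.Hom.comp_apply, Category.assoc]⟩
    have key : jW ≫ π d = W.ι ≫ j₀ := by
      have hA := dom_io A
      have hWr : Set.range (io A) ⊆ Set.range W.ι := by
        rw [Scheme.Opens.range_ι]
        rintro _ ⟨x, rfl⟩
        obtain ⟨_, h1, ⟨y, rfl⟩⟩ := dense_iff_inter_open.1 (io_dense A) W W.isOpen ⟨_, hcW⟩
        have h2 : x = y := Subsingleton.elim (α := PrimeSpectrum F) x y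
        rw [h2]
        exact h1
      let ηW : Spec (CommRingCat.of F) ⟶ W.toScheme := IsOpenImmersion.lift W.ι (io A) hWr
      have hηW : ηW ≫ W.ι = io A := IsOpenImmersion.lift_fac _ _ _
      have hd : IsDominant ηW := by
        have h1 : IsDominant (ηW ≫ W.ι) := by
          rw [hηW]
          exact hA
        exact IsDominant.of_comp_of_isOpenImmersion ηW W.ι
      have h0 := hsep 0
      refine ext_of_isDominant_of_isSeparated (f 0) ?_ ηW ?_
      · rw [Category.assoc, hπf, ← Category.assoc, hjW, Category.assoc, Category.assoc]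
        congr 1
        apply io_mono
        rw [← Category.assoc, hjη, ← Category.assoc, hj₀, hη]
      · have h1 : ηW ≫ jW = ηU d := by
          rw [← cancel_mono (U d).ι, Category.assoc, hjW, ← Category.assoc, hηW, hjη, hηU]
        rw [← Category.assoc, h1, hπη, ← Category.assoc, hηW, hj₀]
    rw [Category.assoc, Category.assoc, hιπ, key, ← Category.assoc, hχW]

end Pool.Agent.H413.XT
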