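import Pool.Graph.R_seed8.TH188.ARC.G5
import Pool.Graph.R_seed8.TH188.ARC.A7

/-!
# Integral projective schemes over a commutative ring are models

The first part generalises Pool/Graph/R_seed8/TH188/ARC/G4.lean from fields to commutative rings.
-/

set_option autoImplicit false
set_option linter.unusedVariables false
set_option linter.unusedSectionVars false

open AlgebraicGeometry CategoryTheory Limits Pointwise HomogeneousLocalization

namespace Pool.Agent.H413.XT.PM14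

open Pool.Agent.TH188.ARC Pool.Agent.H918R2.Quad Pool.Agent.H968R2.Quad Pool.Agent.W559.GF
  Pool.Agent.W930.GF Pool.Agent.W191.GF

section

variable {K A : Type} [CommRing K] [CommRing A] [Algebra K A] (𝒜 : ℕ → Submodule K A)
  [GradedAlgebra 𝒜]

/-- the element `b / a` -/
noncomputable def rat {a b : A} (ha : a ∈ 𝒜 1) (hb : b ∈ 𝒜 1) : Away 𝒜 a :=
  Away.mk 𝒜 ha 1 b (by simpa using hb)

lemma rat_eq {a b : A} (ha : a ∈ 𝒜 1) (hb : b ∈ 𝒜 1) :
    Away.isLocalizationElem ha hb = rat 𝒜 ha hb := by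
  ext
  simp [rat]

lemma rat_mul {a b c : A} (ha : a ∈ 𝒜 1) (hb : b ∈ 𝒜 1) (hc : c ∈ 𝒜 1) {x : A} (hx : x = a * c)
    (hx' : x = c * a) :
    awayMap 𝒜 hc hx (rat 𝒜 ha hb) =
      awayMap 𝒜 ha hx' (rat 𝒜 hc hb) * awayMap 𝒜 hc hx (rat 𝒜 ha hc) := by
  unfold rat
  ext
  rw [awayMap_mk, awayMap_mk, awayMap_mk, HomogeneousLocalization.val_mul]
  simp only [Away.val_mk, Localization.mk_mul]
  rw [Localization.mk_eq_mk_iff, Localization.r_iff_exists]
  use 1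
  simp only [OneMemClass.coe_one, one_mul, Submonoid.coe_mul, hx]
  ring

lemma mk_prod {ι : Type} [Fintype ι] {a : A} (ha : a ∈ 𝒜 1) (v : ι → A) (hv : ∀ i, v i ∈ 𝒜 1)
    (n : ℕ) (m : ι → ℕ) (hm : ∑ i, m i = n) (h : ∏ i, v i ^ m i ∈ 𝒜 (n • 1)) :
    Away.mk 𝒜 ha n (∏ i, v i ^ m i) h = ∏ i, rat 𝒜 ha (hv i) ^ m i := by
  apply (show Function.Injective (algebraMap (Away 𝒜 a) (Localization.Away a))
      from HomogeneousLocalization.val_injective _)
  simp only [map_pow, map_prod]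
  simp only [HomogeneousLocalization.algebraMap_apply, Away.val_mk, rat,
    Localization.mk_pow, Localization.mk_prod]
  congr 1
  apply Subtype.ext
  simp [Finset.prod_pow_eq_pow_sum, hm]

variable {F : Type} [Field F] (η : Spec (CommRingCat.of F) ⟶ Proj 𝒜)

lemma rho_comp {a c x : A} (ha : a ∈ 𝒜 1) (hc : c ∈ 𝒜 1) (hx : x = a * c)
    (hxm : x ∈ 𝒜 (1 + 1)) (ρa : Away 𝒜 a →+* F)
    (ha' : Spec.map (CommRingCat.ofHom ρa) ≫ Proj.awayι 𝒜 a ha one_pos = η)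
    (ρx : Away 𝒜 x →+* F)
    (hx' : Spec.map (CommRingCat.ofHom ρx) ≫ Proj.awayι 𝒜 x hxm (by norm_num) = η) :
    ρx.comp (awayMap 𝒜 hc hx) = ρa := by
  have h1 : Spec.map (CommRingCat.ofHom (ρx.comp (awayMap 𝒜 hc hx))) =
      Spec.map (CommRingCat.ofHom ρa) := by
    rw [← cancel_mono (Proj.awayι 𝒜 a ha one_pos), ha', CommRingCat.ofHom_comp, Spec.map_comp,
      Category.assoc, Proj.SpecMap_awayMap_awayι 𝒜 ha one_pos hc hx]
    exact hx'
  have h2 := Spec.map_injective h1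
  exact congrArg (fun g => g.hom) h2

lemma rho_rat {a b c : A} (ha : a ∈ 𝒜 1) (hb : b ∈ 𝒜 1) (hc : c ∈ 𝒜 1) (ρa : Away 𝒜 a →+* F)
    (ha' : Spec.map (CommRingCat.ofHom ρa) ≫ Proj.awayι 𝒜 a ha one_pos = η)
    (ρc : Away 𝒜 c →+* F)
    (hc' : Spec.map (CommRingCat.ofHom ρc) ≫ Proj.awayι 𝒜 c hc one_pos = η) :
    ρa (rat 𝒜 ha hb) = ρc (rat 𝒜 hc hb) * ρa (rat 𝒜 ha hc) := by
  have hma : η (thePt F) ∈ Proj.basicOpen 𝒜 a := by
    rw [← Proj.opensRange_awayι 𝒜 a ha one_pos, ← ha']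
    exact ⟨_, rfl⟩
  have hmc : η (thePt F) ∈ Proj.basicOpen 𝒜 c := by
    rw [← Proj.opensRange_awayι 𝒜 c hc one_pos, ← hc']
    exact ⟨_, rfl⟩
  have hxm : a * c ∈ 𝒜 (1 + 1) := SetLike.mul_mem_graded ha hc
  obtain ⟨ρx, hρx⟩ := factor_of_mem η (Proj.awayι 𝒜 (a * c) hxm (by norm_num)) (by
    rw [Proj.opensRange_awayι, Proj.basicOpen_mul]
    exact ⟨hma, hmc⟩)
  have h1 := rho_comp 𝒜 η ha hc rfl hxm ρa ha' ρx hρx
  have h2 := rho_comp 𝒜 η hc ha (mul_comm a c) hxm ρc hc' ρx hρx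
  have h3 := congrArg ρx (rat_mul 𝒜 ha hb hc rfl (mul_comm a c))
  rw [map_mul] at h3
  rw [← h1, ← h2]
  exact h3

lemma rho_ne_zero {a b : A} (ha : a ∈ 𝒜 1) (hb : b ∈ 𝒜 1) (ρa : Away 𝒜 a →+* F)
    (ha' : Spec.map (CommRingCat.ofHom ρa) ≫ Proj.awayι 𝒜 a ha one_pos = η) :
    ρa (rat 𝒜 ha hb) ≠ 0 ↔ η (thePt F) ∈ Proj.basicOpen 𝒜 b := by
  let x : Spec (CommRingCat.of (Away 𝒜 a)) := (Spec.map (CommRingCat.ofHom ρa)) (thePt F)
  have h1 : η (thePt F) = Proj.awayι 𝒜 a ha one_pos x := by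
    rw [← ha']
    rfl
  have h2 : x ∈ Proj.awayι 𝒜 a ha one_pos ⁻¹ᵁ Proj.basicOpen 𝒜 b ↔
      η (thePt F) ∈ Proj.basicOpen 𝒜 b := by
    rw [h1]
    rfl
  rw [← h2, Proj.awayι_preimage_basicOpen 𝒜 ha one_pos hb one_pos, rat_eq]
  change ρa (rat 𝒜 ha hb) ≠ 0 ↔ ¬ (ρa (rat 𝒜 ha hb) ∈ IsLocalRing.maximalIdeal F)
  rw [IsLocalRing.maximalIdeal_eq_bot, Ideal.mem_bot]

lemma rho_struct [Algebra K F] (hηK : η ≫ Proj.toSpecZero 𝒜 ≫
      Spec.map (CommRingCat.ofHom (algebraMap K (𝒜 0))) =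
      Spec.map (CommRingCat.ofHom (algebraMap K F)))
    {a : A} (ha : a ∈ 𝒜 1) (ρa : Away 𝒜 a →+* F)
    (ha' : Spec.map (CommRingCat.ofHom ρa) ≫ Proj.awayι 𝒜 a ha one_pos = η) (k : K) :
    ρa (algebraMap (𝒜 0) (Away 𝒜 a) (algebraMap K (𝒜 0) k)) = algebraMap K F k := by
  have h1 : Spec.map (CommRingCat.ofHom ((ρa.comp (fromZeroRingHom 𝒜 _)).comp
      (algebraMap K (𝒜 0)))) = Spec.map (CommRingCat.ofHom (algebraMap K F)) := by
    rw [← hηK, ← ha', Category.assoc, ← Category.assoc (Proj.awayι _ _ _ _),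
      Proj.awayι_toSpecZero, ← Spec.map_comp, ← Spec.map_comp]
    rfl
  have h2 := Spec.map_injective h1
  exact congrArg (fun g : CommRingCat.of K ⟶ CommRingCat.of F => g.hom k) h2

/-- The charts of an integral projective scheme. -/
theorem proj_atlas [IsIntegral (Proj 𝒜)] (h0 : ∀ a ∈ 𝒜 0, ∃ q : K, algebraMap K A q = a)
    (s : Finset A) (hs : ∀ a ∈ s, a ∈ 𝒜 1) (hgen : Algebra.adjoin K (s : Set A) = ⊤)
    [Algebra K F] (hη : η (thePt F) = genericPoint (Proj 𝒜))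
    (hηK : η ≫ Proj.toSpecZero 𝒜 ≫ Spec.map (CommRingCat.ofHom (algebraMap K (𝒜 0))) =
      Spec.map (CommRingCat.ofHom (algebraMap K F))) :
    ∃ (ι : Type) (_ : Fintype ι) (_ : Nonempty ι) (y : ι → F), (∀ i, y i ≠ 0) ∧
      AtlasAt η (fun i => (Algebra.adjoin K (Set.range fun j => y j / y i)).toSubring) := by
  classical
  have hadj : Algebra.adjoin (𝒜 0) (Set.range (fun i : s => i.1)) = ⊤ := by
    rw [eq_top_iff]
    rintro z -
    have hz : z ∈ Algebra.adjoin K (s : Set A) := by rw [hgen]; trivial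
    induction hz using Algebra.adjoin_induction with
    | mem x hx => exact Algebra.subset_adjoin ⟨⟨x, hx⟩, rfl⟩
    | algebraMap r =>
      have h1 : algebraMap K A r ∈ 𝒜 0 := SetLike.algebraMap_mem_graded 𝒜 r
      exact Subalgebra.algebraMap_mem _ (⟨_, h1⟩ : 𝒜 0)
    | add x y _ _ hx hy => exact Subalgebra.add_mem _ hx hy
    | mul x y _ _ hx hy => exact Subalgebra.mul_mem _ hx hy
  have hcov := Proj.iSup_basicOpen_eq_top' 𝒜 (fun i : s => i.1) (fun i => ⟨1, hs i.1 i.2⟩) hadj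
  have hcov' : ∀ x : Proj 𝒜, ∃ a ∈ s, x ∈ Proj.basicOpen 𝒜 a ∧
      η (thePt F) ∈ Proj.basicOpen 𝒜 a := by
    intro x
    have h1 : x ∈ ⨆ i : s, Proj.basicOpen 𝒜 i.1 := by rw [hcov]; trivial
    rw [TopologicalSpace.Opens.mem_iSup] at h1
    obtain ⟨a, ha⟩ := h1
    refine ⟨a.1, a.2, ha, ?_⟩
    rw [hη]
    exact ((genericPoint_spec (Proj 𝒜)).mem_open_set_iff (Proj.basicOpen 𝒜 a.1).isOpen).2
      ⟨x, trivial, ha⟩
  let ι : Type := {a : s // η (thePt F) ∈ Proj.basicOpen 𝒜 a.1}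
  have hι : ∀ a : ι, a.1.1 ∈ 𝒜 1 := fun a => hs _ a.1.2
  obtain ⟨a₀, ha₀s, ha₀x, ha₀⟩ := hcov' (genericPoint (Proj 𝒜))
  let i₀ : ι := ⟨⟨a₀, ha₀s⟩, ha₀⟩
  have hex : ∀ a : ι, ∃ ρ : Away 𝒜 a.1.1 →+* F,
      Spec.map (CommRingCat.ofHom ρ) ≫ Proj.awayι 𝒜 a.1.1 (hι a) one_pos = η := fun a =>
    factor_of_mem η (Proj.awayι 𝒜 a.1.1 (hι a) one_pos) (by
      rw [Proj.opensRange_awayι]
      exact a.2)
  choose ρ hρ using hex
  let y : ι → F := fun b => ρ i₀ (rat 𝒜 (hι i₀) (hι b))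
  have hy : ∀ b, y b ≠ 0 := fun b => (rho_ne_zero 𝒜 η (hι i₀) (hι b) (ρ i₀) (hρ i₀)).2 b.2
  have hquot : ∀ a b : ι, ρ a (rat 𝒜 (hι a) (hι b)) = y b / y a := by
    intro a b
    rw [eq_div_iff (hy a)]
    exact (rho_rat 𝒜 η (hι i₀) (hι b) (hι a) (ρ i₀) (hρ i₀) (ρ a) (hρ a)).symm
  -- the structure map
  have hK : ∀ (a : ι) (k : K), ρ a (algebraMap (𝒜 0) (Away 𝒜 a.1.1) (algebraMap K (𝒜 0) k)) =
      algebraMap K F k := by
    intro a k
    exact rho_struct 𝒜 η hηK (hι a) (ρ a) (hρ a) k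
  have hKS : ∀ (a : ι) (r : 𝒜 0), ∃ k : K, ρ a (algebraMap (𝒜 0) (Away 𝒜 a.1.1) r) =
      algebraMap K F k := by
    intro a r
    obtain ⟨q, hq⟩ := h0 r.1 r.2
    refine ⟨q, ?_⟩
    rw [← hK a q]
    congr 2
    exact Subtype.ext hq.symm
  have hrat : ∀ (a : ι) (b : s), ρ a (rat 𝒜 (hι a) (hs b.1 b.2)) ∈
      Algebra.adjoin K (Set.range fun j => y j / y a) := by
    intro a b
    by_cases hb : η (thePt F) ∈ Proj.basicOpen 𝒜 b.1
    · have h1 := hquot a ⟨b, hb⟩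
      have h2 : ρ a (rat 𝒜 (hι a) (hs b.1 b.2)) = y ⟨b, hb⟩ / y a := h1
      rw [h2]
      exact Algebra.subset_adjoin ⟨_, rfl⟩
    · have h1 : ρ a (rat 𝒜 (hι a) (hs b.1 b.2)) = 0 := by
        by_contra h
        exact hb ((rho_ne_zero 𝒜 η (hι a) (hs b.1 b.2) (ρ a) (hρ a)).1 h)
      rw [h1]
      exact Subalgebra.zero_mem _
  have hrange : ∀ a : ι, (ρ a).range =
      (Algebra.adjoin K (Set.range fun j => y j / y a)).toSubring := by
    intro a
    apply le_antisymm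
    · rintro _ ⟨z, rfl⟩
      have h1 := Away.adjoin_mk_prod_pow_eq_top (hι a) s (fun i : s => i.1) hadj (fun _ => 1)
        (fun i => hs i.1 i.2)
      have hz : z ∈ (⊤ : Subalgebra (𝒜 0) (Away 𝒜 a.1.1)) := trivial
      rw [← h1] at hz
      change ρ a z ∈ Algebra.adjoin K (Set.range fun j => y j / y a)
      induction hz using Algebra.adjoin_induction with
      | mem x hx =>
        obtain ⟨n, m, hm, -, rfl⟩ := hx
        rw [mk_prod 𝒜 (hι a) (fun i : s => i.1) (fun i => hs i.1 i.2) n m (by simpa using hm),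
          map_prod]
        refine Subalgebra.prod_mem _ fun i _ => ?_
        rw [map_pow]
        exact Subalgebra.pow_mem _ (hrat a i) _
      | algebraMap r =>
        obtain ⟨k, hk⟩ := hKS a r
        rw [hk]
        exact Subalgebra.algebraMap_mem _ _
      | add x y _ _ hx hy => rw [map_add]; exact Subalgebra.add_mem _ hx hy
      | mul x y _ _ hx hy => rw [map_mul]; exact Subalgebra.mul_mem _ hx hy
    · let S : Subalgebra K F := { (ρ a).range with algebraMap_mem' := fun k => ⟨_, hK a k⟩ }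
      have h1 : Algebra.adjoin K (Set.range fun j => y j / y a) ≤ S := by
        refine Algebra.adjoin_le ?_
        rintro _ ⟨b, rfl⟩
        exact ⟨_, hquot a b⟩
      exact h1
  refine ⟨ι, inferInstance, ⟨i₀⟩, y, hy, fun a => Proj.basicOpen 𝒜 a.1.1, ?_, ?_⟩
  · rw [eq_top_iff]
    intro x _
    obtain ⟨a, ha, hxa, hηa⟩ := hcov' x
    exact TopologicalSpace.Opens.mem_iSup.2 ⟨⟨⟨a, ha⟩, hηa⟩, hxa⟩
  · intro a
    have h1 := isChart_range η (Proj.awayι 𝒜 a.1.1 (hι a) one_pos) (ρ a) (hρ a)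
      (factor_inj η (Proj.awayι 𝒜 a.1.1 (hι a) one_pos) hη (ρ a) (hρ a)) (hrange a)
    rw [Proj.opensRange_awayι] at h1
    exact h1

end

/-- A model is separated. -/
lemma modelMap_sep {O F : Type} [CommRing O] [Field F] [Algebra O F] (M : Submodule O F) :
    IsSeparated (modelMap M) := by
  have h1 : IsSeparated (Proj.toSpecZero (mPiece M)) := inferInstance
  have h2 : IsSeparated (Spec.map (toZeroHom M)) := inferInstance
  unfold modelMap
  exact MorphismProperty.comp_mem @IsSeparated _ _ h1 h2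

/-- The kernel of a dominant integral scheme. -/
lemma inj_of_dominant {K F : Type} [CommRing K] [IsDomain K] [Field F] {X : Scheme.{0}}
    [IsIntegral X] (f : X ⟶ Spec (CommRingCat.of K)) (hf : IsDominant f)
    (η : Spec (CommRingCat.of F) ⟶ X) (hη : η (thePt F) = genericPoint X) (φ : K →+* F)
    (hφ : η ≫ f = Spec.map (CommRingCat.ofHom φ)) : Function.Injective φ := by
  rw [injective_iff_map_eq_zero]
  intro k hk
  by_contra hk0
  -- the open set `D(k)` is not empty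
  let D : TopologicalSpace.Opens (PrimeSpectrum K) := PrimeSpectrum.basicOpen k
  have hD : (D : Set (PrimeSpectrum K)).Nonempty :=
    ⟨⟨⊥, Ideal.isPrime_bot⟩, fun h => hk0 (Ideal.mem_bot.1 h)⟩
  obtain ⟨z, hz, x, rfl⟩ : ∃ z ∈ (D : Set (PrimeSpectrum K)), z ∈ Set.range f :=
    hf.denseRange.inter_open_nonempty _ D.isOpen hD
  have h1 : genericPoint X ∈ (f ⁻¹ᵁ D : X.Opens) :=
    ((genericPoint_spec X).mem_open_set_iff (f ⁻¹ᵁ D).isOpen).2 ⟨x, trivial, hz⟩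
  rw [← hη] at h1
  have h2 : (η ≫ f) (thePt F) ∈ D := h1
  rw [hφ] at h2
  have h3 : φ k ∉ IsLocalRing.maximalIdeal F := h2
  rw [hk] at h3
  exact h3 (Submodule.zero_mem _)

end Pool.Agent.H413.XT.PM14

namespace Pool.Agent.H413.XT

open Pool.Agent.TH188.ARC Pool.Agent.H918R2.Quad Pool.Agent.H968R2.Quad Pool.Agent.W559.GF
  Pool.Agent.W930.GF Pool.Agent.W191.GF

/-- XT14. Integral projective schemes over a commutative ring are models. -/
theorem h413_proj_model {K A : Type} [CommRing K] [IsDomain K] [CommRing A] [Algebra K A]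
    (𝒜 : ℕ → Submodule K A) [GradedAlgebra 𝒜] {X : Scheme.{0}} [IsIntegral X]
    (f : X ⟶ Spec (CommRingCat.of K)) (h0 : ∀ a ∈ 𝒜 0, ∃ q : K, algebraMap K A q = a)
    (s : Finset A) (hs : ∀ a ∈ s, a ∈ 𝒜 1) (hgen : Algebra.adjoin K (s : Set A) = ⊤)
    (i : X ≅ Proj 𝒜)
    (hif : i.hom ≫ Proj.toSpecZero 𝒜 ≫ Spec.map (CommRingCat.ofHom (algebraMap K (𝒜 0))) = f) :
    ∃ (F : Type) (_ : Field F) (_ : Algebra K F) (M : Submodule K F) (g : F) (_ : g ∈ M)
      (_ : g ≠ 0) (e : X ≅ model M), M.FG ∧ e.hom ≫ modelMap M = f ∧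
        (IsDominant f → Function.Injective (algebraMap K F)) := by
  classical
  have hPne : Nonempty (Proj 𝒜) := ⟨i.hom (genericPoint X)⟩
  have hP : IsIntegral (Proj 𝒜) := isIntegral_of_isOpenImmersion i.inv
  obtain ⟨F, hF, η, hη⟩ := exists_generic (Proj 𝒜)
  let fP : Proj 𝒜 ⟶ Spec (CommRingCat.of K) :=
    Proj.toSpecZero 𝒜 ≫ Spec.map (CommRingCat.ofHom (algebraMap K (𝒜 0)))
  obtain ⟨φ, hφ⟩ := Spec.map_surjective (η ≫ fP)
  let _ : Algebra K F := φ.hom.toAlgebra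
  have hηK : η ≫ fP = Spec.map (CommRingCat.ofHom (algebraMap K F)) := hφ.symm
  obtain ⟨ι, hι, ⟨i₀⟩, y, hy, hat⟩ := PM14.proj_atlas 𝒜 η h0 s hs hgen hη hηK
  have hsep : IsSeparated fP := inferInstance
  have hne : Nonempty ι := ⟨i₀⟩
  obtain ⟨M, hM⟩ : ∃ M : Submodule K F, M = Submodule.span K (Set.range y) := ⟨_, rfl⟩
  have hyM : ∀ t, y t ∈ M := fun t => by
    rw [hM]
    exact Submodule.subset_span ⟨t, rfl⟩
  have hat' : AtlasAt η (fun t => (chart K M (y t)).toSubring) := by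
    have h1 : (fun t => (chart K M (y t)).toSubring) =
        fun t => (Algebra.adjoin K (Set.range fun j => y j / y t)).toSubring := by
      funext t
      rw [hM, chart_span]
    rw [h1]
    exact hat
  have hA1 : AtlasAt (Pool.Agent.W398.GF.eta M (y i₀) (hyM i₀) (hy i₀))
      (fun t => (chart K M (y t)).toSubring) := by
    refine modAt M hne y hyM hy (Set.range y) hM.symm ?_ (y i₀) (hyM i₀) (hy i₀)
    intro z hz
    refine ⟨0, ?_⟩
    rw [pow_zero, mul_one, zero_add, pow_one]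
    exact Submodule.subset_span hz
  obtain ⟨e, he, -⟩ := isoAt hsep (PM14.modelMap_sep M)
    (hηK.trans (Pool.Agent.W398.GF.eta_modelMap M (y i₀) (hyM i₀) (hy i₀)).symm) hat' hA1 hne
  refine ⟨F, hF, inferInstance, M, y i₀, hyM i₀, hy i₀, i ≪≫ e, ?_, ?_, ?_⟩
  · rw [hM]
    exact Submodule.fg_span (Set.finite_range y)
  · rw [Iso.trans_hom, Category.assoc, he]
    exact hif
  · intro hf
    have hdom : IsDominant fP := by
      have h1 : fP = i.inv ≫ f := by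
        rw [← hif, Iso.inv_hom_id_assoc]
      rw [h1]
      infer_instance
    exact PM14.inj_of_dominant fP hdom η hη (algebraMap K F) hηK

end Pool.Agent.H413.XT
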