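import Pool.Agent.H413.BR.B40

/-!
# XT15: a uniform bound over the integers, away from `h`
-/

set_option autoImplicit false
set_option linter.unusedVariables false
set_option linter.unusedSectionVars false

namespace Pool.Agent.H413.XT

open IsLocalRing Pool.Agent.TH188.QS Pool.Agent.TH188.ARC Pool.Agent.W418.LU2
  Pool.Agent.H918R2.Quad Pool.Agent.H413.BR

/-- XT15. `lev_int` (BR/B40.lean) and `lev_field` (BR/B47.lean) combined. -/
theorem h413_lev_int_h {F : Type} [Field F] [CharZero F] {T : Set F} (hT : T.Finite) {h : F}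
    (hh : h ∈ Subring.closure T) (hh0 : h ≠ 0)
    (hreg : ∀ η : ValuationSubring F, Subring.closure T ≤ η.toSubring → h⁻¹ ∈ η →
      (∀ n : ℕ, n ≠ 0 → ((n : F))⁻¹ ∈ η) →
      IsRegularLocalRing (lo η.toSubring (Subring.closure T))) :
    ∃ N n : ℕ, N ≠ 0 ∧ ∀ W : ValuationSubring F, Subring.closure T ≤ W.toSubring →
      ∀ (ϖ : F) (m m' : ℕ), ((N : F))⁻¹ * ϖ ^ m ∈ W → h⁻¹ * ϖ ^ m' ∈ W →
        Lev W ϖ (m + n * m') (lo W.toSubring (Subring.closure T)) := by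
  classical
  obtain ⟨n, x, -, hx⟩ := hT.fin_param
  subst hx
  set B : Subring F := Subring.closure (Set.range x) with hB
  let S := MvPolynomial (Fin n) ℤ
  let φ : S →+* F := (MvPolynomial.aeval x : S →ₐ[ℤ] F).toRingHom
  have hφr : φ.range = B := h413_range_eq x
  let J : Ideal B := Ideal.span {b : B | h413_GM φ (b : F)}
  let hb : B := ⟨h, hh⟩
  -- the submonoid of the elements `m h ^ e`
  let Z : Submonoid B := (Submonoid.map (Nat.castRingHom B) (nonZeroDivisors ℕ)) ⊔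
    Submonoid.powers hb
  have hZ : ∀ z : B, z ∈ Z ↔ ∃ m e : ℕ, m ≠ 0 ∧ (m : B) * hb ^ e = z := by
    intro z
    rw [Submonoid.mem_sup]
    constructor
    · rintro ⟨_, ⟨m, hm, rfl⟩, _, ⟨e, rfl⟩, rfl⟩
      exact ⟨m, e, nonZeroDivisors.ne_zero hm, rfl⟩
    · rintro ⟨m, e, hm, rfl⟩
      exact ⟨(m : B), ⟨m, mem_nonZeroDivisors_of_ne_zero hm, rfl⟩, hb ^ e, ⟨e, rfl⟩, rfl⟩
  have hdis : ¬ Disjoint (J : Set B) Z := by
    intro hdis
    obtain ⟨𝔭, h𝔭, hJ𝔭, h𝔭Z⟩ := Ideal.exists_le_prime_disjoint J Z hdis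
    obtain ⟨η, hBη, hη⟩ := exists_val B 𝔭
    have hint : ∀ m : ℕ, m ≠ 0 → ((m : F))⁻¹ ∈ η := by
      intro m hm
      have h1 : (m : B) ∉ 𝔭 := by
        intro h2
        exact Set.disjoint_left.1 h𝔭Z h2 ((hZ _).2 ⟨m, 0, hm, by rw [pow_zero, mul_one]⟩)
      rw [hη] at h1
      rw [← η.valuation_le_one_iff, map_inv₀]
      have h3 : ((m : B) : F) = (m : F) := by push_cast; rfl
      rw [h3, not_lt] at h1
      exact inv_le_one_of_one_le₀ h1
    have hhη : h⁻¹ ∈ η := by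
      have h1 : hb ∉ 𝔭 := by
        intro h2
        exact Set.disjoint_left.1 h𝔭Z h2
          ((hZ _).2 ⟨1, 1, one_ne_zero, by rw [pow_one, Nat.cast_one, one_mul]⟩)
      rw [hη] at h1
      rw [← η.valuation_le_one_iff, map_inv₀]
      exact inv_le_one_of_one_le₀ (not_lt.1 h1)
    have hreg' := hreg η hBη hhη hint
    obtain ⟨δ, hδB, hδ0, hδA, hδ⟩ := h413_gm_at x hreg' (le_lo _ _)
      (fun m hm => by
        refine inv_mem_lo hBη (le_lo _ _ (natCast_mem B m)) (by exact_mod_cast hm) (hint m hm))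
      (fun a ha => by
        obtain ⟨b, hb, c, hc, hc0, hcη, habc⟩ := mem_lo.1 ha
        exact ⟨b, hb, c, hc, hc0, inv_mem_lo hBη (le_lo _ _ hc) hc0 hcη, habc⟩)
    have h1 : (⟨δ, hδB⟩ : B) ∈ 𝔭 := hJ𝔭 (Ideal.subset_span hδ)
    rw [hη] at h1
    have h2 : η.valuation (δ⁻¹) ≤ 1 := (η.valuation_le_one_iff _).2 (lo_le hBη hδA)
    rw [map_inv₀] at h2
    have h3 : 0 < η.valuation δ := (Valuation.pos_iff _).2 hδ0
    have h4 : 1 ≤ η.valuation δ := (inv_le_one₀ h3).1 h2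
    exact absurd h1 (not_lt.2 h4)
  obtain ⟨z, hzJ, hzZ⟩ := Set.not_disjoint_iff.1 hdis
  obtain ⟨N, e, hN0, rfl⟩ := (hZ z).1 hzZ
  refine ⟨N, e, hN0, ?_⟩
  intro W hBW ϖ m m' hm hm'
  -- some minor divides `N h ^ e` at `W`
  have key : ∀ c ∈ J, (c : F) ≠ 0 → ∃ δ : F, h413_GM φ δ ∧ δ ≠ 0 ∧
      W.valuation (c : F) ≤ W.valuation δ := by
    intro c hc
    induction hc using Submodule.span_induction with
    | mem b hb => exact fun h0 => ⟨b, hb, h0, le_rfl⟩
    | zero => exact fun h0 => absurd rfl h0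
    | add a b ha hb iha ihb =>
      intro h0
      have h1 : W.valuation ((a + b : B) : F) ≤ max (W.valuation (a : F)) (W.valuation (b : F)) :=
        W.valuation.map_add _ _
      rcases le_max_iff.1 h1 with h2 | h2
      · have ha0 : (a : F) ≠ 0 := by
          intro h3
          rw [h3, map_zero, le_zero_iff, map_eq_zero] at h2
          exact h0 h2
        obtain ⟨δ, h3, h4, h5⟩ := iha ha0
        exact ⟨δ, h3, h4, h2.trans h5⟩
      · have hb0 : (b : F) ≠ 0 := by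
          intro h3
          rw [h3, map_zero, le_zero_iff, map_eq_zero] at h2
          exact h0 h2
        obtain ⟨δ, h3, h4, h5⟩ := ihb hb0
        exact ⟨δ, h3, h4, h2.trans h5⟩
    | smul a b hb ihb =>
      intro h0
      have h0' : (a : F) * (b : F) ≠ 0 := h0
      obtain ⟨δ, h3, h4, h5⟩ := ihb (right_ne_zero_of_mul h0')
      refine ⟨δ, h3, h4, le_trans ?_ h5⟩
      have h6 : W.valuation ((a • b : B) : F) = W.valuation (a : F) * W.valuation (b : F) := by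
        rw [← map_mul]
        rfl
      rw [h6]
      exact mul_le_of_le_one_left' ((W.valuation_le_one_iff _).2 (hBW a.2))
  have hNF : (((N : B) * hb ^ e : B) : F) = (N : F) * h ^ e := by push_cast; rfl
  have hNF0 : (N : F) * h ^ e ≠ 0 := mul_ne_zero (by exact_mod_cast hN0) (pow_ne_zero _ hh0)
  obtain ⟨δ, ⟨r, f, D, hf, hgen, hδ⟩, hδ0, hle⟩ := key _ hzJ (by rw [hNF]; exact hNF0)
  rw [hNF] at hle
  rw [← hφr]
  have hφW : ∀ s, φ s ∈ W := fun s => hBW (hφr ▸ ⟨s, rfl⟩)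
  refine lev_init hφW D hf hgen (by rw [← hδ]; exact hδ0) ?_
  rw [← hδ]
  have hN0F : (N : F) ≠ 0 := by exact_mod_cast hN0
  have h1 : δ⁻¹ * ϖ ^ (m + e * m') =
      (δ⁻¹ * ((N : F) * h ^ e)) * (((N : F)⁻¹ * ϖ ^ m) * (h⁻¹ * ϖ ^ m') ^ e) := by
    rw [mul_pow, inv_pow, ← pow_mul, pow_add, mul_comm m' e]
    have h2 : h ^ e ≠ 0 := pow_ne_zero _ hh0
    field_simp
  rw [h1]
  refine W.mul_mem _ _ ?_ (W.mul_mem _ _ hm (W.pow_mem hm' e))
  rw [← W.valuation_le_one_iff, map_mul, map_inv₀]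
  have h3 : 0 < W.valuation δ := (Valuation.pos_iff _).2 hδ0
  exact (inv_mul_le_one₀ h3).2 hle

end Pool.Agent.H413.XT
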