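import Pool.Agent.H413.XT.Defs
import Pool.Agent.H413.XT.X15
import Pool.Agent.H413.BR.B50
import Pool.Agent.H413.BR.B51

/-!
# XT16: the bound over the integers, bounded contact and ramification (helper82)
-/

set_option autoImplicit false
set_option linter.unusedVariables false
set_option linter.unusedSectionVars false

open AlgebraicGeometry CategoryTheory Limits

namespace Pool.Agent.H413.XT

open Pool.Agent.TH188.ARC Pool.Agent.H918R2.Quad Pool.Agent.H968R2.Quad Pool.Agent.W559.GF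
  Pool.Agent.W930.GF Pool.Agent.W191.GF

section lev

open scoped Topology
open IsLocalRing Pool.Agent.TH188.QS Pool.Agent.W418.LU2 Pool.Agent.H413.BR

theorem h413_lev_CZI {F : Type} [Field F] [CharZero F] {M₀ : Submodule ℤ F} (hM₀ : M₀.FG)
    (hne : ∃ g ∈ M₀, g ≠ 0) {D : ℕ} {N : Set F} (hNfin : N.Finite)
    (hN : N ⊆ (M₀ ^ D : Submodule ℤ F)) {Z₀ : Set (ZR ℤ F)}
    (hZ₀ : ∀ W : ZR ℤ F, W ∈ Z₀ ↔ ∀ f ∈ N, ¬ Gn W.1 (M₀ ^ D) f) (hreg : ∀ W, W ∉ Z₀ → Rq W M₀)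
    {M : Submodule ℤ F} (hM : CZ M₀ Z₀ M) (d : ℕ) :
    ∃ m : ℕ, ∀ (W : ZR ℤ F) (ϖ : F), ϖ ∈ W.1 →
      (Ct M₀ N D W.1 ϖ d ∧ ∀ p : ℕ, p.Prime → (p : F)⁻¹ * ϖ ^ d ∈ W.1) →
      ∀ Q, LR W.1 M Q → Lev W.1 ϖ m Q := by
  classical
  obtain ⟨hMfg, hMne, ⟨J, hJ, hJne, rfl⟩, hiso⟩ := hM
  obtain ⟨G, hG⟩ := hM₀
  obtain ⟨S, hS⟩ := hJ
  have hGM : ∀ g ∈ G, g ∈ M₀ := fun g hg => hG ▸ Submodule.subset_span hg
  have hSJ : ∀ j ∈ S, j ∈ J := fun j hj => hS ▸ Submodule.subset_span hj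
  -- the uniform bound for one chart
  have hone : ∀ q : F × F × F, ∃ n : ℕ, q.1 ∈ G → q.1 ≠ 0 → q.2.1 ∈ S → q.2.1 ≠ 0 → q.2.2 ∈ N →
      q.2.2 ≠ 0 → ∀ W : ZR ℤ F, Gn W.1 (M₀ * J) (q.1 * q.2.1) → ∀ (ϖ : F), ϖ ∈ W.1 →
        (q.2.2 / q.1 ^ D)⁻¹ * ϖ ^ d ∈ W.1 → (∀ p : ℕ, p.Prime → (p : F)⁻¹ * ϖ ^ d ∈ W.1) →
        Lev W.1 ϖ n (lo W.1.toSubring (chart ℤ (M₀ * J) (q.1 * q.2.1)).toSubring) := by
    rintro ⟨g, j, f⟩
    by_cases hq : g ∈ G ∧ g ≠ 0 ∧ j ∈ S ∧ j ≠ 0 ∧ f ∈ N ∧ f ≠ 0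
    · obtain ⟨hgG, hg0, hjS, hj0, hfN, hf0⟩ := hq
      obtain ⟨s, hs⟩ := id hMfg
      have hB := h921_chart hs (g * j)
      have hle := BR50.chart_le_mul (M := M₀) (g := g) (hSJ j hjS) hj0
      have hf : f ∈ M₀ ^ D := hN hfN
      have hh : f / g ^ D ∈ (chart ℤ (M₀ * J) (g * j)).toSubring := hle (pow_div_mem hg0 D f hf)
      have hh0 : f / g ^ D ≠ 0 := div_ne_zero hf0 (pow_ne_zero _ hg0)
      have hr : ∀ η : ValuationSubring F,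
          (chart ℤ (M₀ * J) (g * j)).toSubring ≤ η.toSubring → (f / g ^ D)⁻¹ ∈ η →
          (∀ n : ℕ, n ≠ 0 → ((n : F))⁻¹ ∈ η) →
          IsRegularLocalRing (lo η.toSubring (chart ℤ (M₀ * J) (g * j)).toSubring) := by
        intro η hη hinv _
        have hkη : ∀ o, algebraMap ℤ F o ∈ η := fun o =>
          hη (Subalgebra.algebraMap_mem (chart ℤ (M₀ * J) (g * j)) o)
        have hgn : Gn η (M₀ * J) (g * j) := ⟨Submodule.mul_mem_mul (hGM g hgG) (hSJ j hjS),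
          mul_ne_zero hg0 hj0, fun m hm => hη (Algebra.subset_adjoin ⟨m, hm, rfl⟩)⟩
        have hnot : (⟨η, hkη⟩ : ZR ℤ F) ∉ Z₀ := by
          intro h1
          refine (hZ₀ _).1 h1 f hfN ⟨hf, hf0, fun m hm => ?_⟩
          have h1 : m / f = m / g ^ D * (f / g ^ D)⁻¹ := by
            have := pow_ne_zero D hg0
            field_simp
          rw [h1]
          exact η.mul_mem _ _ (hη (hle (pow_div_mem hg0 D m hm))) hinv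
        obtain ⟨Q, hQ, hQr⟩ := hreg ⟨η, hkη⟩ hnot
        have hQ' := hiso ⟨η, hkη⟩ hnot Q hQ
        rw [LR.unique hkη (Gn.LR hgn) hQ']
        exact hQr
      rw [hB] at hh hr
      obtain ⟨N', n, hN'0, hn⟩ := h413_lev_int_h (s.finite_toSet.image _) hh hh0 hr
      obtain ⟨k, hk⟩ := h921_pow (F := F) d N' hN'0
      refine ⟨k + n * d, fun _ _ _ _ _ _ W hW ϖ hϖ hm hp => ?_⟩
      have h1 := hW.le
      rw [hB] at h1
      change Lev W.1 ϖ (k + n * d) (lo W.1.toSubring (chart ℤ (M₀ * J) (g * j)).toSubring)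
      rw [hB]
      exact hn W.1 h1 ϖ k d (hk W.1 ϖ hϖ hp) hm
    · exact ⟨0, fun h1 h2 h3 h4 h5 h6 => absurd ⟨h1, h2, h3, h4, h5, h6⟩ hq⟩
  choose n hn using hone
  obtain ⟨m, hm⟩ : ∃ m : ℕ, ∀ g ∈ G, ∀ j ∈ S, ∀ f ∈ N, n (g, j, f) ≤ m :=
    ⟨(G ×ˢ (S ×ˢ hNfin.toFinset)).sup fun q => n q, fun g hg j hj f hf =>
      Finset.le_sup (f := fun q => n q) (Finset.mk_mem_product hg
        (Finset.mk_mem_product hj (hNfin.mem_toFinset.2 hf)))⟩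
  refine ⟨m, fun W ϖ hϖ hCp Q hQ => ?_⟩
  obtain ⟨hCt, hp⟩ := hCp
  obtain ⟨f, hfN, hf0, g, hg, hin⟩ := hCt
  obtain ⟨j₀, hj₀, hj₀0⟩ := hJne
  obtain ⟨g', hg'G, hg'M, hg'0, hg'⟩ := BR50.gen_max W.2 hG hg.1 hg.2.1
  obtain ⟨j', hj'S, hj'J, hj'0, hj'⟩ := BR50.gen_max W.2 hS hj₀ hj₀0
  have hgn : Gn W.1 (M₀ * J) (g' * j') :=
    BR50.gn_mul ⟨hg'M, hg'0, hg'⟩ ⟨hj'J, hj'0, hj'⟩
  have h1 : (f / g' ^ D)⁻¹ * ϖ ^ d ∈ W.1 := by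
    have h2 : (f / g' ^ D)⁻¹ * ϖ ^ d = ((f / g ^ D)⁻¹ * ϖ ^ d) * (g' / g) ^ D := by
      have := hg.2.1
      have h3 := pow_ne_zero D this
      have h4 := pow_ne_zero D hg'0
      rw [div_pow]
      field_simp
    rw [h2]
    exact W.1.mul_mem _ _ hin (pow_mem (hg.2.2 g' hg'M) D)
  have h2 := hn (g', j', f) hg'G hg'0 hj'S hj'0 hfN hf0 W hgn ϖ hϖ h1 hp
  rw [LR.unique W.2 hQ (Gn.LR hgn)]
  exact h2.mono hϖ (hm g' hg'G j' hj'S f hfN)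

end lev

end Pool.Agent.H413.XT
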