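import Pool.Agent.H413.XT.Defs
import Pool.Agent.H413.XT.X16
import Pool.Agent.H413.BR.B56
import Pool.Agent.H413.BR.B55

/-!
# XT17: the sequence of blowings up over the integers, bounded contact and ramification (helper236)
-/

set_option autoImplicit false
set_option linter.unusedVariables false
set_option linter.unusedSectionVars false

open AlgebraicGeometry CategoryTheory Limits

namespace Pool.Agent.H413.XT

open Pool.Agent.TH188.ARC Pool.Agent.H918R2.Quad Pool.Agent.H968R2.Quad Pool.Agent.W559.GF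
  Pool.Agent.W930.GF Pool.Agent.W191.GF

section lev

open scoped Topology
open IsLocalRing Pool.Agent.TH188.QS Pool.Agent.W418.LU2 Pool.Agent.H413.BR

/-- XT17. `seq_field` over the integers. -/
theorem h413_seq_intZ {F : Type} [Field F] [CharZero F] (M₀ : Submodule ℤ F)
    (hM₀ : M₀.FG) (hne : ∃ g ∈ M₀, g ≠ 0) (D : ℕ) (N : Set F) (hNfin : N.Finite)
    (hN : N ⊆ (M₀ ^ D : Submodule ℤ F))
    (hreg : ∀ g ∈ M₀, g ≠ 0 → ∀ (P : Ideal (chart ℤ M₀ g)) [P.IsPrime],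
      (∃ f ∈ N, ∀ h : f / g ^ D ∈ chart ℤ M₀ g, (⟨_, h⟩ : chart ℤ M₀ g) ∉ P) →
      IsRegularLocalRing (Localization.AtPrime P)) :
    ∃ K : ℕ → Submodule ℤ F, (∀ d, (K d).FG ∧ ∃ j ∈ K d, j ≠ 0) ∧
      (∀ (d : ℕ), ∀ g ∈ Mo M₀ K d, g ≠ 0 → ∀ (P : Ideal (chart ℤ (Mo M₀ K d) g)) [P.IsPrime],
        IsRegularLocalRing (Localization.AtPrime P) → PrincipalAt (Mo M₀ K d) (K d) g P) ∧
      ∀ (d : ℕ), ∀ g ∈ M₀, g ≠ 0 → ∀ (R : Type) [CommRing R] [IsDomain R]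
        [IsDiscreteValuationRing R] (γ : chart ℤ M₀ g →+* R),
        (∃ f ∈ N, ∀ h : f / g ^ D ∈ chart ℤ M₀ g, γ ⟨_, h⟩ ∉ maximalIdeal R ^ (d + 1)) →
        (∀ p : ℕ, p.Prime → ((p : ℕ) : R) ∉ maximalIdeal R ^ (d + 1)) →
        LiftsReg M₀ (∏ i ∈ Finset.range d, K i) g R γ := by
  classical
  -- the closed set
  obtain ⟨Z₀, hZ₀⟩ : ∃ Z₀ : Set (ZR ℤ F), ∀ W, W ∈ Z₀ ↔ ∀ f ∈ N, ¬ Gn W.1 (M₀ ^ D) f :=
    ⟨{W | ∀ f ∈ N, ¬ Gn W.1 (M₀ ^ D) f}, fun W => Iff.rfl⟩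
  have hnot : ∀ W : ZR ℤ F, W ∉ Z₀ ↔ ∃ f ∈ N, Gn W.1 (M₀ ^ D) f := by
    intro W
    rw [hZ₀]
    push Not
    rfl
  have hclosed : IsClosed[topM M₀] Z₀ := by
    have h1 : Z₀ᶜ = ⋃ f ∈ N, bas M₀ D f := by
      ext W
      rw [Set.mem_compl_iff, hnot, Set.mem_iUnion₂]
      constructor
      · rintro ⟨f, hf, h⟩
        exact ⟨f, hf, h⟩
      · rintro ⟨f, hf, h⟩
        exact ⟨f, hf, h⟩
    have h2 : IsOpen[topM M₀] Z₀ᶜ := by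
      rw [h1]
      let _ := topM M₀
      exact isOpen_biUnion fun f _ => TopologicalSpace.isOpen_generateFrom_of_mem ⟨D, f, rfl⟩
    let _ := topM M₀
    exact isOpen_compl_iff.1 h2
  have hHJ : HJ ℤ := hj_dedekind
  have hSR : SR ℤ F := sr_hj hHJ
  -- the model is regular outside of the closed set
  have hRq : ∀ W : ZR ℤ F, W ∉ Z₀ → Rq W M₀ := by
    intro W hW
    obtain ⟨f, hf, hgn⟩ := (hnot W).1 hW
    obtain ⟨g₀, hg₀, hg₀0⟩ := hne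
    obtain ⟨g, hg, hg0, hgW⟩ := exists_gen_max W.2 hM₀ hg₀ hg₀0
    have hG : Gn W.1 M₀ g := ⟨hg, hg0, hgW⟩
    refine ⟨_, Gn.LR hG, br55_reg_lo hG.le fun P hP hPW => ?_⟩
    refine hreg g hg hg0 P ⟨f, hf, fun h hcon => ?_⟩
    rw [hPW] at hcon
    have h0 : f / g ^ D ≠ 0 := div_ne_zero hgn.2.1 (pow_ne_zero _ hg0)
    refine (val_lt_iff h0).1 hcon ?_
    rw [inv_div]
    exact hgn.2.2 _ (Submodule.pow_mem_pow _ hg _)
  have hCZ0 : CZ M₀ Z₀ M₀ := ⟨hM₀, hne, Dom.refl M₀, fun W _ Q hQ => hQ⟩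
  have hC0 : ∀ (W : ZR ℤ F) (ϖ : F), (Ct M₀ N D W.1 ϖ 0 ∧
      ∀ p : ℕ, p.Prime → (p : F)⁻¹ * ϖ ^ 0 ∈ W.1) → W ∉ Z₀ := by
    rintro W ϖ ⟨⟨f, hf, hf0, g, hg, h⟩, -⟩
    rw [pow_zero, mul_one] at h
    exact (hnot W).2 ⟨f, hf, br55_gn (hN hf) hf0 hg.2.1 hg.le h⟩
  obtain ⟨K, hK, hKM, hKiso, hKreg⟩ := seq_gen hHJ hSR (cl_CZ hclosed) hCZ0
    (fun M h => h.2.2.2) hclosed hRq (fun d W ϖ => Ct M₀ N D W.1 ϖ d ∧
      ∀ p : ℕ, p.Prime → (p : F)⁻¹ * ϖ ^ d ∈ W.1) hC0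
    (fun M hM _ d => h413_lev_CZI hM₀ hne hNfin hN hZ₀ hRq hM d)
  have hMo : ∀ d, Mo M₀ K (d + 1) = Mo M₀ K d * K d := by
    intro d
    unfold Pool.Agent.H413.BR.Mo
    rw [Finset.prod_range_succ, mul_assoc]
  refine ⟨K, hK, ?_, ?_⟩
  · intro d g hg hg0 P hP hPreg
    refine principal_of_LR (hKM d).1 (hKM d).2.1 (hK d).1 (hK d).2 (fun W Q h1 h2 => ?_) hg hg0
      P hPreg
    have h3 := hKiso d W Q h1 h2
    rwa [hMo] at h3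
  · intro d g hg hg0 R _ _ _ γ hγ hγp
    obtain ⟨f, hf, hγf⟩ := hγ
    have hmem : f / g ^ D ∈ chart ℤ M₀ g := pow_div_mem hg0 D f (hN hf)
    have hγa := hγf hmem
    have hγ0 : γ ⟨_, hmem⟩ ≠ 0 := by
      intro h
      apply hγa
      rw [h]
      exact Ideal.zero_mem _
    have ha0 : f / g ^ D ≠ 0 := by
      intro h
      apply hγ0
      have h1 : (⟨_, hmem⟩ : chart ℤ M₀ g) = 0 := Subtype.ext h
      rw [h1, map_zero]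
    have hf0 : f ≠ 0 := by
      intro h
      apply ha0
      rw [h, zero_div]
    refine trait_lifts (br55_prod hK d).1 (br55_prod hK d).2 hg hg0 γ
      (fun W η ϖ hWη hgW hϖ0 hϖW hη hz hγd => ?_)
    have hgη : Gn η.1 M₀ g := ⟨hg, hg0, fun m hm => hWη (hgW.2.2 m hm)⟩
    have h1 : ¬ η.1.valuation (f / g ^ D) < 1 := fun h => hγ0 ((hη ⟨_, hmem⟩).1 h)
    have h2 : (f / g ^ D)⁻¹ ∈ η.1 := by
      rw [val_lt_iff ha0, not_not] at h1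
      exact h1
    have hηZ : η ∉ Z₀ := (hnot η).2 ⟨f, hf, br55_gn (hN hf) hf0 hg0 hgη.le h2⟩
    have hCt : Ct M₀ N D W.1 ϖ d := ⟨f, hf, hf0, g, hgW, hγd ⟨_, hmem⟩ d hγa⟩
    have hpr : ∀ p : ℕ, p.Prime → (p : F)⁻¹ * ϖ ^ d ∈ W.1 := by
      intro p hp
      refine hγd (p : chart ℤ M₀ g) d ?_
      rw [map_natCast]
      exact hγp p hp
    refine ⟨hKreg d W η ϖ hWη hηZ hϖ0 hϖW (fun Q₀ hQ₀ z hzQ hzW => ?_) ⟨hCt, hpr⟩,
      _, Gn.LR hgη, (hKM d).2.2.2 η hηZ _ (Gn.LR hgη)⟩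
    rw [LR.unique η.2 hQ₀ (Gn.LR hgη)] at hzQ
    exact hz z hzQ hzW

end lev

end Pool.Agent.H413.XT
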