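import Pool.Agent.H413.XT.Defs

/-!
# XT2: the open subscheme covered by charts, and its embedding into another scheme
-/

set_option autoImplicit false
set_option linter.unusedVariables false
set_option linter.unusedSectionVars false

open AlgebraicGeometry CategoryTheory Limits

namespace Pool.Agent.H413.XT

open Pool.Agent.TH188.ARC Pool.Agent.H918R2.Quad Pool.Agent.H968R2.Quad Pool.Agent.W559.GF
  Pool.Agent.W930.GF Pool.Agent.W191.GF

/-- a chart is unique -/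
theorem h998_chart_unique {R F : Type} [CommRing R] [Field F] {Z : Scheme.{0}}
    {f : Z ⟶ Spec (CommRingCat.of R)} (hf : IsSeparated f) {η : Spec (CommRingCat.of F) ⟶ Z}
    (A : Subring F) (j j₂ : Spec (CommRingCat.of A) ⟶ Z) (h : io A ≫ j = η)
    (h₂ : io A ≫ j₂ = η) : j = j₂ := by
  have hd : IsDominant (io A) := ⟨io_dense A⟩
  refine ext_of_isDominant_of_isSeparated f ?_ (io A) (h.trans h₂.symm)
  apply io_mono
  rw [← Category.assoc, ← Category.assoc, h, h₂]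

/-- the open subscheme covered by the charts -/
theorem h998_sub {R F : Type} [CommRing R] [Field F] {Z : Scheme.{0}}
    {f : Z ⟶ Spec (CommRingCat.of R)} (hf : IsSeparated f) {η : Spec (CommRingCat.of F) ⟶ Z}
    (𝒜 : Set (Subring F)) (hne : 𝒜.Nonempty) (h : ∀ A ∈ 𝒜, Aff η A) :
    ∃ (U : Z.Opens) (ηU : Spec (CommRingCat.of F) ⟶ U.toScheme),
      (∀ z, z ∈ U ↔ ∃ A ∈ 𝒜, AffAt η A z) ∧ ηU ≫ U.ι = η ∧
      AtlasAt ηU (fun A : 𝒜 => A.1) := by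
  choose j hj hjη using fun t : 𝒜 => h t.1 t.2
  let U : Z.Opens := ⨆ t : 𝒜, (j t).opensRange
  have hU : ∀ z, z ∈ U ↔ ∃ t : 𝒜, z ∈ Set.range (j t) := by
    intro z
    change z ∈ ⨆ t : 𝒜, (j t).opensRange ↔ _
    rw [TopologicalSpace.Opens.mem_iSup]
    rfl
  have hr : ∀ t : 𝒜, Set.range (j t) ⊆ Set.range U.ι := by
    rintro t z hz
    rw [Scheme.Opens.range_ι]
    exact (hU z).2 ⟨t, hz⟩
  let jU : ∀ t : 𝒜, Spec (CommRingCat.of t.1) ⟶ U.toScheme := fun t =>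
    IsOpenImmersion.lift U.ι (j t) (hr t)
  have hjU : ∀ t, jU t ≫ U.ι = j t := fun t => IsOpenImmersion.lift_fac _ _ _
  have hjo : ∀ t, IsOpenImmersion (jU t) := by
    intro t
    have h1 : IsOpenImmersion (jU t ≫ U.ι) := by rw [hjU]; exact hj t
    exact IsOpenImmersion.of_comp (jU t) U.ι
  obtain ⟨A₀, hA₀⟩ := hne
  let t₀ : 𝒜 := ⟨A₀, hA₀⟩
  let ηU : Spec (CommRingCat.of F) ⟶ U.toScheme := io t₀.1 ≫ jU t₀
  have hηU : ηU ≫ U.ι = η := by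
    change (io t₀.1 ≫ jU t₀) ≫ U.ι = η
    rw [Category.assoc, hjU, hjη]
  have hηt : ∀ t : 𝒜, io t.1 ≫ jU t = ηU := by
    intro t
    rw [← cancel_mono U.ι, Category.assoc, hjU, hjη, hηU]
  refine ⟨U, ηU, ?_, hηU, fun t => (jU t).opensRange, ?_, ?_⟩
  · intro z
    rw [hU]
    constructor
    · rintro ⟨t, ht⟩
      exact ⟨t.1, t.2, j t, hj t, hjη t, ht⟩
    · rintro ⟨A, hA, j₂, -, h₂, hz⟩
      refine ⟨⟨A, hA⟩, ?_⟩
      rw [h998_chart_unique hf A (j ⟨A, hA⟩) j₂ (hjη ⟨A, hA⟩) h₂]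
      exact hz
  · rw [eq_top_iff]
    intro x _
    rw [TopologicalSpace.Opens.mem_iSup]
    obtain ⟨t, y, hy⟩ := (hU (U.ι x)).1 (by
      have : U.ι x ∈ Set.range U.ι := ⟨x, rfl⟩
      rwa [Scheme.Opens.range_ι] at this)
    refine ⟨t, y, ?_⟩
    apply U.ι.isOpenEmbedding.injective
    rw [← Scheme.Hom.comp_apply, hjU, hy]
  · intro t
    exact ⟨jU t, hjo t, rfl, hηt t⟩

/-- XT2 -/
theorem h413_union {R F : Type} [CommRing R] [Field F] {Z Z' : Scheme.{0}}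
    {f : Z ⟶ Spec (CommRingCat.of R)} {f' : Z' ⟶ Spec (CommRingCat.of R)}
    (hf : IsSeparated f) (hf' : IsSeparated f') {η : Spec (CommRingCat.of F) ⟶ Z}
    {η' : Spec (CommRingCat.of F) ⟶ Z'} (hηη : η ≫ f = η' ≫ f')
    (𝒜 : Set (Subring F)) (hne : 𝒜.Nonempty) (h : ∀ A ∈ 𝒜, Aff η A) (h' : ∀ A ∈ 𝒜, Aff η' A) :
    ∃ (U : Z.Opens) (ηU : Spec (CommRingCat.of F) ⟶ U.toScheme) (φ : U.toScheme ⟶ Z'),
      (∀ z, z ∈ U ↔ ∃ A ∈ 𝒜, AffAt η A z) ∧ ηU ≫ U.ι = η ∧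
      AtlasAt ηU (fun A : 𝒜 => A.1) ∧ IsOpenImmersion φ ∧ φ ≫ f' = U.ι ≫ f ∧ ηU ≫ φ = η' ∧
      ∀ z', z' ∈ Set.range φ ↔ ∃ A ∈ 𝒜, AffAt η' A z' := by
  obtain ⟨U, ηU, h1, h2, h3⟩ := h998_sub hf 𝒜 hne h
  obtain ⟨U', ηU', h1', h2', h3'⟩ := h998_sub hf' 𝒜 hne h'
  have hs : IsSeparated (U.ι ≫ f) := inferInstance
  have hs' : IsSeparated (U'.ι ≫ f') := inferInstance
  obtain ⟨e, he, heη⟩ := isoAt hs hs' (η := ηU) (η' := ηU')
    (by rw [← Category.assoc, ← Category.assoc, h2, h2', hηη]) h3 h3' hne.to_subtype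
  refine ⟨U, ηU, e.hom ≫ U'.ι, h1, h2, h3, inferInstance, ?_, ?_, ?_⟩
  · rw [Category.assoc, he]
  · rw [← Category.assoc, heη, h2']
  · intro z'
    rw [← h1']
    have hr : Set.range (e.hom ≫ U'.ι) = Set.range U'.ι := by
      ext x
      constructor
      · rintro ⟨y, rfl⟩
        exact ⟨e.hom y, by rw [← Scheme.Hom.comp_apply]⟩
      · rintro ⟨y, rfl⟩
        refine ⟨e.inv y, ?_⟩
        rw [← Scheme.Hom.comp_apply, ← Category.assoc, e.inv_hom_id, Category.id_comp]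
    rw [hr, Scheme.Opens.range_ι]
    rfl

end Pool.Agent.H413.XT
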