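import Pool.Agent.H413.XT.Defs

/-!
# XT4: uniqueness of lifts of traits
-/

set_option autoImplicit false

open AlgebraicGeometry CategoryTheory Limits

namespace Pool.Agent.H413.XT

/-- XT4. Uniqueness of lifts of traits. -/
theorem h413_lift_unique {X Y : Scheme.{0}} (π : Y ⟶ X) (hπ : IsSeparated π) (U : X.Opens)
    (hU : IsIso (π ∣_ U)) (R : Type) [CommRing R] [IsDomain R]
    (ψ₁ ψ₂ : Spec (CommRingCat.of R) ⟶ Y) (h : ψ₁ ≫ π = ψ₂ ≫ π)
    (hgen : (ψ₁ ≫ π) (⊥ : PrimeSpectrum R) ∈ U) : ψ₁ = ψ₂ := by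
  obtain ⟨V, hV⟩ : ∃ V : (Spec (CommRingCat.of R)).Opens, V = (ψ₁ ≫ π) ⁻¹ᵁ U := ⟨_, rfl⟩
  have hmem : ∀ x : Spec (CommRingCat.of R), x ∈ V → (ψ₁ ≫ π) x ∈ U := by
    intro x hx
    rw [hV] at hx
    exact hx
  have hne : (V : Set (Spec (CommRingCat.of R))).Nonempty := ⟨(⊥ : PrimeSpectrum R), by
    rw [hV]
    exact hgen⟩
  have hred : IsReduced (Spec (CommRingCat.of R)) := inferInstance
  have hirr : IrreducibleSpace (Spec (CommRingCat.of R)) := inferInstance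
  have hdom : IsDominant V.ι := by
    rw [isDominant_iff]
    have h1 : Set.range V.ι = (V : Set (Spec (CommRingCat.of R))) := V.range_ι
    rw [DenseRange, h1]
    exact V.isOpen.dense hne
  apply ext_of_isDominant_of_isSeparated π h V.ι
  have h1 : Set.range (V.ι ≫ ψ₁) ⊆ Set.range (π ⁻¹ᵁ U).ι := by
    rintro y ⟨x, rfl⟩
    rw [Scheme.Opens.range_ι]
    show π ((V.ι ≫ ψ₁) x) ∈ U
    have h2 : (V.ι x) ∈ V := x.2
    have h3 := hmem _ h2
    rw [Scheme.Hom.comp_apply] at h3 ⊢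
    exact h3
  have h2 : Set.range (V.ι ≫ ψ₂) ⊆ Set.range (π ⁻¹ᵁ U).ι := by
    rintro y ⟨x, rfl⟩
    rw [Scheme.Opens.range_ι]
    show π ((V.ι ≫ ψ₂) x) ∈ U
    have h2 : (V.ι x) ∈ V := x.2
    have h3 := hmem _ h2
    rw [h, Scheme.Hom.comp_apply] at h3
    rw [Scheme.Hom.comp_apply]
    exact h3
  rw [← IsOpenImmersion.lift_fac (π ⁻¹ᵁ U).ι (V.ι ≫ ψ₁) h1,
    ← IsOpenImmersion.lift_fac (π ⁻¹ᵁ U).ι (V.ι ≫ ψ₂) h2]
  congr 1
  rw [← cancel_mono (π ∣_ U), ← cancel_mono U.ι, Category.assoc, Category.assoc,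
    morphismRestrict_ι, ← Category.assoc, ← Category.assoc, IsOpenImmersion.lift_fac,
    IsOpenImmersion.lift_fac, Category.assoc, Category.assoc, h]

end Pool.Agent.H413.XT
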