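import Pool.Agent.H413.XT.Defs

/-!
# The singular locus is closed (XT6)
-/

set_option autoImplicit false
set_option linter.unusedVariables false
set_option linter.unusedSectionVars false

namespace Pool.Agent.H413.XT

open scoped Topology
open IsLocalRing Pool.Agent.TH188.ARC Pool.Agent.TH188.QS Pool.Agent.W418.LU2
  Pool.Agent.H918R2.Quad Pool.Agent.H413.BR

variable {O F : Type} [CommRing O] [Field F] [Algebra O F]

/-- The open neighbourhood of a generic point on which the local rings are nice. -/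
lemma h77_nbhd [IsNoetherianRing O] (hHJ : HJ O) {M : Submodule O F}
    (hM : M.FG) (hne : ∃ g ∈ M, g ≠ 0) {Z : Set (ZR O F)} (hZ : IsClosed[topM M] Z)
    (hE : Z.Nonempty) :
    ∃ η ∈ Z, ∃ U' : Set (ZR O F), IsOpen[topM M] U' ∧ η ∈ U' ∧ ∃ g, Gn η.1 M g ∧
      ∀ W ∈ U', W ∈ Z → Gn W.1 M g ∧ lo W.1.toSubring (chart O M g).toSubring ≤ η.1.toSubring ∧
        Nice η.1 (lo W.1.toSubring (chart O M g).toSubring) ∧
        lo η.1.toSubring (lo W.1.toSubring (chart O M g).toSubring) =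
          lo η.1.toSubring (chart O M g).toSubring := by
  obtain ⟨η, hηZ, U, hU, hηU, g, hUg, hUle⟩ := exists_generic hM hne hZ hE
  have hηg := hUg η hηU
  obtain ⟨s₁, hs₁B, hs₁0, hs₁η, hs₁⟩ := nice_quot hHJ hM η hηg
  obtain ⟨s₂, hs₂B, hs₂0, hs₂η, hs₂⟩ := nice_gen hM η hηg
  obtain ⟨U₁, hU₁⟩ : ∃ U₁ : Set (ZR O F), U₁ = {W | Gn W.1 M g ∧ s₁ ≠ 0 ∧ s₁⁻¹ ∈ W.1} := ⟨_, rfl⟩
  obtain ⟨U₂, hU₂⟩ : ∃ U₂ : Set (ZR O F), U₂ = {W | Gn W.1 M g ∧ s₂ ≠ 0 ∧ s₂⁻¹ ∈ W.1} := ⟨_, rfl⟩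
  have hoU₁ : IsOpen[topM M] U₁ := by
    rw [hU₁]
    exact open_unit hηg.1 hηg.2.1 hs₁B
  have hoU₂ : IsOpen[topM M] U₂ := by
    rw [hU₂]
    exact open_unit hηg.1 hηg.2.1 hs₂B
  refine ⟨η, hηZ, U ∩ U₁ ∩ U₂,
    @IsOpen.inter _ (topM M) _ _ (@IsOpen.inter _ (topM M) _ _ hU hoU₁) hoU₂, ?_, g, hηg, ?_⟩
  · rw [hU₁, hU₂]
    exact ⟨⟨hηU, hηg, hs₁0, hs₁η⟩, hηg, hs₂0, hs₂η⟩
  · intro W hW hWZ
    rw [hU₁, hU₂] at hW
    obtain ⟨⟨hWU, hWg, -, hW1⟩, -, -, hW2⟩ := hW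
    have h2 := hUle W hWU hWZ
    exact ⟨hWg, h2, ⟨hs₁ W hWg hW1 h2, hs₂ W hWg hW2 h2⟩, lo_lo (Gn.le hWg) h2⟩

/-- The open sets which meet `U' ∩ Z` contain the generic point. -/
lemma h77_mem_open {M : Submodule O F} {η W : ZR O F} {Q : Subring F} (hQ : LR W.1 M Q)
    (hle : Q ≤ η.1.toSubring) {V : Set (ZR O F)} (hV : IsOpen[topM M] V) (hW : W ∈ V) : η ∈ V := by
  obtain ⟨l, f, hf, hWf, hfV⟩ := exists_bas (M := M) hV hW
  exact hfV (bas_gen hQ hle hWf)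

theorem h413_sing_closed [IsNoetherianRing O] (hHJ : HJ O) (hSR : SR O F) {M : Submodule O F}
    (hM : M.FG) (hne : ∃ g ∈ M, g ≠ 0) : IsClosed[topM M] {W : ZR O F | ¬ Rq W M} := by
  obtain ⟨S, hS⟩ : ∃ S : Set (ZR O F), S = {W : ZR O F | ¬ Rq W M} := ⟨_, rfl⟩
  rw [← hS]
  have hnt := noeth_top hM hne
  have key : ∀ Z : Set (ZR O F), IsClosed[topM M] Z → IsClosed[topM M] (S ∩ Z) := by
    refine @h127_noeth_ind _ (topM M) hnt (fun Z => IsClosed[topM M] (S ∩ Z)) ?_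
    intro Z hZ ih
    rcases Z.eq_empty_or_nonempty with hZe | hE
    · rw [hZe, Set.inter_empty]
      exact @isClosed_empty _ (topM M)
    obtain ⟨η, hηZ, U', hoU', hηU', g, hηg, hloc⟩ := h77_nbhd hHJ hM hne hZ hE
    obtain ⟨Z', hZ'⟩ : ∃ Z' : Set (ZR O F), Z' = Z ∩ U'ᶜ := ⟨_, rfl⟩
    have hcZ' : IsClosed[topM M] Z' := by
      rw [hZ']
      exact @IsClosed.inter _ _ _ (topM M) hZ (@IsOpen.isClosed_compl _ (topM M) _ hoU')
    have hlt : Z' ⊂ Z := by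
      rw [hZ']
      refine ⟨Set.inter_subset_left, fun h => ?_⟩
      exact (h hηZ).2 hηU'
    have hih := ih Z' hcZ' hlt
    have hnoe : IsNoetherianRing (chart O M g).toSubring := chart_noeth hM g
    by_cases hr : Rq η M
    · have h1 : S ∩ Z = S ∩ Z' := by
        apply Set.Subset.antisymm
        · rintro W ⟨hWS, hWZ⟩
          refine ⟨hWS, ?_⟩
          rw [hZ']
          refine ⟨hWZ, fun hWU => ?_⟩
          obtain ⟨h1, h2, h3, h4⟩ := hloc W hWU hWZ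
          obtain ⟨Q, hQ, hreg⟩ := hr
          rw [hS] at hWS
          apply hWS
          refine ⟨_, Gn.LR h1, ?_⟩
          have h6 := lo_noeth (Gn.le h1) hnoe
          refine reg_of_nice h2 h6.1 h6.2 h3 ?_
          rw [h4, ← LR.unique η.2 hQ (Gn.LR hηg)]
          exact hreg
        · exact Set.inter_subset_inter_right _ hlt.1
      rw [h1]
      exact hih
    · have hC : @closure _ (topM M) (U' ∩ Z) ⊆ Z :=
        @closure_minimal _ (topM M) _ _ Set.inter_subset_right hZ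
      have hCS : @closure _ (topM M) (U' ∩ Z) ⊆ S := by
        intro W hW
        rw [hS]
        rintro ⟨Q, hQ, hreg⟩
        apply hr
        obtain ⟨g', hg', hgQ⟩ := LR.gn hQ
        have hop : ∀ b ∈ (chart O M g').toSubring, b ≠ 0 → b⁻¹ ∈ W.1 →
            Gn η.1 M g' ∧ b⁻¹ ∈ η.1 := by
          intro b hb hb0 hbW
          have ho := open_unit (O := O) hg'.1 hg'.2.1 (s := b) hb
          obtain ⟨W', hW'V, hW'U, hW'Z⟩ := (@mem_closure_iff _ (topM M) _ _).1 hW _ ho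
            ⟨hg', hb0, hbW⟩
          obtain ⟨h1, h2, h3, h4⟩ := hloc W' hW'U hW'Z
          have h5 := h77_mem_open (Gn.LR h1) h2 ho hW'V
          exact ⟨h5.1, h5.2.2⟩
        have hone := hop 1 (one_mem _) one_ne_zero (by rw [inv_one]; exact one_mem _)
        have hle : Q ≤ η.1.toSubring := by
          rw [← hgQ]
          rintro z ⟨a, ha, b, hb, hb0, hbW, rfl⟩
          exact η.1.toSubring.mul_mem (Gn.le hone.1 ha) (hop b hb hb0 hbW).2
        exact ⟨_, LR.gen hQ hle, hSR M hM W η Q hQ hle hreg⟩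
      have h1 : S ∩ Z = @closure _ (topM M) (U' ∩ Z) ∪ (S ∩ Z') := by
        apply Set.Subset.antisymm
        · rintro W ⟨hWS, hWZ⟩
          by_cases hWU : W ∈ U'
          · exact Or.inl (@subset_closure _ (topM M) _ _ ⟨hWU, hWZ⟩)
          · refine Or.inr ⟨hWS, ?_⟩
            rw [hZ']
            exact ⟨hWZ, hWU⟩
        · rintro W (h | h)
          · exact ⟨hCS h, hC h⟩
          · exact ⟨h.1, hlt.1 h.2⟩
      rw [h1]
      exact @IsClosed.union _ _ _ (topM M) (@isClosed_closure _ (topM M) _) hih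
  have h2 := key Set.univ (@isClosed_univ _ (topM M))
  rw [Set.inter_univ] at h2
  exact h2

end Pool.Agent.H413.XT
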