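import Pool.Agent.H413.XT.X6

/-!
# XT8: finitely many forms of one degree defining the singular locus (helper909 for helper413)
-/

set_option autoImplicit false
set_option linter.unusedVariables false
set_option linter.unusedSectionVars false

namespace Pool.Agent.H413.XT

open scoped Topology
open IsLocalRing Pool.Agent.TH188.QS Pool.Agent.TH188.ARC Pool.Agent.W418.LU2
  Pool.Agent.H413.BR Pool.Agent.H918R2.Quad

section ef

variable {O F : Type} [CommRing O] [Field F] [Algebra O F]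

theorem h909_gn_pow {M : Submodule O F} {W : ZR O F} {m : F} (hm : Gn W.1 M m) (l : ℕ) :
    Gn W.1 (M ^ l) (m ^ l) := by
  induction l with
  | zero =>
    refine ⟨?_, by rw [pow_zero]; exact one_ne_zero, ?_⟩
    · rw [pow_zero, pow_zero]
      exact Submodule.one_le.1 le_rfl
    · intro x hx
      rw [pow_zero, Submodule.mem_one] at hx
      obtain ⟨o, rfl⟩ := hx
      rw [pow_zero, div_one]
      exact W.2 o
  | succ l ih =>
    rw [pow_succ m l]
    refine br2_gn_mul ih ?_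
    rw [pow_one]
    exact hm

/-- Finitely many forms of one degree describe an open set. -/
theorem h909_forms [IsNoetherianRing O] {M : Submodule O F} (hM : M.FG) (hne : ∃ g ∈ M, g ≠ 0)
    {U : Set (ZR O F)} (hU : IsOpen[topM M] U) :
    ∃ (D : ℕ) (N : Set F), N.Finite ∧ N ⊆ (M ^ D : Submodule O F) ∧
      ∀ W : ZR O F, W ∈ U ↔ ∃ f ∈ N, Gn W.1 (M ^ D) f := by
  classical
  obtain ⟨G, hG⟩ := id hM
  obtain ⟨g₀, hg₀, hg₀0⟩ := hne
  have hGm : ∀ m ∈ G, m ∈ M := fun m hm => hG ▸ Submodule.subset_span hm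
  have hgen : ∀ W : ZR O F, ∃ m ∈ G, Gn W.1 M m := by
    intro W
    obtain ⟨m, hm, hm0, hmW⟩ := exists_gen_max' W.2 hG hg₀ hg₀0
    exact ⟨m, hm, hGm m hm, hm0, hmW⟩
  -- a finite subcover
  obtain ⟨t, ht⟩ : ∃ t : Finset {p : ℕ × F // p.2 ∈ M ^ p.1 ∧ bas M p.1 p.2 ⊆ U},
      U ⊆ ⋃ p ∈ t, bas M p.1.1 p.1.2 := by
    let t0 : TopologicalSpace (ZR O F) := topM M
    have hns : TopologicalSpace.NoetherianSpace (ZR O F) := noeth_top hM ⟨g₀, hg₀, hg₀0⟩
    have hc : IsCompact U := TopologicalSpace.NoetherianSpace.isCompact U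
    refine hc.elim_finite_subcover
      (fun p : {p : ℕ × F // p.2 ∈ M ^ p.1 ∧ bas M p.1 p.2 ⊆ U} => bas M p.1.1 p.1.2)
      (fun p => TopologicalSpace.isOpen_generateFrom_of_mem ⟨p.1.1, p.1.2, rfl⟩) ?_
    intro W hW
    obtain ⟨k, f, hf, hWf, hfU⟩ := exists_bas hU hW
    exact Set.mem_iUnion.2 ⟨⟨(k, f), hf, hfU⟩, hWf⟩
  obtain ⟨D, hD⟩ : ∃ D : ℕ, ∀ p ∈ t, p.1.1 ≤ D :=
    ⟨t.sup fun p => p.1.1, fun p hp => Finset.le_sup (f := fun p => p.1.1) hp⟩
  refine ⟨D, ((t ×ˢ G).image fun q => q.1.1.2 * q.2 ^ (D - q.1.1.1) : Finset F),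
    Finset.finite_toSet _, ?_, ?_⟩
  · intro x hx
    rw [Finset.mem_coe, Finset.mem_image] at hx
    obtain ⟨⟨p, m⟩, hpm, rfl⟩ := hx
    rw [Finset.mem_product] at hpm
    have h1 : p.1.1 + (D - p.1.1) = D := Nat.add_sub_cancel' (hD p hpm.1)
    have h2 : p.1.2 * m ^ (D - p.1.1) ∈ M ^ (p.1.1 + (D - p.1.1)) := by
      rw [pow_add]
      exact Submodule.mul_mem_mul p.2.1 (Submodule.pow_mem_pow _ (hGm m hpm.2) _)
    rw [h1] at h2
    exact h2
  · intro W
    constructor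
    · intro hW
      obtain ⟨p, hp, hWp⟩ := Set.mem_iUnion₂.1 (ht hW)
      obtain ⟨m, hm, hmW⟩ := hgen W
      refine ⟨p.1.2 * m ^ (D - p.1.1), ?_, ?_⟩
      · rw [Finset.mem_coe, Finset.mem_image]
        exact ⟨(p, m), Finset.mem_product.2 ⟨hp, hm⟩, rfl⟩
      · have h1 : p.1.1 + (D - p.1.1) = D := Nat.add_sub_cancel' (hD p hp)
        have h2 := br2_gn_mul hWp (h909_gn_pow hmW (D - p.1.1))
        rw [h1] at h2
        exact h2
    · rintro ⟨f, hf, hfW⟩
      rw [Finset.mem_coe, Finset.mem_image] at hf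
      obtain ⟨⟨p, m⟩, hpm, rfl⟩ := hf
      rw [Finset.mem_product] at hpm
      have h1 : p.1.1 + (D - p.1.1) = D := Nat.add_sub_cancel' (hD p hpm.1)
      rw [← h1] at hfW
      refine p.2.2 (br2_gn_left p.2.1 (Submodule.pow_mem_pow _ (hGm m hpm.2) (D - p.1.1)) ?_)
      rw [h1] at hfW ⊢
      exact hfW

/-- The version with the closed set of singular points as a hypothesis. -/
theorem h909_exists_forms [IsNoetherianRing O] {M : Submodule O F}
    (hM : M.FG) (hne : ∃ g ∈ M, g ≠ 0) (hcl : IsClosed[topM M] {W : ZR O F | ¬ Rq W M}) :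
    ∃ (D : ℕ) (N : Set F), N.Finite ∧ N ⊆ (M ^ D : Submodule O F) ∧
      ∀ g ∈ M, g ≠ 0 → ∀ (P : Ideal (chart O M g)) [P.IsPrime],
        ((∃ f ∈ N, ∀ h : f / g ^ D ∈ chart O M g, (⟨_, h⟩ : chart O M g) ∉ P) ↔
          IsRegularLocalRing (Localization.AtPrime P)) := by
  have hU : IsOpen[topM M] {W : ZR O F | Rq W M} := by
    let t0 : TopologicalSpace (ZR O F) := topM M
    rw [← isClosed_compl_iff]
    exact hcl
  obtain ⟨D, N, hNf, hN, hNU⟩ := h909_forms hM hne hU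
  refine ⟨D, N, hNf, hN, fun g hg hg0 P hP => ?_⟩
  obtain ⟨V, hBV, hV⟩ := h94_val (chart O M g) P
  have hO : ∀ o, algebraMap O F o ∈ V := fun o => hBV ((chart O M g).algebraMap_mem o)
  have hgW : Gn V M g := ⟨hg, hg0, fun m hm => hBV (Algebra.subset_adjoin ⟨m, hm, rfl⟩)⟩
  have hgD : g ^ D ≠ 0 := pow_ne_zero _ hg0
  have hW := hNU ⟨V, hO⟩
  have h1 : (∃ f ∈ N, ∀ h : f / g ^ D ∈ chart O M g, (⟨_, h⟩ : chart O M g) ∉ P) ↔
      ∃ f ∈ N, Gn V (M ^ D) f := by
    constructor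
    · rintro ⟨f, hf, h⟩
      have hmem : f / g ^ D ∈ chart O M g := pow_div_mem hg0 D f (hN hf)
      have hnP := h hmem
      have hf0 : f ≠ 0 := by
        rintro rfl
        apply hnP
        have h2 : (⟨0 / g ^ D, hmem⟩ : chart O M g) = 0 := Subtype.ext (zero_div _)
        rw [h2]
        exact Ideal.zero_mem _
      rw [hV, val_lt_iff (div_ne_zero hf0 hgD), not_not] at hnP
      exact ⟨f, hf, br55_gn (hN hf) hf0 hg0 hBV hnP⟩
    · rintro ⟨f, hf, hfG⟩
      refine ⟨f, hf, fun h hcon => ?_⟩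
      rw [hV] at hcon
      refine (val_lt_iff (div_ne_zero hfG.2.1 hgD)).1 hcon ?_
      rw [inv_div]
      exact hfG.2.2 _ (Submodule.pow_mem_pow _ hg _)
  rw [h1]
  refine Iff.trans hW.symm ?_
  constructor
  · rintro ⟨Q, hQ, hreg⟩
    rw [LR.unique hO hQ hgW.LR] at hreg
    obtain ⟨P', hP', hP'V, hreg'⟩ := regular_centre' hBV hreg
    have h2 : P' = P := by
      ext b
      rw [hP'V, hV]
    subst h2
    exact hreg'
  · intro hreg
    exact ⟨_, hgW.LR, h94_lo_regular hBV P hV hreg⟩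

end ef

section mod

variable {O F : Type} [CommRing O] [Field F] [Algebra O F]

/-- XT8. -/
theorem h413_exists_forms [IsNoetherianRing O] (hHJ : HJ O) (hSR : SR O F) {M : Submodule O F}
    (hM : M.FG) (hne : ∃ g ∈ M, g ≠ 0) :
    ∃ (D : ℕ) (N : Set F), N.Finite ∧ N ⊆ (M ^ D : Submodule O F) ∧
      ∀ g ∈ M, g ≠ 0 → ∀ (P : Ideal (chart O M g)) [P.IsPrime],
        ((∃ f ∈ N, ∀ h : f / g ^ D ∈ chart O M g, (⟨_, h⟩ : chart O M g) ∉ P) ↔
          IsRegularLocalRing (Localization.AtPrime P)) :=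
  h909_exists_forms hM hne (h413_sing_closed hHJ hSR hM hne)

end mod

end Pool.Agent.H413.XT
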